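import Pool.Agent.SQB.BC

/-!
Kernel checks, part 10.
-/

set_option autoImplicit false
set_option maxRecDepth 100000

namespace Pool.Agent.SQB

theorem l15_13 : lev wlist 15 9850 13 3 = true := by decide +kernel

theorem l12_16 : lev wlist 12 7300 16 3 = true := by decide +kernel

end Pool.Agent.SQB
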