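import Pool.Agent.SQB.BC

/-!
Kernel checks, part 23.
-/

set_option autoImplicit false
set_option maxRecDepth 100000

namespace Pool.Agent.SQB

theorem l12_36 : lev wlist 12 6750 36 8 = true := by decide +kernel

theorem l12_44 : lev wlist 12 6750 44 4 = true := by decide +kernel

theorem l15_32 : lev wlist 15 7400 32 2 = true := by decide +kernel

end Pool.Agent.SQB
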