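import Pool.Agent.SQB.BC

/-!
Kernel checks, part 28.
-/

set_option autoImplicit false
set_option maxRecDepth 100000

namespace Pool.Agent.SQB

theorem h15_36_160 : rp wlist 15 7400 36 160 22 = true := by decide +kernel

theorem h15_36_182 : re wlist 15 7400 36 182 = true := by decide +kernel

end Pool.Agent.SQB
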