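import Pool.Agent.SQB.BC

/-!
Kernel checks, part 41.
-/

set_option autoImplicit false
set_option maxRecDepth 100000

namespace Pool.Agent.SQB

theorem h15_61_75 : rp wlist 15 6450 61 75 49 = true := by decide +kernel

theorem h15_61_124 : re wlist 15 6450 61 124 = true := by decide +kernel

theorem l15_62 : lev wlist 15 6450 62 2 = true := by decide +kernel

theorem l18_48 : lev wlist 18 7900 48 1 = true := by decide +kernel

end Pool.Agent.SQB
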