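import Pool.Agent.SQB.BC

/-!
Kernel checks, part 51.
-/

set_option autoImplicit false
set_option maxRecDepth 100000

namespace Pool.Agent.SQB

theorem h18_62_173 : re wlist 18 7900 62 173 = true := by decide +kernel

theorem l18_63 : lev wlist 18 7900 63 1 = true := by decide +kernel

theorem l15_64 : lev wlist 15 5900 64 1 = true := by decide +kernel

theorem h15_65_0 : rp wlist 15 5900 65 0 52 = true := by decide +kernel

end Pool.Agent.SQB
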