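import Pool.Agent.SQB.BC

/-!
Kernel checks, part 66.
-/

set_option autoImplicit false
set_option maxRecDepth 100000

namespace Pool.Agent.SQB

theorem h18_78_85 : rp wlist 18 6750 78 85 37 = true := by decide +kernel

theorem h18_78_122 : re wlist 18 6750 78 122 = true := by decide +kernel

theorem l18_79 : lev wlist 18 6750 79 1 = true := by decide +kernel

end Pool.Agent.SQB
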