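import Pool.Agent.SQB.BC

/-!
Kernel checks, part 9.
-/

set_option autoImplicit false
set_option maxRecDepth 100000

namespace Pool.Agent.SQB

theorem h15_11_154 : re wlist 15 9850 11 154 = true := by decide +kernel

theorem h15_12_0 : rp wlist 15 9850 12 0 122 = true := by decide +kernel

theorem h15_12_122 : re wlist 15 9850 12 122 = true := by decide +kernel

end Pool.Agent.SQB
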