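import Pool.Agent.SQB.BD
import Pool.Agent.SQB.K0
import Pool.Agent.SQB.K1
import Pool.Agent.SQB.K2
import Pool.Agent.SQB.K3
import Pool.Agent.SQB.K4
import Pool.Agent.SQB.K5
import Pool.Agent.SQB.K6
import Pool.Agent.SQB.K7
import Pool.Agent.SQB.K8
import Pool.Agent.SQB.K9
import Pool.Agent.SQB.K10
import Pool.Agent.SQB.K11
import Pool.Agent.SQB.K12
import Pool.Agent.SQB.K13
import Pool.Agent.SQB.K14
import Pool.Agent.SQB.K15
import Pool.Agent.SQB.K16
import Pool.Agent.SQB.K17
import Pool.Agent.SQB.K18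
import Pool.Agent.SQB.K19
import Pool.Agent.SQB.K20
import Pool.Agent.SQB.K21
import Pool.Agent.SQB.K22
import Pool.Agent.SQB.K23
import Pool.Agent.SQB.K24
import Pool.Agent.SQB.K25
import Pool.Agent.SQB.K26
import Pool.Agent.SQB.K27
import Pool.Agent.SQB.K28
import Pool.Agent.SQB.K29
import Pool.Agent.SQB.K30
import Pool.Agent.SQB.K31
import Pool.Agent.SQB.K32
import Pool.Agent.SQB.K33
import Pool.Agent.SQB.K34
import Pool.Agent.SQB.K35
import Pool.Agent.SQB.K36
import Pool.Agent.SQB.K37
import Pool.Agent.SQB.K38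
import Pool.Agent.SQB.K39
import Pool.Agent.SQB.K40
import Pool.Agent.SQB.K41
import Pool.Agent.SQB.K42
import Pool.Agent.SQB.K43
import Pool.Agent.SQB.K44
import Pool.Agent.SQB.K45
import Pool.Agent.SQB.K46
import Pool.Agent.SQB.K47
import Pool.Agent.SQB.K48
import Pool.Agent.SQB.K49
import Pool.Agent.SQB.K50
import Pool.Agent.SQB.K51
import Pool.Agent.SQB.K52
import Pool.Agent.SQB.K53
import Pool.Agent.SQB.K54
import Pool.Agent.SQB.K55
import Pool.Agent.SQB.K56
import Pool.Agent.SQB.K57
import Pool.Agent.SQB.K58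
import Pool.Agent.SQB.K59
import Pool.Agent.SQB.K60
import Pool.Agent.SQB.K61
import Pool.Agent.SQB.K62
import Pool.Agent.SQB.K63
import Pool.Agent.SQB.K64
import Pool.Agent.SQB.K65
import Pool.Agent.SQB.K66
import Pool.Agent.SQB.K67
import Pool.Agent.SQB.K68
import Pool.Agent.SQB.K69
import Pool.Agent.SQB.K70
import Pool.Agent.SQB.K71
import Pool.Agent.SQB.K72
import Pool.Agent.SQB.K73
import Pool.Agent.SQB.K74
import Pool.Agent.SQB.K75
import Pool.Agent.SQB.K76
import Pool.Agent.SQB.K77
import Pool.Agent.SQB.K78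
import Pool.Agent.SQB.K79

/-!
The levels of the table, part 0.
-/

set_option autoImplicit false

namespace Pool.Agent.SQB

theorem ro_16_12 : ∀ β : ℕ, 0 ≤ β → β < 16 → RO 12 7900 β := by
  intro β h1 h2
  rcases Nat.lt_or_ge β 2 with h2 | h1
  · exact RO_lev (by norm_num) l12_0 β (by omega) (by omega)
  rcases Nat.lt_or_ge β 3 with h2 | h1
  · exact RO_lev (by norm_num) l12_2 β (by omega) (by omega)
  rcases Nat.lt_or_ge β 4 with h2 | h1
  · exact RO_lev (by norm_num) l12_3 β (by omega) (by omega)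
  rcases Nat.lt_or_ge β 5 with h2 | h1
  · exact RO_lev (by norm_num) l12_4 β (by omega) (by omega)
  rcases Nat.lt_or_ge β 9 with h2 | h1
  · exact RO_lev (by norm_num) l12_5 β (by omega) (by omega)
  rcases Nat.lt_or_ge β 12 with h2 | h1
  · exact RO_lev (by norm_num) l12_9 β (by omega) (by omega)
  rcases Nat.lt_or_ge β 13 with h2 | h1
  · exact RO_lev (by norm_num) l12_12 β (by omega) (by omega)
  exact RO_lev (by norm_num) l12_13 β (by omega) (by omega)

theorem ro_16_15 : ∀ β : ℕ, 0 ≤ β → β < 16 → RO 15 9850 β := by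
  intro β h1 h2
  rcases Nat.lt_or_ge β 2 with h2 | h1
  · exact RO_lev (by norm_num) l15_0 β (by omega) (by omega)
  rcases Nat.lt_or_ge β 3 with h2 | h1
  · exact RO_lev (by norm_num) l15_2 β (by omega) (by omega)
  rcases Nat.lt_or_ge β 4 with h2 | h1
  · obtain rfl : β = 3 := by omega
    exact RO_TS (by decide +kernel) (TS_rp (by norm_num) h15_3_0 (TS_re (by norm_num) h15_3_110))
  rcases Nat.lt_or_ge β 5 with h2 | h1
  · obtain rfl : β = 4 := by omega
    exact RO_TS (by decide +kernel) (TS_rp (by norm_num) h15_4_0 (TS_rp (by norm_num) h15_4_94 (TS_re (by norm_num) h15_4_144)))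
  rcases Nat.lt_or_ge β 6 with h2 | h1
  · exact RO_lev (by norm_num) l15_5 β (by omega) (by omega)
  rcases Nat.lt_or_ge β 11 with h2 | h1
  · exact RO_lev (by norm_num) l15_6 β (by omega) (by omega)
  rcases Nat.lt_or_ge β 12 with h2 | h1
  · obtain rfl : β = 11 := by omega
    exact RO_TS (by decide +kernel) (TS_rp (by norm_num) h15_11_0 (TS_re (by norm_num) h15_11_154))
  rcases Nat.lt_or_ge β 13 with h2 | h1
  · obtain rfl : β = 12 := by omega
    exact RO_TS (by decide +kernel) (TS_rp (by norm_num) h15_12_0 (TS_re (by norm_num) h15_12_122))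
  exact RO_lev (by norm_num) l15_13 β (by omega) (by omega)

theorem ro_17_12 : ∀ β : ℕ, 16 ≤ β → β < 32 → RO 12 7300 β := by
  intro β h1 h2
  rcases Nat.lt_or_ge β 19 with h2 | h1
  · exact RO_lev (by norm_num) l12_16 β (by omega) (by omega)
  rcases Nat.lt_or_ge β 20 with h2 | h1
  · exact RO_lev (by norm_num) l12_19 β (by omega) (by omega)
  rcases Nat.lt_or_ge β 21 with h2 | h1
  · exact RO_lev (by norm_num) l12_20 β (by omega) (by omega)
  rcases Nat.lt_or_ge β 27 with h2 | h1
  · exact RO_lev (by norm_num) l12_21 β (by omega) (by omega)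
  rcases Nat.lt_or_ge β 29 with h2 | h1
  · exact RO_lev (by norm_num) l12_27 β (by omega) (by omega)
  exact RO_lev (by norm_num) l12_29 β (by omega) (by omega)

theorem ro_17_15 : ∀ β : ℕ, 16 ≤ β → β < 32 → RO 15 8500 β := by
  intro β h1 h2
  rcases Nat.lt_or_ge β 18 with h2 | h1
  · exact RO_lev (by norm_num) l15_16 β (by omega) (by omega)
  rcases Nat.lt_or_ge β 19 with h2 | h1
  · exact RO_lev (by norm_num) l15_18 β (by omega) (by omega)
  rcases Nat.lt_or_ge β 20 with h2 | h1
  · obtain rfl : β = 19 := by omega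
    exact RO_TS (by decide +kernel) (TS_rp (by norm_num) h15_19_0 (TS_re (by norm_num) h15_19_173))
  rcases Nat.lt_or_ge β 21 with h2 | h1
  · obtain rfl : β = 20 := by omega
    exact RO_TS (by decide +kernel) (TS_rp (by norm_num) h15_20_0 (TS_rp (by norm_num) h15_20_136 (TS_re (by norm_num) h15_20_176)))
  rcases Nat.lt_or_ge β 22 with h2 | h1
  · exact RO_lev (by norm_num) l15_21 β (by omega) (by omega)
  rcases Nat.lt_or_ge β 23 with h2 | h1
  · exact RO_lev (by norm_num) l15_22 β (by omega) (by omega)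
  rcases Nat.lt_or_ge β 27 with h2 | h1
  · exact RO_lev (by norm_num) l15_23 β (by omega) (by omega)
  rcases Nat.lt_or_ge β 28 with h2 | h1
  · obtain rfl : β = 27 := by omega
    exact RO_TS (by decide +kernel) (TS_rp (by norm_num) h15_27_0 (TS_rp (by norm_num) h15_27_119 (TS_re (by norm_num) h15_27_158)))
  rcases Nat.lt_or_ge β 29 with h2 | h1
  · obtain rfl : β = 28 := by omega
    exact RO_TS (by decide +kernel) (TS_rp (by norm_num) h15_28_0 (TS_rp (by norm_num) h15_28_120 (TS_re (by norm_num) h15_28_156)))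
  rcases Nat.lt_or_ge β 30 with h2 | h1
  · obtain rfl : β = 29 := by omega
    exact RO_TS (by decide +kernel) (TS_rp (by norm_num) h15_29_0 (TS_re (by norm_num) h15_29_141))
  rcases Nat.lt_or_ge β 31 with h2 | h1
  · obtain rfl : β = 30 := by omega
    exact RO_TS (by decide +kernel) (TS_rp (by norm_num) h15_30_0 (TS_re (by norm_num) h15_30_75))
  exact RO_lev (by norm_num) l15_31 β (by omega) (by omega)

theorem ro_18_12 : ∀ β : ℕ, 32 ≤ β → β < 48 → RO 12 6750 β := by
  intro β h1 h2
  rcases Nat.lt_or_ge β 34 with h2 | h1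
  · exact RO_lev (by norm_num) l12_32 β (by omega) (by omega)
  rcases Nat.lt_or_ge β 36 with h2 | h1
  · exact RO_lev (by norm_num) l12_34 β (by omega) (by omega)
  rcases Nat.lt_or_ge β 44 with h2 | h1
  · exact RO_lev (by norm_num) l12_36 β (by omega) (by omega)
  exact RO_lev (by norm_num) l12_44 β (by omega) (by omega)

theorem ro_18_15 : ∀ β : ℕ, 32 ≤ β → β < 48 → RO 15 7400 β := by
  intro β h1 h2
  rcases Nat.lt_or_ge β 34 with h2 | h1
  · exact RO_lev (by norm_num) l15_32 β (by omega) (by omega)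
  rcases Nat.lt_or_ge β 35 with h2 | h1
  · obtain rfl : β = 34 := by omega
    exact RO_TS (by decide +kernel) (TS_rp (by norm_num) h15_34_0 (TS_re (by norm_num) h15_34_114))
  rcases Nat.lt_or_ge β 36 with h2 | h1
  · obtain rfl : β = 35 := by omega
    exact RO_TS (by decide +kernel) (TS_rp (by norm_num) h15_35_0 (TS_rp (by norm_num) h15_35_99 (TS_rp (by norm_num) h15_35_129 (TS_re (by norm_num) h15_35_195))))
  rcases Nat.lt_or_ge β 37 with h2 | h1
  · obtain rfl : β = 36 := by omega
    exact RO_TS (by decide +kernel) (TS_rp (by norm_num) h15_36_0 (TS_rp (by norm_num) h15_36_133 (TS_rp (by norm_num) h15_36_160 (TS_re (by norm_num) h15_36_182))))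
  rcases Nat.lt_or_ge β 38 with h2 | h1
  · obtain rfl : β = 37 := by omega
    exact RO_TS (by decide +kernel) (TS_rp (by norm_num) h15_37_0 (TS_re (by norm_num) h15_37_117))
  rcases Nat.lt_or_ge β 42 with h2 | h1
  · exact RO_lev (by norm_num) l15_38 β (by omega) (by omega)
  rcases Nat.lt_or_ge β 43 with h2 | h1
  · exact RO_lev (by norm_num) l15_42 β (by omega) (by omega)
  rcases Nat.lt_or_ge β 44 with h2 | h1
  · obtain rfl : β = 43 := by omega
    exact RO_TS (by decide +kernel) (TS_rp (by norm_num) h15_43_0 (TS_re (by norm_num) h15_43_144))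
  rcases Nat.lt_or_ge β 45 with h2 | h1
  · obtain rfl : β = 44 := by omega
    exact RO_TS (by decide +kernel) (TS_rp (by norm_num) h15_44_0 (TS_re (by norm_num) h15_44_120))
  rcases Nat.lt_or_ge β 46 with h2 | h1
  · obtain rfl : β = 45 := by omega
    exact RO_TS (by decide +kernel) (TS_rp (by norm_num) h15_45_0 (TS_rp (by norm_num) h15_45_65 (TS_rp (by norm_num) h15_45_101 (TS_re (by norm_num) h15_45_144))))
  exact RO_lev (by norm_num) l15_46 β (by omega) (by omega)

theorem ro_19_15 : ∀ β : ℕ, 48 ≤ β → β < 64 → RO 15 6450 β := by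
  intro β h1 h2
  rcases Nat.lt_or_ge β 49 with h2 | h1
  · exact RO_lev (by norm_num) l15_48 β (by omega) (by omega)
  rcases Nat.lt_or_ge β 50 with h2 | h1
  · obtain rfl : β = 49 := by omega
    exact RO_TS (by decide +kernel) (TS_rp (by norm_num) h15_49_0 (TS_rp (by norm_num) h15_49_33 (TS_re (by norm_num) h15_49_65)))
  rcases Nat.lt_or_ge β 51 with h2 | h1
  · obtain rfl : β = 50 := by omega
    exact RO_TS (by decide +kernel) (TS_rp (by norm_num) h15_50_0 (TS_rp (by norm_num) h15_50_68 (TS_rp (by norm_num) h15_50_93 (TS_re (by norm_num) h15_50_121))))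
  rcases Nat.lt_or_ge β 52 with h2 | h1
  · exact RO_lev (by norm_num) l15_51 β (by omega) (by omega)
  rcases Nat.lt_or_ge β 53 with h2 | h1
  · exact RO_lev (by norm_num) l15_52 β (by omega) (by omega)
  rcases Nat.lt_or_ge β 54 with h2 | h1
  · obtain rfl : β = 53 := by omega
    exact RO_TS (by decide +kernel) (TS_rp (by norm_num) h15_53_0 (TS_rp (by norm_num) h15_53_109 (TS_re (by norm_num) h15_53_168)))
  rcases Nat.lt_or_ge β 60 with h2 | h1
  · exact RO_lev (by norm_num) l15_54 β (by omega) (by omega)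
  rcases Nat.lt_or_ge β 61 with h2 | h1
  · exact RO_lev (by norm_num) l15_60 β (by omega) (by omega)
  rcases Nat.lt_or_ge β 62 with h2 | h1
  · obtain rfl : β = 61 := by omega
    exact RO_TS (by decide +kernel) (TS_rp (by norm_num) h15_61_0 (TS_rp (by norm_num) h15_61_75 (TS_re (by norm_num) h15_61_124)))
  exact RO_lev (by norm_num) l15_62 β (by omega) (by omega)

theorem ro_19_18 : ∀ β : ℕ, 48 ≤ β → β < 64 → RO 18 7900 β := by
  intro β h1 h2
  rcases Nat.lt_or_ge β 49 with h2 | h1
  · exact RO_lev (by norm_num) l18_48 β (by omega) (by omega)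
  rcases Nat.lt_or_ge β 50 with h2 | h1
  · exact RO_lev (by norm_num) l18_49 β (by omega) (by omega)
  rcases Nat.lt_or_ge β 51 with h2 | h1
  · exact RO_lev (by norm_num) l18_50 β (by omega) (by omega)
  rcases Nat.lt_or_ge β 52 with h2 | h1
  · exact RO_lev (by norm_num) l18_51 β (by omega) (by omega)
  rcases Nat.lt_or_ge β 53 with h2 | h1
  · exact RO_lev (by norm_num) l18_52 β (by omega) (by omega)
  rcases Nat.lt_or_ge β 54 with h2 | h1
  · obtain rfl : β = 53 := by omega
    exact RO_TS (by decide +kernel) (TS_rp (by norm_num) h18_53_0 (TS_re (by norm_num) h18_53_184))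
  rcases Nat.lt_or_ge β 55 with h2 | h1
  · exact RO_lev (by norm_num) l18_54 β (by omega) (by omega)
  rcases Nat.lt_or_ge β 58 with h2 | h1
  · exact RO_lev (by norm_num) l18_55 β (by omega) (by omega)
  rcases Nat.lt_or_ge β 60 with h2 | h1
  · exact RO_lev (by norm_num) l18_58 β (by omega) (by omega)
  rcases Nat.lt_or_ge β 61 with h2 | h1
  · exact RO_lev (by norm_num) l18_60 β (by omega) (by omega)
  rcases Nat.lt_or_ge β 62 with h2 | h1
  · obtain rfl : β = 61 := by omega
    exact RO_TS (by decide +kernel) (TS_rp (by norm_num) h18_61_0 (TS_re (by norm_num) h18_61_114))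
  rcases Nat.lt_or_ge β 63 with h2 | h1
  · obtain rfl : β = 62 := by omega
    exact RO_TS (by decide +kernel) (TS_rp (by norm_num) h18_62_0 (TS_rp (by norm_num) h18_62_19 (TS_rp (by norm_num) h18_62_47 (TS_rp (by norm_num) h18_62_69 (TS_re (by norm_num) h18_62_173)))))
  exact RO_lev (by norm_num) l18_63 β (by omega) (by omega)

theorem ro_20_15 : ∀ β : ℕ, 64 ≤ β → β < 80 → RO 15 5900 β := by
  intro β h1 h2
  rcases Nat.lt_or_ge β 65 with h2 | h1
  · exact RO_lev (by norm_num) l15_64 β (by omega) (by omega)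
  rcases Nat.lt_or_ge β 66 with h2 | h1
  · obtain rfl : β = 65 := by omega
    exact RO_TS (by decide +kernel) (TS_rp (by norm_num) h15_65_0 (TS_rp (by norm_num) h15_65_52 (TS_re (by norm_num) h15_65_57)))
  rcases Nat.lt_or_ge β 67 with h2 | h1
  · exact RO_lev (by norm_num) l15_66 β (by omega) (by omega)
  rcases Nat.lt_or_ge β 68 with h2 | h1
  · obtain rfl : β = 67 := by omega
    exact RO_TS (by decide +kernel) (TS_rp (by norm_num) h15_67_0 (TS_re (by norm_num) h15_67_116))
  rcases Nat.lt_or_ge β 69 with h2 | h1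
  · exact RO_lev (by norm_num) l15_68 β (by omega) (by omega)
  rcases Nat.lt_or_ge β 74 with h2 | h1
  · exact RO_lev (by norm_num) l15_69 β (by omega) (by omega)
  rcases Nat.lt_or_ge β 77 with h2 | h1
  · exact RO_lev (by norm_num) l15_74 β (by omega) (by omega)
  exact RO_lev (by norm_num) l15_77 β (by omega) (by omega)

theorem ro_20_18 : ∀ β : ℕ, 64 ≤ β → β < 80 → RO 18 6750 β := by
  intro β h1 h2
  rcases Nat.lt_or_ge β 65 with h2 | h1
  · exact RO_lev (by norm_num) l18_64 β (by omega) (by omega)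
  rcases Nat.lt_or_ge β 66 with h2 | h1
  · obtain rfl : β = 65 := by omega
    exact RO_TS (by decide +kernel) (TS_rp (by norm_num) h18_65_0 (TS_rp (by norm_num) h18_65_79 (TS_rp (by norm_num) h18_65_103 (TS_rp (by norm_num) h18_65_107 (TS_rp (by norm_num) h18_65_129 (TS_re (by norm_num) h18_65_149))))))
  rcases Nat.lt_or_ge β 67 with h2 | h1
  · obtain rfl : β = 66 := by omega
    exact RO_TS (by decide +kernel) (TS_rp (by norm_num) h18_66_0 (TS_re (by norm_num) h18_66_92))
  rcases Nat.lt_or_ge β 68 with h2 | h1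
  · obtain rfl : β = 67 := by omega
    exact RO_TS (by decide +kernel) (TS_rp (by norm_num) h18_67_0 (TS_rp (by norm_num) h18_67_125 (TS_re (by norm_num) h18_67_154)))
  rcases Nat.lt_or_ge β 69 with h2 | h1
  · exact RO_lev (by norm_num) l18_68 β (by omega) (by omega)
  rcases Nat.lt_or_ge β 70 with h2 | h1
  · obtain rfl : β = 69 := by omega
    exact RO_TS (by decide +kernel) (TS_rp (by norm_num) h18_69_0 (TS_re (by norm_num) h18_69_159))
  rcases Nat.lt_or_ge β 71 with h2 | h1
  · obtain rfl : β = 70 := by omega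
    exact RO_TS (by decide +kernel) (TS_rp (by norm_num) h18_70_0 (TS_re (by norm_num) h18_70_80))
  rcases Nat.lt_or_ge β 75 with h2 | h1
  · exact RO_lev (by norm_num) l18_71 β (by omega) (by omega)
  rcases Nat.lt_or_ge β 76 with h2 | h1
  · exact RO_lev (by norm_num) l18_75 β (by omega) (by omega)
  rcases Nat.lt_or_ge β 77 with h2 | h1
  · exact RO_lev (by norm_num) l18_76 β (by omega) (by omega)
  rcases Nat.lt_or_ge β 78 with h2 | h1
  · obtain rfl : β = 77 := by omega
    exact RO_TS (by decide +kernel) (TS_rp (by norm_num) h18_77_0 (TS_re (by norm_num) h18_77_101))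
  rcases Nat.lt_or_ge β 79 with h2 | h1
  · obtain rfl : β = 78 := by omega
    exact RO_TS (by decide +kernel) (TS_rp (by norm_num) h18_78_0 (TS_rp (by norm_num) h18_78_64 (TS_rp (by norm_num) h18_78_85 (TS_re (by norm_num) h18_78_122))))
  exact RO_lev (by norm_num) l18_79 β (by omega) (by omega)

theorem ro_21_15 : ∀ β : ℕ, 80 ≤ β → β < 96 → RO 15 5600 β := by
  intro β h1 h2
  rcases Nat.lt_or_ge β 83 with h2 | h1
  · exact RO_lev (by norm_num) l15_80 β (by omega) (by omega)
  rcases Nat.lt_or_ge β 84 with h2 | h1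
  · exact RO_lev (by norm_num) l15_83 β (by omega) (by omega)
  rcases Nat.lt_or_ge β 87 with h2 | h1
  · exact RO_lev (by norm_num) l15_84 β (by omega) (by omega)
  exact RO_lev (by norm_num) l15_87 β (by omega) (by omega)

theorem ro_21_18 : ∀ β : ℕ, 80 ≤ β → β < 96 → RO 18 5750 β := by
  intro β h1 h2
  rcases Nat.lt_or_ge β 81 with h2 | h1
  · exact RO_lev (by norm_num) l18_80 β (by omega) (by omega)
  rcases Nat.lt_or_ge β 82 with h2 | h1
  · obtain rfl : β = 81 := by omega
    exact RO_TS (by decide +kernel) (TS_rp (by norm_num) h18_81_0 (TS_rp (by norm_num) h18_81_98 (TS_re (by norm_num) h18_81_121)))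
  rcases Nat.lt_or_ge β 83 with h2 | h1
  · obtain rfl : β = 82 := by omega
    exact RO_TS (by decide +kernel) (TS_rp (by norm_num) h18_82_0 (TS_re (by norm_num) h18_82_103))
  rcases Nat.lt_or_ge β 84 with h2 | h1
  · obtain rfl : β = 83 := by omega
    exact RO_TS (by decide +kernel) (TS_rp (by norm_num) h18_83_0 (TS_rp (by norm_num) h18_83_62 (TS_re (by norm_num) h18_83_132)))
  rcases Nat.lt_or_ge β 85 with h2 | h1
  · obtain rfl : β = 84 := by omega
    exact RO_TS (by decide +kernel) (TS_rp (by norm_num) h18_84_0 (TS_rp (by norm_num) h18_84_58 (TS_re (by norm_num) h18_84_109)))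
  rcases Nat.lt_or_ge β 86 with h2 | h1
  · exact RO_lev (by norm_num) l18_85 β (by omega) (by omega)
  rcases Nat.lt_or_ge β 87 with h2 | h1
  · obtain rfl : β = 86 := by omega
    exact RO_TS (by decide +kernel) (TS_rp (by norm_num) h18_86_0 (TS_re (by norm_num) h18_86_72))
  rcases Nat.lt_or_ge β 92 with h2 | h1
  · exact RO_lev (by norm_num) l18_87 β (by omega) (by omega)
  rcases Nat.lt_or_ge β 94 with h2 | h1
  · exact RO_lev (by norm_num) l18_92 β (by omega) (by omega)
  rcases Nat.lt_or_ge β 95 with h2 | h1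
  · obtain rfl : β = 94 := by omega
    exact RO_TS (by decide +kernel) (TS_rp (by norm_num) h18_94_0 (TS_rp (by norm_num) h18_94_66 (TS_re (by norm_num) h18_94_132)))
  exact RO_lev (by norm_num) l18_95 β (by omega) (by omega)

theorem ro_22_12 : ∀ β : ℕ, 96 ≤ β → β < 112 → RO 12 5250 β := by
  intro β h1 h2
  exact RO_lev (by norm_num) l12_96 β (by omega) (by omega)

theorem ro_22_15 : ∀ β : ℕ, 96 ≤ β → β < 112 → RO 15 5300 β := by
  intro β h1 h2
  rcases Nat.lt_or_ge β 100 with h2 | h1
  · exact RO_lev (by norm_num) l15_96 β (by omega) (by omega)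
  exact RO_lev (by norm_num) l15_100 β (by omega) (by omega)

end Pool.Agent.SQB
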