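import Pool.Agent.SQB.BC

/-!
Kernel checks, part 89.
-/

set_option autoImplicit false
set_option maxRecDepth 100000

namespace Pool.Agent.SQB

theorem h21_102_70 : rp wlist 21 6500 102 70 23 = true := by decide +kernel

theorem h21_102_93 : re wlist 21 6500 102 93 = true := by decide +kernel

end Pool.Agent.SQB
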