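import Pool.Agent.SQB.BC

/-!
Kernel checks, part 96.
-/

set_option autoImplicit false
set_option maxRecDepth 100000

namespace Pool.Agent.SQB

theorem l18_118 : lev wlist 18 5300 118 7 = true := by decide +kernel

theorem l18_125 : lev wlist 18 5300 125 3 = true := by decide +kernel

theorem l21_112 : lev wlist 21 5700 112 2 = true := by decide +kernel

end Pool.Agent.SQB
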