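import Pool.Agent.SQB.BD
import Pool.Agent.SQB.K80
import Pool.Agent.SQB.K81
import Pool.Agent.SQB.K82
import Pool.Agent.SQB.K83
import Pool.Agent.SQB.K84
import Pool.Agent.SQB.K85
import Pool.Agent.SQB.K86
import Pool.Agent.SQB.K87
import Pool.Agent.SQB.K88
import Pool.Agent.SQB.K89
import Pool.Agent.SQB.K90
import Pool.Agent.SQB.K91
import Pool.Agent.SQB.K92
import Pool.Agent.SQB.K93
import Pool.Agent.SQB.K94
import Pool.Agent.SQB.K95
import Pool.Agent.SQB.K96
import Pool.Agent.SQB.K97
import Pool.Agent.SQB.K98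
import Pool.Agent.SQB.K99
import Pool.Agent.SQB.K100
import Pool.Agent.SQB.K101
import Pool.Agent.SQB.K102
import Pool.Agent.SQB.K103
import Pool.Agent.SQB.K104
import Pool.Agent.SQB.K105
import Pool.Agent.SQB.K106

/-!
The levels of the table, part 1.
-/

set_option autoImplicit false

namespace Pool.Agent.SQB

theorem ro_22_18 : ∀ β : ℕ, 96 ≤ β → β < 112 → RO 18 5600 β := by
  intro β h1 h2
  rcases Nat.lt_or_ge β 98 with h2 | h1
  · exact RO_lev (by norm_num) l18_96 β (by omega) (by omega)
  rcases Nat.lt_or_ge β 99 with h2 | h1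
  · exact RO_lev (by norm_num) l18_98 β (by omega) (by omega)
  rcases Nat.lt_or_ge β 100 with h2 | h1
  · exact RO_lev (by norm_num) l18_99 β (by omega) (by omega)
  rcases Nat.lt_or_ge β 101 with h2 | h1
  · exact RO_lev (by norm_num) l18_100 β (by omega) (by omega)
  rcases Nat.lt_or_ge β 102 with h2 | h1
  · exact RO_lev (by norm_num) l18_101 β (by omega) (by omega)
  rcases Nat.lt_or_ge β 108 with h2 | h1
  · exact RO_lev (by norm_num) l18_102 β (by omega) (by omega)
  exact RO_lev (by norm_num) l18_108 β (by omega) (by omega)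

theorem ro_22_21 : ∀ β : ℕ, 96 ≤ β → β < 112 → RO 21 6500 β := by
  intro β h1 h2
  rcases Nat.lt_or_ge β 97 with h2 | h1
  · exact RO_lev (by norm_num) l21_96 β (by omega) (by omega)
  rcases Nat.lt_or_ge β 98 with h2 | h1
  · obtain rfl : β = 97 := by omega
    exact RO_TS (by decide +kernel) (TS_rp (by norm_num) h21_97_0 (TS_rp (by norm_num) h21_97_88 (TS_rp (by norm_num) h21_97_116 (TS_re (by norm_num) h21_97_143))))
  rcases Nat.lt_or_ge β 99 with h2 | h1
  · obtain rfl : β = 98 := by omega
    exact RO_TS (by decide +kernel) (TS_rp (by norm_num) h21_98_0 (TS_re (by norm_num) h21_98_97))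
  rcases Nat.lt_or_ge β 100 with h2 | h1
  · exact RO_lev (by norm_num) l21_99 β (by omega) (by omega)
  rcases Nat.lt_or_ge β 101 with h2 | h1
  · exact RO_lev (by norm_num) l21_100 β (by omega) (by omega)
  rcases Nat.lt_or_ge β 102 with h2 | h1
  · exact RO_lev (by norm_num) l21_101 β (by omega) (by omega)
  rcases Nat.lt_or_ge β 103 with h2 | h1
  · obtain rfl : β = 102 := by omega
    exact RO_TS (by decide +kernel) (TS_rp (by norm_num) h21_102_0 (TS_rp (by norm_num) h21_102_50 (TS_rp (by norm_num) h21_102_70 (TS_re (by norm_num) h21_102_93))))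
  rcases Nat.lt_or_ge β 104 with h2 | h1
  · obtain rfl : β = 103 := by omega
    exact RO_TS (by decide +kernel) (TS_rp (by norm_num) h21_103_0 (TS_re (by norm_num) h21_103_29))
  rcases Nat.lt_or_ge β 109 with h2 | h1
  · exact RO_lev (by norm_num) l21_104 β (by omega) (by omega)
  rcases Nat.lt_or_ge β 110 with h2 | h1
  · obtain rfl : β = 109 := by omega
    exact RO_TS (by decide +kernel) (TS_rp (by norm_num) h21_109_0 (TS_re (by norm_num) h21_109_11))
  rcases Nat.lt_or_ge β 111 with h2 | h1
  · obtain rfl : β = 110 := by omega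
    exact RO_TS (by decide +kernel) (TS_rp (by norm_num) h21_110_0 (TS_rp (by norm_num) h21_110_72 (TS_re (by norm_num) h21_110_95)))
  exact RO_lev (by norm_num) l21_111 β (by omega) (by omega)

theorem ro_23_15 : ∀ β : ℕ, 112 ≤ β → β < 128 → RO 15 5100 β := by
  intro β h1 h2
  exact RO_lev (by norm_num) l15_112 β (by omega) (by omega)

theorem ro_23_18 : ∀ β : ℕ, 112 ≤ β → β < 128 → RO 18 5300 β := by
  intro β h1 h2
  rcases Nat.lt_or_ge β 115 with h2 | h1
  · exact RO_lev (by norm_num) l18_112 β (by omega) (by omega)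
  rcases Nat.lt_or_ge β 116 with h2 | h1
  · exact RO_lev (by norm_num) l18_115 β (by omega) (by omega)
  rcases Nat.lt_or_ge β 118 with h2 | h1
  · exact RO_lev (by norm_num) l18_116 β (by omega) (by omega)
  rcases Nat.lt_or_ge β 125 with h2 | h1
  · exact RO_lev (by norm_num) l18_118 β (by omega) (by omega)
  exact RO_lev (by norm_num) l18_125 β (by omega) (by omega)

theorem ro_23_21 : ∀ β : ℕ, 112 ≤ β → β < 128 → RO 21 5700 β := by
  intro β h1 h2
  rcases Nat.lt_or_ge β 114 with h2 | h1
  · exact RO_lev (by norm_num) l21_112 β (by omega) (by omega)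
  rcases Nat.lt_or_ge β 115 with h2 | h1
  · exact RO_lev (by norm_num) l21_114 β (by omega) (by omega)
  rcases Nat.lt_or_ge β 116 with h2 | h1
  · exact RO_lev (by norm_num) l21_115 β (by omega) (by omega)
  rcases Nat.lt_or_ge β 118 with h2 | h1
  · exact RO_lev (by norm_num) l21_116 β (by omega) (by omega)
  rcases Nat.lt_or_ge β 123 with h2 | h1
  · exact RO_lev (by norm_num) l21_118 β (by omega) (by omega)
  rcases Nat.lt_or_ge β 126 with h2 | h1
  · exact RO_lev (by norm_num) l21_123 β (by omega) (by omega)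
  exact RO_lev (by norm_num) l21_126 β (by omega) (by omega)

theorem ro_24_18 : ∀ β : ℕ, 128 ≤ β → β < 144 → RO 18 5050 β := by
  intro β h1 h2
  rcases Nat.lt_or_ge β 142 with h2 | h1
  · exact RO_lev (by norm_num) l18_128 β (by omega) (by omega)
  exact RO_lev (by norm_num) l18_142 β (by omega) (by omega)

theorem ro_24_21 : ∀ β : ℕ, 128 ≤ β → β < 144 → RO 21 5300 β := by
  intro β h1 h2
  rcases Nat.lt_or_ge β 131 with h2 | h1
  · exact RO_lev (by norm_num) l21_128 β (by omega) (by omega)
  rcases Nat.lt_or_ge β 132 with h2 | h1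
  · exact RO_lev (by norm_num) l21_131 β (by omega) (by omega)
  rcases Nat.lt_or_ge β 136 with h2 | h1
  · exact RO_lev (by norm_num) l21_132 β (by omega) (by omega)
  exact RO_lev (by norm_num) l21_136 β (by omega) (by omega)

theorem ro_25_18 : ∀ β : ℕ, 144 ≤ β → β < 160 → RO 18 4750 β := by
  intro β h1 h2
  exact RO_lev (by norm_num) l18_144 β (by omega) (by omega)

theorem ro_25_21 : ∀ β : ℕ, 144 ≤ β → β < 160 → RO 21 5200 β := by
  intro β h1 h2
  exact RO_lev (by norm_num) l21_144 β (by omega) (by omega)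

theorem ro_25_24 : ∀ β : ℕ, 144 ≤ β → β < 160 → RO 24 6150 β := by
  intro β h1 h2
  rcases Nat.lt_or_ge β 151 with h2 | h1
  · exact RO_lev (by norm_num) l24_144 β (by omega) (by omega)
  rcases Nat.lt_or_ge β 155 with h2 | h1
  · exact RO_lev (by norm_num) l24_151 β (by omega) (by omega)
  exact RO_lev (by norm_num) l24_155 β (by omega) (by omega)

theorem ro_26_18 : ∀ β : ℕ, 160 ≤ β → β < 176 → RO 18 4750 β := by
  intro β h1 h2
  exact RO_lev (by norm_num) l18_160 β (by omega) (by omega)

theorem ro_26_21 : ∀ β : ℕ, 160 ≤ β → β < 176 → RO 21 5200 β := by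
  intro β h1 h2
  exact RO_lev (by norm_num) l21_160 β (by omega) (by omega)

theorem ro_26_24 : ∀ β : ℕ, 160 ≤ β → β < 176 → RO 24 6150 β := by
  intro β h1 h2
  exact RO_lev (by norm_num) l24_160 β (by omega) (by omega)

theorem ro_27_18 : ∀ β : ℕ, 176 ≤ β → β < 192 → RO 18 4750 β := by
  intro β h1 h2
  exact RO_lev (by norm_num) l18_176 β (by omega) (by omega)

end Pool.Agent.SQB
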