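import Pool.Agent.SQB.BC

/-!
Kernel checks, part 108.
-/

set_option autoImplicit false
set_option maxRecDepth 100000

namespace Pool.Agent.SQB

theorem l27_192 : lev wlist 27 5950 192 16 = true := by decide +kernel

theorem l21_208 : lev wlist 21 4300 208 16 = true := by decide +kernel

theorem l24_208 : lev wlist 24 4750 208 16 = true := by decide +kernel

theorem l27_208 : lev wlist 27 5500 208 16 = true := by decide +kernel

theorem l21_224 : lev wlist 21 4300 224 16 = true := by decide +kernel

end Pool.Agent.SQB
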