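import Pool.Agent.SQB.BC

/-!
Kernel checks, part 109.
-/

set_option autoImplicit false
set_option maxRecDepth 100000

namespace Pool.Agent.SQB

theorem l24_224 : lev wlist 24 4450 224 16 = true := by decide +kernel

theorem l27_224 : lev wlist 27 4500 224 16 = true := by decide +kernel

theorem l24_240 : lev wlist 24 4116 240 16 = true := by decide +kernel

theorem l27_240 : lev wlist 27 4166 240 16 = true := by decide +kernel

theorem l30_240 : lev wlist 30 5116 240 16 = true := by decide +kernel

theorem l24_256 : lev wlist 24 3478 256 16 = true := by decide +kernel

theorem l27_256 : lev wlist 27 3828 256 16 = true := by decide +kernel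

end Pool.Agent.SQB
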