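import Pool.Agent.SQB.BD
import Pool.Agent.SQB.K106
import Pool.Agent.SQB.K107
import Pool.Agent.SQB.K108
import Pool.Agent.SQB.K109

/-!
The levels of the table, part 2.
-/

set_option autoImplicit false

namespace Pool.Agent.SQB

theorem ro_27_21 : ∀ β : ℕ, 176 ≤ β → β < 192 → RO 21 4800 β := by
  intro β h1 h2
  exact RO_lev (by norm_num) l21_176 β (by omega) (by omega)

theorem ro_27_24 : ∀ β : ℕ, 176 ≤ β → β < 192 → RO 24 4950 β := by
  intro β h1 h2
  exact RO_lev (by norm_num) l24_176 β (by omega) (by omega)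

theorem ro_28_21 : ∀ β : ℕ, 192 ≤ β → β < 208 → RO 21 4500 β := by
  intro β h1 h2
  exact RO_lev (by norm_num) l21_192 β (by omega) (by omega)

theorem ro_28_24 : ∀ β : ℕ, 192 ≤ β → β < 208 → RO 24 4800 β := by
  intro β h1 h2
  exact RO_lev (by norm_num) l24_192 β (by omega) (by omega)

theorem ro_28_27 : ∀ β : ℕ, 192 ≤ β → β < 208 → RO 27 5950 β := by
  intro β h1 h2
  exact RO_lev (by norm_num) l27_192 β (by omega) (by omega)

theorem ro_29_21 : ∀ β : ℕ, 208 ≤ β → β < 224 → RO 21 4300 β := by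
  intro β h1 h2
  exact RO_lev (by norm_num) l21_208 β (by omega) (by omega)

theorem ro_29_24 : ∀ β : ℕ, 208 ≤ β → β < 224 → RO 24 4750 β := by
  intro β h1 h2
  exact RO_lev (by norm_num) l24_208 β (by omega) (by omega)

theorem ro_29_27 : ∀ β : ℕ, 208 ≤ β → β < 224 → RO 27 5500 β := by
  intro β h1 h2
  exact RO_lev (by norm_num) l27_208 β (by omega) (by omega)

theorem ro_30_21 : ∀ β : ℕ, 224 ≤ β → β < 240 → RO 21 4300 β := by
  intro β h1 h2
  exact RO_lev (by norm_num) l21_224 β (by omega) (by omega)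

theorem ro_30_24 : ∀ β : ℕ, 224 ≤ β → β < 240 → RO 24 4450 β := by
  intro β h1 h2
  exact RO_lev (by norm_num) l24_224 β (by omega) (by omega)

theorem ro_30_27 : ∀ β : ℕ, 224 ≤ β → β < 240 → RO 27 4500 β := by
  intro β h1 h2
  exact RO_lev (by norm_num) l27_224 β (by omega) (by omega)

theorem ro_31_24 : ∀ β : ℕ, 240 ≤ β → β < 256 → RO 24 4116 β := by
  intro β h1 h2
  exact RO_lev (by norm_num) l24_240 β (by omega) (by omega)

theorem ro_31_27 : ∀ β : ℕ, 240 ≤ β → β < 256 → RO 27 4166 β := by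
  intro β h1 h2
  exact RO_lev (by norm_num) l27_240 β (by omega) (by omega)

theorem ro_31_30 : ∀ β : ℕ, 240 ≤ β → β < 256 → RO 30 5116 β := by
  intro β h1 h2
  exact RO_lev (by norm_num) l30_240 β (by omega) (by omega)

end Pool.Agent.SQB
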