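import Pool.Agent.SQB.BC

/-!
Kernel checks, part 110.
-/

set_option autoImplicit false
set_option maxRecDepth 100000

namespace Pool.Agent.SQB

theorem l30_256 : lev wlist 30 4678 256 16 = true := by decide +kernel

theorem l27_272 : lev wlist 27 3444 272 16 = true := by decide +kernel

theorem l30_272 : lev wlist 30 3544 272 16 = true := by decide +kernel

theorem l27_288 : lev wlist 27 2956 288 16 = true := by decide +kernel

theorem l30_288 : lev wlist 30 3056 288 16 = true := by decide +kernel

theorem l33_288 : lev wlist 33 3806 288 16 = true := by decide +kernel

theorem l27_304 : lev wlist 27 2560 304 16 = true := by decide +kernel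

theorem l30_304 : lev wlist 30 2670 304 16 = true := by decide +kernel

theorem l33_304 : lev wlist 33 3360 304 16 = true := by decide +kernel

theorem l30_320 : lev wlist 30 2284 320 16 = true := by decide +kernel

theorem l33_320 : lev wlist 33 2570 320 16 = true := by decide +kernel

theorem l30_336 : lev wlist 30 2284 336 16 = true := by decide +kernel

theorem l33_336 : lev wlist 33 2434 336 16 = true := by decide +kernel

theorem l30_352 : lev wlist 30 2284 352 16 = true := by decide +kernel

theorem l33_352 : lev wlist 33 2434 352 16 = true := by decide +kernel

theorem l30_368 : lev wlist 30 2284 368 16 = true := by decide +kernel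

theorem l33_368 : lev wlist 33 2434 368 16 = true := by decide +kernel

theorem l30_384 : lev wlist 30 2284 384 16 = true := by decide +kernel

theorem l33_384 : lev wlist 33 2434 384 16 = true := by decide +kernel

theorem l30_400 : lev wlist 30 2284 400 16 = true := by decide +kernel

theorem l33_400 : lev wlist 33 2434 400 16 = true := by decide +kernel

theorem l30_416 : lev wlist 30 2284 416 16 = true := by decide +kernel

theorem l33_416 : lev wlist 33 2434 416 16 = true := by decide +kernel

theorem l30_432 : lev wlist 30 2284 432 16 = true := by decide +kernel

theorem l33_432 : lev wlist 33 2434 432 16 = true := by decide +kernel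

end Pool.Agent.SQB
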