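import Pool.Agent.SQB.BD
import Pool.Agent.SQB.K109
import Pool.Agent.SQB.K110

/-!
The levels of the table, part 3.
-/

set_option autoImplicit false

namespace Pool.Agent.SQB

theorem ro_32_24 : ∀ β : ℕ, 256 ≤ β → β < 272 → RO 24 3478 β := by
  intro β h1 h2
  exact RO_lev (by norm_num) l24_256 β (by omega) (by omega)

theorem ro_32_27 : ∀ β : ℕ, 256 ≤ β → β < 272 → RO 27 3828 β := by
  intro β h1 h2
  exact RO_lev (by norm_num) l27_256 β (by omega) (by omega)

theorem ro_32_30 : ∀ β : ℕ, 256 ≤ β → β < 272 → RO 30 4678 β := by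
  intro β h1 h2
  exact RO_lev (by norm_num) l30_256 β (by omega) (by omega)

theorem ro_33_27 : ∀ β : ℕ, 272 ≤ β → β < 288 → RO 27 3444 β := by
  intro β h1 h2
  exact RO_lev (by norm_num) l27_272 β (by omega) (by omega)

theorem ro_33_30 : ∀ β : ℕ, 272 ≤ β → β < 288 → RO 30 3544 β := by
  intro β h1 h2
  exact RO_lev (by norm_num) l30_272 β (by omega) (by omega)

theorem ro_34_27 : ∀ β : ℕ, 288 ≤ β → β < 304 → RO 27 2956 β := by
  intro β h1 h2
  exact RO_lev (by norm_num) l27_288 β (by omega) (by omega)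

theorem ro_34_30 : ∀ β : ℕ, 288 ≤ β → β < 304 → RO 30 3056 β := by
  intro β h1 h2
  exact RO_lev (by norm_num) l30_288 β (by omega) (by omega)

theorem ro_34_33 : ∀ β : ℕ, 288 ≤ β → β < 304 → RO 33 3806 β := by
  intro β h1 h2
  exact RO_lev (by norm_num) l33_288 β (by omega) (by omega)

theorem ro_35_27 : ∀ β : ℕ, 304 ≤ β → β < 320 → RO 27 2560 β := by
  intro β h1 h2
  exact RO_lev (by norm_num) l27_304 β (by omega) (by omega)

theorem ro_35_30 : ∀ β : ℕ, 304 ≤ β → β < 320 → RO 30 2670 β := by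
  intro β h1 h2
  exact RO_lev (by norm_num) l30_304 β (by omega) (by omega)

theorem ro_35_33 : ∀ β : ℕ, 304 ≤ β → β < 320 → RO 33 3360 β := by
  intro β h1 h2
  exact RO_lev (by norm_num) l33_304 β (by omega) (by omega)

theorem ro_36_30 : ∀ β : ℕ, 320 ≤ β → β < 336 → RO 30 2284 β := by
  intro β h1 h2
  exact RO_lev (by norm_num) l30_320 β (by omega) (by omega)

theorem ro_36_33 : ∀ β : ℕ, 320 ≤ β → β < 336 → RO 33 2570 β := by
  intro β h1 h2
  exact RO_lev (by norm_num) l33_320 β (by omega) (by omega)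

theorem ro_37_30 : ∀ β : ℕ, 336 ≤ β → β < 352 → RO 30 2284 β := by
  intro β h1 h2
  exact RO_lev (by norm_num) l30_336 β (by omega) (by omega)

end Pool.Agent.SQB
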