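import Pool.Agent.SQB.BD
import Pool.Agent.SQB.K110

/-!
The levels of the table, part 4.
-/

set_option autoImplicit false

namespace Pool.Agent.SQB

theorem ro_37_33 : ∀ β : ℕ, 336 ≤ β → β < 352 → RO 33 2434 β := by
  intro β h1 h2
  exact RO_lev (by norm_num) l33_336 β (by omega) (by omega)

theorem ro_38_30 : ∀ β : ℕ, 352 ≤ β → β < 368 → RO 30 2284 β := by
  intro β h1 h2
  exact RO_lev (by norm_num) l30_352 β (by omega) (by omega)

theorem ro_38_33 : ∀ β : ℕ, 352 ≤ β → β < 368 → RO 33 2434 β := by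
  intro β h1 h2
  exact RO_lev (by norm_num) l33_352 β (by omega) (by omega)

theorem ro_39_30 : ∀ β : ℕ, 368 ≤ β → β < 384 → RO 30 2284 β := by
  intro β h1 h2
  exact RO_lev (by norm_num) l30_368 β (by omega) (by omega)

theorem ro_39_33 : ∀ β : ℕ, 368 ≤ β → β < 384 → RO 33 2434 β := by
  intro β h1 h2
  exact RO_lev (by norm_num) l33_368 β (by omega) (by omega)

theorem ro_40_30 : ∀ β : ℕ, 384 ≤ β → β < 400 → RO 30 2284 β := by
  intro β h1 h2
  exact RO_lev (by norm_num) l30_384 β (by omega) (by omega)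

theorem ro_40_33 : ∀ β : ℕ, 384 ≤ β → β < 400 → RO 33 2434 β := by
  intro β h1 h2
  exact RO_lev (by norm_num) l33_384 β (by omega) (by omega)

theorem ro_41_30 : ∀ β : ℕ, 400 ≤ β → β < 416 → RO 30 2284 β := by
  intro β h1 h2
  exact RO_lev (by norm_num) l30_400 β (by omega) (by omega)

theorem ro_41_33 : ∀ β : ℕ, 400 ≤ β → β < 416 → RO 33 2434 β := by
  intro β h1 h2
  exact RO_lev (by norm_num) l33_400 β (by omega) (by omega)

theorem ro_42_30 : ∀ β : ℕ, 416 ≤ β → β < 432 → RO 30 2284 β := by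
  intro β h1 h2
  exact RO_lev (by norm_num) l30_416 β (by omega) (by omega)

theorem ro_42_33 : ∀ β : ℕ, 416 ≤ β → β < 432 → RO 33 2434 β := by
  intro β h1 h2
  exact RO_lev (by norm_num) l33_416 β (by omega) (by omega)

theorem ro_43_30 : ∀ β : ℕ, 432 ≤ β → β < 448 → RO 30 2284 β := by
  intro β h1 h2
  exact RO_lev (by norm_num) l30_432 β (by omega) (by omega)

theorem ro_43_33 : ∀ β : ℕ, 432 ≤ β → β < 448 → RO 33 2434 β := by
  intro β h1 h2
  exact RO_lev (by norm_num) l33_432 β (by omega) (by omega)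

end Pool.Agent.SQB
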