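import Mathlib
import Pool.Agent.SQF4.Tab
import Pool.Agent.SQF4.BTab
import Pool.Agent.SQB.M0
import Pool.Agent.SQB.M1
import Pool.Agent.SQB.M2
import Pool.Agent.SQB.M3
import Pool.Agent.SQB.M4

/-!
The table B(q, t) for cliques of class events: `HB`.
-/

set_option autoImplicit false

namespace Pool.Agent.SQB

open Pool.Agent.SQF4

/-- the verified levels: (q, t, budget) -/
def LV : List (ℕ × ℕ × ℕ) := [
  (16, 12, 7900), (16, 15, 9850), (17, 12, 7300), (17, 15, 8500), (18, 12, 6750), (18, 15, 7400),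
  (19, 15, 6450), (19, 18, 7900), (20, 15, 5900), (20, 18, 6750), (21, 15, 5600), (21, 18, 5750),
  (22, 12, 5250), (22, 15, 5300), (22, 18, 5600), (22, 21, 6500), (23, 15, 5100), (23, 18, 5300),
  (23, 21, 5700), (24, 18, 5050), (24, 21, 5300), (25, 18, 4750), (25, 21, 5200), (25, 24, 6150),
  (26, 18, 4750), (26, 21, 5200), (26, 24, 6150), (27, 18, 4750), (27, 21, 4800), (27, 24, 4950),
  (28, 21, 4500), (28, 24, 4800), (28, 27, 5950), (29, 21, 4300), (29, 24, 4750), (29, 27, 5500),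
  (30, 21, 4300), (30, 24, 4450), (30, 27, 4500), (31, 24, 4116), (31, 27, 4166), (31, 30, 5116),
  (32, 24, 3478), (32, 27, 3828), (32, 30, 4678), (33, 27, 3444), (33, 30, 3544), (34, 27, 2956),
  (34, 30, 3056), (34, 33, 3806), (35, 27, 2560), (35, 30, 2670), (35, 33, 3360), (36, 30, 2284),
  (36, 33, 2570), (37, 30, 2284), (37, 33, 2434), (38, 30, 2284), (38, 33, 2434), (39, 30, 2284),
  (39, 33, 2434), (40, 30, 2284), (40, 33, 2434), (41, 30, 2284), (41, 33, 2434), (42, 30, 2284),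
  (42, 33, 2434), (43, 30, 2284), (43, 33, 2434)]

theorem LV_ok : ∀ e ∈ LV, ∀ β : ℕ, 16 * (e.1 - 16) ≤ β → β < 16 * (e.1 - 16) + 16 → RO e.2.1 e.2.2 β := by
  unfold LV
  refine List.forall_mem_cons.2 ⟨ro_16_12, List.forall_mem_cons.2 ⟨ro_16_15, List.forall_mem_cons.2 ⟨ro_17_12, List.forall_mem_cons.2 ⟨ro_17_15, List.forall_mem_cons.2 ⟨ro_18_12, List.forall_mem_cons.2 ⟨ro_18_15, List.forall_mem_cons.2 ⟨ro_19_15, List.forall_mem_cons.2 ⟨ro_19_18, List.forall_mem_cons.2 ⟨ro_20_15, List.forall_mem_cons.2 ⟨ro_20_18, List.forall_mem_cons.2 ⟨ro_21_15, List.forall_mem_cons.2 ⟨ro_21_18, List.forall_mem_cons.2 ⟨ro_22_12, List.forall_mem_cons.2 ⟨ro_22_15, List.forall_mem_cons.2 ⟨ro_22_18, List.forall_mem_cons.2 ⟨ro_22_21, List.forall_mem_cons.2 ⟨ro_23_15, List.forall_mem_cons.2 ⟨ro_23_18, List.forall_mem_cons.2 ⟨ro_23_21, List.forall_mem_cons.2 ⟨ro_24_18, List.forall_mem_cons.2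 ⟨ro_24_21, List.forall_mem_cons.2 ⟨ro_25_18, List.forall_mem_cons.2 ⟨ro_25_21, List.forall_mem_cons.2 ⟨ro_25_24, List.forall_mem_cons.2 ⟨ro_26_18, List.forall_mem_cons.2 ⟨ro_26_21, List.forall_mem_cons.2 ⟨ro_26_24, List.forall_mem_cons.2 ⟨ro_27_18, List.forall_mem_cons.2 ⟨ro_27_21, List.forall_mem_cons.2 ⟨ro_27_24, List.forall_mem_cons.2 ⟨ro_28_21, List.forall_mem_cons.2 ⟨ro_28_24, List.forall_mem_cons.2 ⟨ro_28_27, List.forall_mem_cons.2 ⟨ro_29_21, List.forall_mem_cons.2 ⟨ro_29_24, List.forall_mem_cons.2 ⟨ro_29_27, List.forall_mem_cons.2 ⟨ro_30_21, List.forall_mem_cons.2 ⟨ro_30_24, List.forall_mem_cons.2 ⟨ro_30_27, List.forall_mem_cons.2 ⟨ro_31_24, List.forall_mem_cons.2 ⟨ro_31_27, List.forall_mem_cons.2 ⟨ro_31_30, List.forall_mem_cons.2 ⟨ro_32_24, List.forall_mem_cons.2 ⟨ro_32_27, List.forall_mem_cons.2 ⟨ro_32_30, List.forall_mem_cons.2 ⟨ro_33_27, List.forall_mem_cons.2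 ⟨ro_33_30, List.forall_mem_cons.2 ⟨ro_34_27, List.forall_mem_cons.2 ⟨ro_34_30, List.forall_mem_cons.2 ⟨ro_34_33, List.forall_mem_cons.2 ⟨ro_35_27, List.forall_mem_cons.2 ⟨ro_35_30, List.forall_mem_cons.2 ⟨ro_35_33, List.forall_mem_cons.2 ⟨ro_36_30, List.forall_mem_cons.2 ⟨ro_36_33, List.forall_mem_cons.2 ⟨ro_37_30, List.forall_mem_cons.2 ⟨ro_37_33, List.forall_mem_cons.2 ⟨ro_38_30, List.forall_mem_cons.2 ⟨ro_38_33, List.forall_mem_cons.2 ⟨ro_39_30, List.forall_mem_cons.2 ⟨ro_39_33, List.forall_mem_cons.2 ⟨ro_40_30, List.forall_mem_cons.2 ⟨ro_40_33, List.forall_mem_cons.2 ⟨ro_41_30, List.forall_mem_cons.2 ⟨ro_41_33, List.forall_mem_cons.2 ⟨ro_42_30, List.forall_mem_cons.2 ⟨ro_42_33, List.forall_mem_cons.2 ⟨ro_43_30, List.forall_mem_cons.2 ⟨ro_43_33, fun _ h => absurd h List.not_mem_nil⟩⟩⟩⟩⟩⟩⟩⟩⟩⟩⟩⟩⟩⟩⟩⟩⟩⟩⟩⟩⟩⟩⟩⟩⟩⟩⟩⟩⟩⟩⟩⟩⟩⟩⟩⟩⟩⟩⟩⟩⟩⟩⟩⟩⟩⟩⟩⟩⟩⟩⟩⟩⟩⟩⟩⟩⟩⟩⟩⟩⟩⟩⟩⟩⟩⟩⟩⟩⟩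

theorem cov1 : ∀ q : ℕ, q < 44 → ∀ t : ℕ, t < 34 → Sb q t = true →
    LV.any (fun e => Nat.beq e.1 q && (Nat.ble t e.2.1 && Nat.ble e.2.2 (Bt q t))) = true := by
  decide +kernel

theorem cov2 : ∀ q : ℕ, q < 43 → ∀ t : ℕ, t < 34 → Sb q t = true → Bt (q + 1) t ≤ Bt q t ∧ Sb (q + 1) t = true := by
  decide +kernel

theorem Sb_le {q t : ℕ} (hq : q ≤ 43) (h : Sb q t = true) : 16 ≤ q ∧ t ≤ 33 ∧ t < q := by
  unfold Sb at h
  rw [Bool.or_eq_true, Bool.and_eq_true, Bool.and_eq_true] at h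
  rcases h with h | ⟨h1, h2, h3⟩
  · have := Nat.le_of_ble_eq_true h
    omega
  · have a1 := Nat.le_of_ble_eq_true h1
    have a2 := Nat.le_of_ble_eq_true h2
    have a3 := Nat.le_of_ble_eq_true h3
    unfold tI at a3
    omega

theorem cov3 (q t : ℕ) (h : Sb q t = true) (n : ℕ) (hn : q + n ≤ 43) :
    Bt (q + n) t ≤ Bt q t ∧ Sb (q + n) t = true := by
  induction n with
  | zero => exact ⟨le_refl _, h⟩
  | succ n ih =>
    obtain ⟨h1, h2⟩ := ih (by omega)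
    obtain ⟨h3, h4⟩ := cov2 (q + n) (by omega) t (by have := Sb_le (by omega) h; omega) h2
    exact ⟨le_trans h3 h1, h4⟩

theorem RO_tab {q t : ℕ} (hq : q ≤ 43) (h : Sb q t = true) (β : ℕ) (h1 : q ≤ 16 + β / 16) (h2 : β < 448) :
    RO t (Bt q t) β := by
  obtain ⟨n, hn⟩ : ∃ n, 16 + β / 16 = q + n := ⟨16 + β / 16 - q, by omega⟩
  have h3 : q + n ≤ 43 := by omega
  obtain ⟨h4, h5⟩ := cov3 q t h n h3
  have h6 := cov1 (q + n) (by omega) t (by have := Sb_le hq h; omega) h5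
  rw [List.any_eq_true] at h6
  obtain ⟨e, he, h7⟩ := h6
  rw [Bool.and_eq_true, Bool.and_eq_true] at h7
  obtain ⟨h8, h9, h10⟩ := h7
  have b1 := Nat.eq_of_beq_eq_true h8
  have b2 := Nat.le_of_ble_eq_true h9
  have b3 := Nat.le_of_ble_eq_true h10
  exact RO_mono b2 (le_trans b3 h4) (LV_ok e he β (by omega) (by omega))

theorem aw_wl : ∀ b : ℕ, b < 28 → nth wlist b = aw (16 + b) := by decide +kernel

/-- the table for sets of class events with pairwise different (P, τ), |z - z'| < t and no conflict -/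
theorem HB {q t : ℕ} (hq : q ≤ 43) (h : Sb q t = true) (E : Finset (ℕ × ℤ))
    (h1 : ∀ x ∈ E, x.1 < 448 ∧ q ≤ cP x.1)
    (h2 : ∀ x ∈ E, ∀ y ∈ E, x ≠ y → x.1 / 8 ≠ y.1 / 8 ∧ |x.2 - y.2| < t ∧
      (row x.1).testBit (80 * y.1 + (y.2 - x.2 + 40).toNat) = false) :
    ∑ x ∈ E, aw (cP x.1) ≤ Bt q t := by
  rcases E.eq_empty_or_nonempty with rfl | hne
  · rw [Finset.sum_empty]
    exact Nat.zero_le _
  obtain ⟨x0, hx0, hmin⟩ := Finset.exists_min_image E (fun x => x.1) hne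
  obtain ⟨_, ht, _⟩ := Sb_le hq h
  obtain ⟨f, hf⟩ : ∃ f : ℕ × ℤ → ℕ, ∀ x, f x = 80 * x.1 + (x.2 - x0.2 + 40).toNat := ⟨_, fun _ => rfl⟩
  have hd : ∀ x ∈ E, |x.2 - x0.2| < t ∨ x = x0 := by
    intro x hx
    by_cases hxx : x = x0
    · exact Or.inr hxx
    · exact Or.inl (h2 x hx x0 hx0 hxx).2.1
  have hr : ∀ x ∈ E, ∃ i : ℕ, i < 80 ∧ (i : ℤ) = x.2 - x0.2 + 40 ∧ f x = 80 * x.1 + i ∧ f x / 80 = x.1 ∧
      f x % 80 = i := by
    intro x hx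
    have h3 : -33 < x.2 - x0.2 + 1 ∧ x.2 - x0.2 < 34 := by
      rcases hd x hx with h4 | rfl
      · rw [abs_lt] at h4
        omega
      · omega
    refine ⟨(x.2 - x0.2 + 40).toNat, by omega, by omega, hf x, ?_, ?_⟩
    · rw [hf x]
      omega
    · rw [hf x]
      omega
  have hinj : Set.InjOn f (E : Set (ℕ × ℤ)) := by
    intro x hx y hy hxy
    by_contra hne
    obtain ⟨i, _, _, _, i4, _⟩ := hr x hx
    obtain ⟨j, _, _, _, j4, _⟩ := hr y hy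
    apply (h2 x hx y hy hne).1
    rw [← i4, ← j4, hxy]
  have hsum : ∑ x ∈ E, aw (cP x.1) = ∑ v ∈ E.image f, wt wlist v := by
    rw [Finset.sum_image hinj]
    apply Finset.sum_congr rfl
    intro x hx
    obtain ⟨i, _, _, _, i4, _⟩ := hr x hx
    unfold wt
    have h5 := (h1 x hx).1
    rw [i4, aw_wl (x.1 / 16) (by omega)]
    rfl
  rw [hsum]
  have hroot : 80 * x0.1 + 40 = f x0 := by
    rw [hf]
    simp
  have hP : q ≤ 16 + x0.1 / 16 := (h1 x0 hx0).2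
  refine RO_tab hq h x0.1 hP (h1 x0 hx0).1 (E.image f) ?_ ?_ ?_
  · intro u hu v hv huv
    rw [Finset.mem_image] at hu hv
    obtain ⟨x, hx, rfl⟩ := hu
    obtain ⟨y, hy, rfl⟩ := hv
    have hxy : x ≠ y := fun h => huv (by rw [h])
    have key : ∀ x ∈ E, ∀ y ∈ E, x ≠ y → ¬ Cj t (f x) (f y) := by
      intro x hx y hy hxy
      obtain ⟨i, i1, i2, i3, i4, i5⟩ := hr x hx
      obtain ⟨j, j1, j2, j3, j4, j5⟩ := hr y hy
      obtain ⟨c1, c2, c3⟩ := h2 x hx y hy hxy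
      rw [abs_lt] at c2
      unfold Cj
      rw [i4, i5, j4, j5]
      rintro (h6 | h6 | h6 | h6)
      · apply c1
        rw [h6]
      · omega
      · omega
      · have e : j + 40 - i = (y.2 - x.2 + 40).toNat := by omega
        rw [e, c3] at h6
        exact absurd h6 (by simp)
    rintro (h6 | h6)
    · exact key x hx y hy hxy h6
    · exact key y hy x hx hxy.symm h6
  · rw [hroot]
    exact Finset.mem_image_of_mem f hx0
  · intro v hv hne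
    rw [Finset.mem_image] at hv
    obtain ⟨x, hx, rfl⟩ := hv
    have hxx : x ≠ x0 := fun h => hne (by rw [h, hroot])
    obtain ⟨i, i1, i2, i3, i4, i5⟩ := hr x hx
    obtain ⟨c1, c2, _⟩ := h2 x hx x0 hx0 hxx
    rw [abs_lt] at c2
    have c4 := hmin x hx
    have c5 : x0.1 ≤ x.1 := c4
    have c6 : x0.1 ≠ x.1 := fun h => c1 (by rw [h])
    rw [i4, i5]
    exact ⟨by omega, (h1 x hx).1, by omega, by omega⟩

end Pool.Agent.SQB
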