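import Mathlib.Data.Nat.Notation

/-!
Universal bound for the number of pairs with large half-length P ≥ q whose centres lie in a block of length t.
Class-level events: (P, τ, k), 16 ≤ P ≤ 43, k < 8: the break b lies in [k P / 8, (k+1) P / 8 - 1].
index β = ((P - 16) * 2 + τ) * 8 + k. The bit 80 β' + (δ + 40) of the row β says: an event of the class β with centre c
and an event of the class β' with centre c + δ exclude each other.
-/

set_option autoImplicit false

namespace Pool.Agent.SQB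

/-- the mask of the interval [lo, hi] -/
def im (lo hi : ℕ) : ℕ := bif Nat.ble lo hi then 2 ^ (hi + 1) - 2 ^ lo else 0

/-- cores: shift s on [a, b) and shift s' on [a', b'), second one moved by δ; the mask of the δ + 128 which give a square -/
def cm (s a b s' a' b' : ℕ) : ℕ :=
  bif Nat.beq s s' then im (128 + a - b') (128 + b - (a' + s)) ||| im (128 + a + s - b') (128 + b - a')
  else bif Nat.ble (a + ((s - s') + (s' - s))) b && Nat.ble (a' + ((s - s') + (s' - s))) b' then
    im (128 + ((s - s') + (s' - s)) + a - b') (128 + b - (a' + ((s - s') + (s' - s)))) |||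
    im (128 + ((s - s') + (s' - s)) + (a + s) - (b' + s')) (128 + (b + s) - (a' + s' + ((s - s') + (s' - s))))
  else 0

/-- first core of the class (τ, P, k): shift, start, end; the centre is at 64 -/
def s1 (τ : Bool) (P : ℕ) : ℕ := bif τ then P else P - 1
def s2 (τ : Bool) (P : ℕ) : ℕ := bif τ then P - 1 else P
def e1 (P k : ℕ) : ℕ := 65 - P + k * P / 8
def b2 (τ : Bool) (P k : ℕ) : ℕ := bif τ then 66 - P + ((k + 1) * P / 8 - 1) else 65 - P + ((k + 1) * P / 8 - 1)
def e2 (τ : Bool) : ℕ := bif τ then 65 else 64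

/-- the mask of δ + 128 for two classes of different (τ, P) -/
def cc (τ : Bool) (P k : ℕ) (τ' : Bool) (P' k' : ℕ) : ℕ :=
  cm (s1 τ P) (65 - P) (e1 P k) (s1 τ' P') (65 - P') (e1 P' k') |||
  cm (s1 τ P) (65 - P) (e1 P k) (s2 τ' P') (b2 τ' P' k') (e2 τ') |||
  cm (s2 τ P) (b2 τ P k) (e2 τ) (s1 τ' P') (65 - P') (e1 P' k') |||
  cm (s2 τ P) (b2 τ P k) (e2 τ) (s2 τ' P') (b2 τ' P' k') (e2 τ')

/-- block mask: 80 bits, bit δ + 40 -/
def bm (τ : Bool) (P k : ℕ) (τ' : Bool) (P' k' : ℕ) : ℕ :=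
  ((bif Nat.beq P P' && (τ == τ') then im (128 - (P - 2)) (128 + (P - 2)) else cc τ P k τ' P' k') >>> 88) % 2 ^ 80

def cP (β : ℕ) : ℕ := 16 + β / 16
def cT (β : ℕ) : Bool := Nat.beq (β / 8 % 2) 1
def cK (β : ℕ) : ℕ := β % 8

def rowF (β : ℕ) : ℕ → ℕ
  | 0 => 0
  | n + 1 => rowF β n ||| (bm (cT β) (cP β) (cK β) (cT n) (cP n) (cK n)) <<< (80 * n)

end Pool.Agent.SQB
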