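import Mathlib
import Pool.Agent.SQB.Def
import Pool.Agent.SQF4.Ev

/-!
Soundness of the conflict masks. Relative coordinates: the centre c is at 64, position i is at i - c + 64.
cm_sound: shift s on [a, b), shift s' on [a', b') moved by δ. Different shifts, D = |s - s'|: if the bit δ + 128 is set, the left
copies or the right copies have a common interval of length D, this gives a square of half-length D. Same shift: the union of the
two intervals is an interval of length ≥ s.
-/

set_option autoImplicit false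

namespace Pool.Agent.SQB

open Pool.Agent.SQF Pool.Agent.SQF4

theorem im_bit (lo hi k : ℕ) : (im lo hi).testBit k = true ↔ lo ≤ k ∧ k ≤ hi := by
  unfold im
  cases h : Nat.ble lo hi with
  | false =>
    have h2 : ¬ lo ≤ hi := by
      intro h3
      rw [Nat.ble_eq_true_of_le h3] at h
      exact absurd h (by simp)
    rw [cond_false, Nat.zero_testBit]
    simp
    omega
  | true =>
    have h2 := Nat.le_of_ble_eq_true h
    rw [cond_true]
    have e : 2 ^ (hi + 1) - 2 ^ lo = 2 ^ lo * (2 ^ (hi + 1 - lo) - 1) := by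
      rw [Nat.mul_sub, mul_one, ← pow_add]
      congr 2
      omega
    rw [e, Nat.testBit_two_pow_mul, Nat.testBit_two_pow_sub_one, Bool.and_eq_true, decide_eq_true_eq,
      decide_eq_true_eq]
    omega

private theorem run_sq {γ : Type*} {W : ℤ → γ} (hW : Sqf W) (m : ℤ) (s : ℕ) (hs : 0 < s)
    (h : ∀ i : ℤ, m ≤ i → i < m + s → W i = W (i + s)) : False := by
  obtain ⟨j, hj, hne⟩ := hW m s hs
  exact hne (h (m + j) (by omega) (by omega))

theorem cm_sound {γ : Type*} {W : ℤ → γ} (hW : Sqf W) {s a b s' a' b' : ℕ} (h1 : 12 ≤ s) (h2 : s ≤ 43)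
    (h3 : 12 ≤ s') (h4 : s' ≤ 43) (ha : a ≤ 66) (hb : b ≤ 65) (ha' : a' ≤ 66) (hb' : b' ≤ 65) (c δ : ℤ)
    (hm : ∀ i : ℤ, c - 64 + a ≤ i → i < c - 64 + b → W i = W (i + s))
    (hm' : ∀ i : ℤ, c + δ - 64 + a' ≤ i → i < c + δ - 64 + b' → W i = W (i + s'))
    (k : ℕ) (hk : (k : ℤ) = δ + 128) : (cm s a b s' a' b').testBit k = false := by
  rw [← Bool.not_eq_true]
  intro hbit
  unfold cm at hbit
  by_cases hss : s = s'
  · subst hss
    rw [Nat.beq_refl, cond_true, Nat.testBit_or, Bool.or_eq_true, im_bit, im_bit] at hbit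
    rcases hbit with ⟨c1, c2⟩ | ⟨c1, c2⟩
    · apply run_sq hW (c + δ - 64 + a') s (by omega)
      intro i i1 i2
      by_cases h5 : c - 64 + a ≤ i
      · exact hm i h5 (by omega)
      · exact hm' i i1 (by omega)
    · apply run_sq hW (c - 64 + a) s (by omega)
      intro i i1 i2
      by_cases h5 : i < c - 64 + b
      · exact hm i i1 h5
      · exact hm' i (by omega) (by omega)
  · have e0 : Nat.beq s s' = false := by
      rw [← Bool.not_eq_true]
      intro h5
      exact hss (Nat.eq_of_beq_eq_true h5)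
    rw [e0, cond_false] at hbit
    obtain ⟨D, hD⟩ : ∃ D, D = (s - s') + (s' - s) := ⟨_, rfl⟩
    rw [← hD] at hbit
    cases hg : (Nat.ble (a + D) b && Nat.ble (a' + D) b') with
    | false =>
      rw [hg, cond_false, Nat.zero_testBit] at hbit
      exact absurd hbit (by simp)
    | true =>
      rw [hg, cond_true, Nat.testBit_or, Bool.or_eq_true, im_bit, im_bit] at hbit
      rw [Bool.and_eq_true] at hg
      have g1 := Nat.le_of_ble_eq_true hg.1
      have g2 := Nat.le_of_ble_eq_true hg.2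
      rcases hbit with ⟨c1, c2⟩ | ⟨c1, c2⟩
      · -- common left copies
        obtain ⟨m, hm1, hm2, hm3⟩ : ∃ m : ℤ, c - 64 + a ≤ m ∧ c + δ - 64 + a' ≤ m ∧
            m + D ≤ c - 64 + b ∧ m + D ≤ c + δ - 64 + b' := by
          rcases le_total (c - 64 + (a : ℤ)) (c + δ - 64 + a') with h5 | h5
          · exact ⟨c + δ - 64 + a', h5, le_refl _, by omega, by omega⟩
          · exact ⟨c - 64 + a, le_refl _, h5, by omega, by omega⟩
        rcases Nat.lt_or_ge s s' with h5 | h5
        · apply run_sq hW (m + s) D (by omega)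
          intro i i1 i2
          have e1 := hm (i - s) (by omega) (by omega)
          have e2 := hm' (i - s) (by omega) (by omega)
          have e3 : i - s + s = i := by ring
          have e4 : i - s + s' = i + D := by omega
          rw [e3] at e1
          rw [e4] at e2
          rw [← e1, e2]
        · apply run_sq hW (m + s') D (by omega)
          intro i i1 i2
          have e1 := hm (i - s') (by omega) (by omega)
          have e2 := hm' (i - s') (by omega) (by omega)
          have e3 : i - s' + s' = i := by ring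
          have e4 : i - s' + s = i + D := by omega
          rw [e4] at e1
          rw [e3] at e2
          rw [← e2, e1]
      · -- common right copies
        obtain ⟨m, hm1, hm2, hm3⟩ : ∃ m : ℤ, c - 64 + a + s ≤ m ∧ c + δ - 64 + a' + s' ≤ m ∧
            m + D ≤ c - 64 + b + s ∧ m + D ≤ c + δ - 64 + b' + s' := by
          rcases le_total (c - 64 + (a : ℤ) + s) (c + δ - 64 + a' + s') with h5 | h5
          · exact ⟨c + δ - 64 + a' + s', h5, le_refl _, by omega, by omega⟩
          · exact ⟨c - 64 + a + s, le_refl _, h5, by omega, by omega⟩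
        rcases Nat.lt_or_ge s s' with h5 | h5
        · apply run_sq hW (m - s') D (by omega)
          intro i i1 i2
          have e1 := hm (i + D) (by omega) (by omega)
          have e2 := hm' i (by omega) (by omega)
          have e3 : i + D + s = i + s' := by omega
          rw [e3] at e1
          rw [e2, e1]
        · apply run_sq hW (m - s) D (by omega)
          intro i i1 i2
          have e1 := hm i (by omega) (by omega)
          have e2 := hm' (i + D) (by omega) (by omega)
          have e3 : i + D + s' = i + s := by omega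
          rw [e3] at e2
          rw [e1, e2]

/-- the class of the break of the event (τ, P, c, g) -/
def kl (τ : Bool) (P : ℕ) (c g : ℤ) : ℕ :=
  (8 * (bif τ then (g - c - 1).toNat else (g - (c - P + 1)).toNat) + 7) / P

private theorem kl_arith {P b : ℕ} (hP : 0 < P) (hb : b + 1 ≤ P) :
    (8 * b + 7) / P < 8 ∧ ((8 * b + 7) / P) * P / 8 ≤ b ∧ b + 1 ≤ ((8 * b + 7) / P + 1) * P / 8 ∧
      ((8 * b + 7) / P + 1) * P / 8 ≤ P := by
  obtain ⟨k, hk⟩ : ∃ k, k = (8 * b + 7) / P := ⟨_, rfl⟩
  have h1 := Nat.div_add_mod (8 * b + 7) P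
  have h2 := Nat.mod_lt (8 * b + 7) hP
  rw [← hk] at h1 ⊢
  have hk8 : k < 8 := by
    rw [hk, Nat.div_lt_iff_lt_mul hP]
    omega
  obtain ⟨X, hX⟩ : ∃ X, X = k * P := ⟨_, rfl⟩
  have e1 : P * k = X := by rw [hX, mul_comm]
  have e2 : (k + 1) * P = X + P := by rw [hX]; ring
  have e3 : X + P ≤ 8 * P := by
    rw [← e2]
    exact Nat.mul_le_mul_right P hk8
  rw [e2, ← hX]
  rw [e1] at h1
  refine ⟨hk8, ?_, ?_, ?_⟩ <;> omega

private theorem cores {γ : Type*} {W : ℤ → γ} {τ : Bool} {P : ℕ} (h1 : 16 ≤ P) (h2 : P ≤ 43) {c g : ℤ} {y : γ}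
    (h : EvAt W τ P c g y) : kl τ P c g < 8 ∧
    (∀ i : ℤ, c - 64 + ((65 - P : ℕ) : ℤ) ≤ i → i < c - 64 + ((e1 P (kl τ P c g) : ℕ) : ℤ) →
      W i = W (i + ((s1 τ P : ℕ) : ℤ))) ∧
    (∀ i : ℤ, c - 64 + ((b2 τ P (kl τ P c g) : ℕ) : ℤ) ≤ i → i < c - 64 + ((e2 τ : ℕ) : ℤ) →
      W i = W (i + ((s2 τ P : ℕ) : ℤ))) ∧
    e1 P (kl τ P c g) ≤ 65 ∧ b2 τ P (kl τ P c g) ≤ 66 ∧ e2 τ ≤ 65 ∧ 12 ≤ s1 τ P ∧ s1 τ P ≤ 43 ∧
      12 ≤ s2 τ P ∧ s2 τ P ≤ 43 := by
  cases τ with
  | false =>
    obtain ⟨a1, a2, a3, a4, -⟩ := evAt_false.1 h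
    obtain ⟨b, hb⟩ := Int.eq_ofNat_of_zero_le (show 0 ≤ g - (c - P + 1) by omega)
    obtain ⟨k1, k2, k3, k4⟩ := @kl_arith P b (by omega) (by omega)
    have hk : kl false P c g = (8 * b + 7) / P := by
      unfold kl
      rw [cond_false, hb]
      rfl
    rw [hk]
    refine ⟨k1, ?_, ?_, ?_, ?_, ?_, ?_, ?_, ?_, ?_⟩
    · intro i i1 i2
      unfold e1 at i2
      unfold s1
      rw [cond_false]
      have h3 := a3 i (by omega) (by omega)
      rw [h3]
      congr 1
      omega
    · intro i i1 i2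
      unfold b2 at i1
      unfold e2 at i2
      unfold s2
      rw [cond_false] at i1 i2 ⊢
      exact a4 i (by omega) (by omega)
    · unfold e1; omega
    · unfold b2; rw [cond_false]; omega
    · unfold e2; rw [cond_false]; omega
    · unfold s1; rw [cond_false]; omega
    · unfold s1; rw [cond_false]; omega
    · unfold s2; rw [cond_false]; omega
    · unfold s2; rw [cond_false]; omega
  | true =>
    obtain ⟨a1, a2, a3, a4, -⟩ := evAt_true.1 h
    obtain ⟨b, hb⟩ := Int.eq_ofNat_of_zero_le (show 0 ≤ g - c - 1 by omega)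
    obtain ⟨k1, k2, k3, k4⟩ := @kl_arith P b (by omega) (by omega)
    have hk : kl true P c g = (8 * b + 7) / P := by
      unfold kl
      rw [cond_true, hb]
      rfl
    rw [hk]
    refine ⟨k1, ?_, ?_, ?_, ?_, ?_, ?_, ?_, ?_, ?_⟩
    · intro i i1 i2
      unfold e1 at i2
      unfold s1
      rw [cond_true]
      exact a3 i (by omega) (by omega)
    · intro i i1 i2
      unfold b2 at i1
      unfold e2 at i2
      unfold s2
      rw [cond_true] at i1 i2 ⊢
      have h3 := a4 i (by omega) (by omega)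
      rw [h3]
      congr 1
      omega
    · unfold e1; omega
    · unfold b2; rw [cond_true]; omega
    · unfold e2; rw [cond_true]
    · unfold s1; rw [cond_true]; omega
    · unfold s1; rw [cond_true]; omega
    · unfold s2; rw [cond_true]; omega
    · unfold s2; rw [cond_true]; omega

theorem bm_sound {γ : Type*} {W : ℤ → γ} (hW : Sqf W) {τ τ' : Bool} {P P' : ℕ} (h1 : 16 ≤ P) (h2 : P ≤ 43)
    (h3 : 16 ≤ P') (h4 : P' ≤ 43) {c c' g g' : ℤ} {y y' : γ} (h : EvAt W τ P c g y) (h' : EvAt W τ' P' c' g' y')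
    (hne : (g, y) ≠ (g', y')) (hd : -40 ≤ c' - c) (hd' : c' - c < 40) :
    (bm τ P (kl τ P c g) τ' P' (kl τ' P' c' g')).testBit (c' - c + 40).toNat = false := by
  obtain ⟨j, hj⟩ : ∃ j, j = (c' - c + 40).toNat := ⟨_, rfl⟩
  have hj2 : (j : ℤ) = c' - c + 40 := by omega
  rw [← hj]
  unfold bm
  rw [Nat.testBit_mod_two_pow, Nat.testBit_shiftRight]
  have hj80 : decide (j < 80) = true := decide_eq_true (by omega)
  rw [hj80, Bool.true_and]
  cases hsame : (Nat.beq P P' && (τ == τ')) with
  | true =>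
    rw [cond_true]
    rw [Bool.and_eq_true, beq_iff_eq] at hsame
    have e1 := Nat.eq_of_beq_eq_true hsame.1
    have e2 := hsame.2
    subst e1
    subst e2
    rw [← Bool.not_eq_true, im_bit]
    intro hb
    obtain ⟨g1, g2⟩ := same_pair hW h h' (by omega) (by omega)
    exact hne (Prod.ext g1 g2)
  | false =>
    rw [cond_false]
    obtain ⟨-, x1, x2, x3, x4, x5, x6, x7, x8, x9⟩ := cores h1 h2 h
    obtain ⟨-, y1, y2, y3, y4, y5, y6, y7, y8, y9⟩ := cores h3 h4 h'
    have hc : c' = c + (c' - c) := by ring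
    have hk : ((88 + j : ℕ) : ℤ) = (c' - c) + 128 := by push_cast; omega
    unfold cc
    rw [Nat.testBit_or, Nat.testBit_or, Nat.testBit_or]
    have y1' : ∀ i : ℤ, c + (c' - c) - 64 + ((65 - P' : ℕ) : ℤ) ≤ i → i < c + (c' - c) - 64 +
        ((e1 P' (kl τ' P' c' g') : ℕ) : ℤ) → W i = W (i + ((s1 τ' P' : ℕ) : ℤ)) := by
      intro i i1 i2
      exact y1 i (by omega) (by omega)
    have y2' : ∀ i : ℤ, c + (c' - c) - 64 + ((b2 τ' P' (kl τ' P' c' g') : ℕ) : ℤ) ≤ i → i < c + (c' - c) - 64 +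
        ((e2 τ' : ℕ) : ℤ) → W i = W (i + ((s2 τ' P' : ℕ) : ℤ)) := by
      intro i i1 i2
      exact y2 i (by omega) (by omega)
    rw [cm_sound hW x6 x7 y6 y7 (by omega) x3 (by omega) y3 c (c' - c) x1 y1' _ hk,
      cm_sound hW x6 x7 y8 y9 (by omega) x3 y4 y5 c (c' - c) x1 y2' _ hk,
      cm_sound hW x8 x9 y6 y7 x4 x5 (by omega) y3 c (c' - c) x2 y1' _ hk,
      cm_sound hW x8 x9 y8 y9 x4 x5 y4 y5 c (c' - c) x2 y2' _ hk]
    rfl

/-- the index of the class of an event -/
def bt (τ : Bool) (P : ℕ) (c g : ℤ) : ℕ := ((P - 16) * 2 + (bif τ then 1 else 0)) * 8 + kl τ P c g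

theorem kl_lt {γ : Type*} {W : ℤ → γ} {τ : Bool} {P : ℕ} {c g : ℤ} {y : γ} (h : EvAt W τ P c g y) : kl τ P c g < 8 := by
  have h2 := h.two_le
  cases τ with
  | false =>
    obtain ⟨a1, a2, -⟩ := evAt_false.1 h
    obtain ⟨b, hb⟩ := Int.eq_ofNat_of_zero_le (show 0 ≤ g - (c - P + 1) by omega)
    have hk : kl false P c g = (8 * b + 7) / P := by
      unfold kl
      rw [cond_false, hb]
      rfl
    rw [hk]
    exact (@kl_arith P b (by omega) (by omega)).1
  | true =>
    obtain ⟨a1, a2, -⟩ := evAt_true.1 h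
    obtain ⟨b, hb⟩ := Int.eq_ofNat_of_zero_le (show 0 ≤ g - c - 1 by omega)
    have hk : kl true P c g = (8 * b + 7) / P := by
      unfold kl
      rw [cond_true, hb]
      rfl
    rw [hk]
    exact (@kl_arith P b (by omega) (by omega)).1

theorem bt_spec {γ : Type*} {W : ℤ → γ} {τ : Bool} {P : ℕ} (h1 : 16 ≤ P) (h2 : P ≤ 43) {c g : ℤ} {y : γ}
    (h : EvAt W τ P c g y) : bt τ P c g < 448 ∧ cP (bt τ P c g) = P ∧ cT (bt τ P c g) = τ ∧
    cK (bt τ P c g) = kl τ P c g := by
  have hk := kl_lt h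
  unfold bt cP cT cK
  cases τ with
  | false =>
    rw [cond_false]
    refine ⟨by omega, by omega, ?_, by omega⟩
    have e : (((P - 16) * 2 + 0) * 8 + kl false P c g) / 8 % 2 = 0 := by omega
    rw [e]
    rfl
  | true =>
    rw [cond_true]
    refine ⟨by omega, by omega, ?_, by omega⟩
    have e : (((P - 16) * 2 + 1) * 8 + kl true P c g) / 8 % 2 = 1 := by omega
    rw [e]
    rfl

end Pool.Agent.SQB
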