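import Pool.Agent.SQB.R0
import Pool.Agent.SQB.R1
import Pool.Agent.SQB.R2
import Pool.Agent.SQB.R3
import Pool.Agent.SQB.R4
import Pool.Agent.SQB.R5
import Pool.Agent.SQB.R6
import Pool.Agent.SQB.R7
import Pool.Agent.SQB.R8
import Pool.Agent.SQB.R9
import Pool.Agent.SQB.R10
import Pool.Agent.SQB.R11
import Pool.Agent.SQB.R12
import Pool.Agent.SQB.R13
import Pool.Agent.SQB.R14
import Pool.Agent.SQB.R15
import Pool.Agent.SQB.R16
import Pool.Agent.SQB.R17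
import Pool.Agent.SQB.R18
import Pool.Agent.SQB.R19
import Pool.Agent.SQB.R20
import Pool.Agent.SQB.R21
import Pool.Agent.SQB.R22
import Pool.Agent.SQB.R23
import Pool.Agent.SQB.R24
import Pool.Agent.SQB.R25
import Pool.Agent.SQB.R26
import Pool.Agent.SQB.R27

set_option autoImplicit false
set_option maxRecDepth 100000

namespace Pool.Agent.SQB

/-- binary tree of numbers -/
inductive RT : Type
  | lf (n : ℕ) : RT
  | nd (l r : RT) : RT

open RT

noncomputable def RT.get (T : RT) : ℕ → ℕ :=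
  RT.rec (motive := fun _ => ℕ → ℕ) (fun n _ => n)
    (fun _ _ gl gr x => bif Nat.beq (x % 2) 0 then gl (x / 2) else gr (x / 2)) T

def tab : RT := nd (nd (nd (nd (nd (nd (nd (nd (nd (lf r0) (lf r256)) (nd (lf r128) (lf r384))) (nd (nd (lf r64) (lf r320)) (nd (lf r192) (lf 0)))) (nd (nd (nd (lf r32) (lf r288)) (nd (lf r160) (lf r416))) (nd (nd (lf r96) (lf r352)) (nd (lf r224) (lf 0))))) (nd (nd (nd (nd (lf r16) (lf r272)) (nd (lf r144) (lf r400))) (nd (nd (lf r80) (lf r336)) (nd (lf r208) (lf 0)))) (nd (nd (nd (lf r48) (lf r304)) (nd (lf r176) (lf r432))) (nd (nd (lf r112) (lf r368)) (nd (lf r240) (lf 0)))))) (nd (nd (nd (nd (nd (lf r8) (lf r264)) (nd (lf r136) (lf r392))) (nd (nd (lf r72) (lf r328)) (nd (lf r200) (lf 0)))) (nd (nd (nd (lf r40) (lf r296)) (nd (lf r168) (lf r424))) (nd (nd (lf r104) (lf r360)) (nd (lf r232) (lf 0))))) (nd (nd (nd (nd (lf r24) (lf r280)) (nd (lf r152) (lf r408)))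 (nd (nd (lf r88) (lf r344)) (nd (lf r216) (lf 0)))) (nd (nd (nd (lf r56) (lf r312)) (nd (lf r184) (lf r440))) (nd (nd (lf r120) (lf r376)) (nd (lf r248) (lf 0))))))) (nd (nd (nd (nd (nd (nd (lf r4) (lf r260)) (nd (lf r132) (lf r388))) (nd (nd (lf r68) (lf r324)) (nd (lf r196) (lf 0)))) (nd (nd (nd (lf r36) (lf r292)) (nd (lf r164) (lf r420))) (nd (nd (lf r100) (lf r356)) (nd (lf r228) (lf 0))))) (nd (nd (nd (nd (lf r20) (lf r276)) (nd (lf r148) (lf r404))) (nd (nd (lf r84) (lf r340)) (nd (lf r212) (lf 0)))) (nd (nd (nd (lf r52) (lf r308)) (nd (lf r180) (lf r436))) (nd (nd (lf r116) (lf r372)) (nd (lf r244) (lf 0)))))) (nd (nd (nd (nd (nd (lf r12) (lf r268)) (nd (lf r140) (lf r396))) (nd (nd (lf r76) (lf r332)) (nd (lf r204) (lf 0)))) (nd (nd (nd (lf r44) (lf r300)) (nd (lf r172) (lf r428))) (nd (nd (lf r108) (lf r364)) (nd (lf r236) (lf 0))))) (nd (nd (nd (nd (lf r28) (lf r284)) (nd (lf r156) (lf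 r412))) (nd (nd (lf r92) (lf r348)) (nd (lf r220) (lf 0)))) (nd (nd (nd (lf r60) (lf r316)) (nd (lf r188) (lf r444))) (nd (nd (lf r124) (lf r380)) (nd (lf r252) (lf 0)))))))) (nd (nd (nd (nd (nd (nd (nd (lf r2) (lf r258)) (nd (lf r130) (lf r386))) (nd (nd (lf r66) (lf r322)) (nd (lf r194) (lf 0)))) (nd (nd (nd (lf r34) (lf r290)) (nd (lf r162) (lf r418))) (nd (nd (lf r98) (lf r354)) (nd (lf r226) (lf 0))))) (nd (nd (nd (nd (lf r18) (lf r274)) (nd (lf r146) (lf r402))) (nd (nd (lf r82) (lf r338)) (nd (lf r210) (lf 0)))) (nd (nd (nd (lf r50) (lf r306)) (nd (lf r178) (lf r434))) (nd (nd (lf r114) (lf r370)) (nd (lf r242) (lf 0)))))) (nd (nd (nd (nd (nd (lf r10) (lf r266)) (nd (lf r138) (lf r394))) (nd (nd (lf r74) (lf r330)) (nd (lf r202) (lf 0)))) (nd (nd (nd (lf r42) (lf r298)) (nd (lf r170) (lf r426))) (nd (nd (lf r106) (lf r362)) (nd (lf r234) (lf 0))))) (nd (nd (nd (nd (lf r26) (lf r282)) (nd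 (lf r154) (lf r410))) (nd (nd (lf r90) (lf r346)) (nd (lf r218) (lf 0)))) (nd (nd (nd (lf r58) (lf r314)) (nd (lf r186) (lf r442))) (nd (nd (lf r122) (lf r378)) (nd (lf r250) (lf 0))))))) (nd (nd (nd (nd (nd (nd (lf r6) (lf r262)) (nd (lf r134) (lf r390))) (nd (nd (lf r70) (lf r326)) (nd (lf r198) (lf 0)))) (nd (nd (nd (lf r38) (lf r294)) (nd (lf r166) (lf r422))) (nd (nd (lf r102) (lf r358)) (nd (lf r230) (lf 0))))) (nd (nd (nd (nd (lf r22) (lf r278)) (nd (lf r150) (lf r406))) (nd (nd (lf r86) (lf r342)) (nd (lf r214) (lf 0)))) (nd (nd (nd (lf r54) (lf r310)) (nd (lf r182) (lf r438))) (nd (nd (lf r118) (lf r374)) (nd (lf r246) (lf 0)))))) (nd (nd (nd (nd (nd (lf r14) (lf r270)) (nd (lf r142) (lf r398))) (nd (nd (lf r78) (lf r334)) (nd (lf r206) (lf 0)))) (nd (nd (nd (lf r46) (lf r302)) (nd (lf r174) (lf r430))) (nd (nd (lf r110) (lf r366)) (nd (lf r238) (lf 0))))) (nd (nd (nd (nd (lf r30) (lf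 r286)) (nd (lf r158) (lf r414))) (nd (nd (lf r94) (lf r350)) (nd (lf r222) (lf 0)))) (nd (nd (nd (lf r62) (lf r318)) (nd (lf r190) (lf r446))) (nd (nd (lf r126) (lf r382)) (nd (lf r254) (lf 0))))))))) (nd (nd (nd (nd (nd (nd (nd (nd (lf r1) (lf r257)) (nd (lf r129) (lf r385))) (nd (nd (lf r65) (lf r321)) (nd (lf r193) (lf 0)))) (nd (nd (nd (lf r33) (lf r289)) (nd (lf r161) (lf r417))) (nd (nd (lf r97) (lf r353)) (nd (lf r225) (lf 0))))) (nd (nd (nd (nd (lf r17) (lf r273)) (nd (lf r145) (lf r401))) (nd (nd (lf r81) (lf r337)) (nd (lf r209) (lf 0)))) (nd (nd (nd (lf r49) (lf r305)) (nd (lf r177) (lf r433))) (nd (nd (lf r113) (lf r369)) (nd (lf r241) (lf 0)))))) (nd (nd (nd (nd (nd (lf r9) (lf r265)) (nd (lf r137) (lf r393))) (nd (nd (lf r73) (lf r329)) (nd (lf r201) (lf 0)))) (nd (nd (nd (lf r41) (lf r297)) (nd (lf r169) (lf r425))) (nd (nd (lf r105) (lf r361)) (nd (lf r233) (lf 0))))) (nd (nd (nd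 (nd (lf r25) (lf r281)) (nd (lf r153) (lf r409))) (nd (nd (lf r89) (lf r345)) (nd (lf r217) (lf 0)))) (nd (nd (nd (lf r57) (lf r313)) (nd (lf r185) (lf r441))) (nd (nd (lf r121) (lf r377)) (nd (lf r249) (lf 0))))))) (nd (nd (nd (nd (nd (nd (lf r5) (lf r261)) (nd (lf r133) (lf r389))) (nd (nd (lf r69) (lf r325)) (nd (lf r197) (lf 0)))) (nd (nd (nd (lf r37) (lf r293)) (nd (lf r165) (lf r421))) (nd (nd (lf r101) (lf r357)) (nd (lf r229) (lf 0))))) (nd (nd (nd (nd (lf r21) (lf r277)) (nd (lf r149) (lf r405))) (nd (nd (lf r85) (lf r341)) (nd (lf r213) (lf 0)))) (nd (nd (nd (lf r53) (lf r309)) (nd (lf r181) (lf r437))) (nd (nd (lf r117) (lf r373)) (nd (lf r245) (lf 0)))))) (nd (nd (nd (nd (nd (lf r13) (lf r269)) (nd (lf r141) (lf r397))) (nd (nd (lf r77) (lf r333)) (nd (lf r205) (lf 0)))) (nd (nd (nd (lf r45) (lf r301)) (nd (lf r173) (lf r429))) (nd (nd (lf r109) (lf r365)) (nd (lf r237) (lf 0))))) (nd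 (nd (nd (nd (lf r29) (lf r285)) (nd (lf r157) (lf r413))) (nd (nd (lf r93) (lf r349)) (nd (lf r221) (lf 0)))) (nd (nd (nd (lf r61) (lf r317)) (nd (lf r189) (lf r445))) (nd (nd (lf r125) (lf r381)) (nd (lf r253) (lf 0)))))))) (nd (nd (nd (nd (nd (nd (nd (lf r3) (lf r259)) (nd (lf r131) (lf r387))) (nd (nd (lf r67) (lf r323)) (nd (lf r195) (lf 0)))) (nd (nd (nd (lf r35) (lf r291)) (nd (lf r163) (lf r419))) (nd (nd (lf r99) (lf r355)) (nd (lf r227) (lf 0))))) (nd (nd (nd (nd (lf r19) (lf r275)) (nd (lf r147) (lf r403))) (nd (nd (lf r83) (lf r339)) (nd (lf r211) (lf 0)))) (nd (nd (nd (lf r51) (lf r307)) (nd (lf r179) (lf r435))) (nd (nd (lf r115) (lf r371)) (nd (lf r243) (lf 0)))))) (nd (nd (nd (nd (nd (lf r11) (lf r267)) (nd (lf r139) (lf r395))) (nd (nd (lf r75) (lf r331)) (nd (lf r203) (lf 0)))) (nd (nd (nd (lf r43) (lf r299)) (nd (lf r171) (lf r427))) (nd (nd (lf r107) (lf r363)) (nd (lf r235)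 (lf 0))))) (nd (nd (nd (nd (lf r27) (lf r283)) (nd (lf r155) (lf r411))) (nd (nd (lf r91) (lf r347)) (nd (lf r219) (lf 0)))) (nd (nd (nd (lf r59) (lf r315)) (nd (lf r187) (lf r443))) (nd (nd (lf r123) (lf r379)) (nd (lf r251) (lf 0))))))) (nd (nd (nd (nd (nd (nd (lf r7) (lf r263)) (nd (lf r135) (lf r391))) (nd (nd (lf r71) (lf r327)) (nd (lf r199) (lf 0)))) (nd (nd (nd (lf r39) (lf r295)) (nd (lf r167) (lf r423))) (nd (nd (lf r103) (lf r359)) (nd (lf r231) (lf 0))))) (nd (nd (nd (nd (lf r23) (lf r279)) (nd (lf r151) (lf r407))) (nd (nd (lf r87) (lf r343)) (nd (lf r215) (lf 0)))) (nd (nd (nd (lf r55) (lf r311)) (nd (lf r183) (lf r439))) (nd (nd (lf r119) (lf r375)) (nd (lf r247) (lf 0)))))) (nd (nd (nd (nd (nd (lf r15) (lf r271)) (nd (lf r143) (lf r399))) (nd (nd (lf r79) (lf r335)) (nd (lf r207) (lf 0)))) (nd (nd (nd (lf r47) (lf r303)) (nd (lf r175) (lf r431))) (nd (nd (lf r111) (lf r367)) (nd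 (lf r239) (lf 0))))) (nd (nd (nd (nd (lf r31) (lf r287)) (nd (lf r159) (lf r415))) (nd (nd (lf r95) (lf r351)) (nd (lf r223) (lf 0)))) (nd (nd (nd (lf r63) (lf r319)) (nd (lf r191) (lf r447))) (nd (nd (lf r127) (lf r383)) (nd (lf r255) (lf 0)))))))))

/-- the row of β -/
noncomputable def row (β : ℕ) : ℕ := RT.get tab β

end Pool.Agent.SQB
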