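import Mathlib
import Pool.Agent.SQB.Cf
import Pool.Agent.SQB.Tab

/-!
The table: row β = rowF β 448 for β < 448 (r_b_ok in R0 .. R27, lookup in the tree tab, low bit first).
-/

set_option autoImplicit false
set_option maxRecDepth 100000

namespace Pool.Agent.SQB

open Pool.Agent.SQF Pool.Agent.SQF4

private theorem re_0 : ∀ j : ℕ, j < 16 → row (16 * 0 + j) = rowF (16 * 0 + j) 448 := by
  intro j hj
  interval_cases j
  · exact (show row 0 = r0 from rfl).trans r0_ok.symm
  · exact (show row 1 = r1 from rfl).trans r1_ok.symm
  · exact (show row 2 = r2 from rfl).trans r2_ok.symm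
  · exact (show row 3 = r3 from rfl).trans r3_ok.symm
  · exact (show row 4 = r4 from rfl).trans r4_ok.symm
  · exact (show row 5 = r5 from rfl).trans r5_ok.symm
  · exact (show row 6 = r6 from rfl).trans r6_ok.symm
  · exact (show row 7 = r7 from rfl).trans r7_ok.symm
  · exact (show row 8 = r8 from rfl).trans r8_ok.symm
  · exact (show row 9 = r9 from rfl).trans r9_ok.symm
  · exact (show row 10 = r10 from rfl).trans r10_ok.symm
  · exact (show row 11 = r11 from rfl).trans r11_ok.symm
  · exact (show row 12 = r12 from rfl).trans r12_ok.symm
  · exact (show row 13 = r13 from rfl).trans r13_ok.symm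
  · exact (show row 14 = r14 from rfl).trans r14_ok.symm
  · exact (show row 15 = r15 from rfl).trans r15_ok.symm

private theorem re_1 : ∀ j : ℕ, j < 16 → row (16 * 1 + j) = rowF (16 * 1 + j) 448 := by
  intro j hj
  interval_cases j
  · exact (show row 16 = r16 from rfl).trans r16_ok.symm
  · exact (show row 17 = r17 from rfl).trans r17_ok.symm
  · exact (show row 18 = r18 from rfl).trans r18_ok.symm
  · exact (show row 19 = r19 from rfl).trans r19_ok.symm
  · exact (show row 20 = r20 from rfl).trans r20_ok.symm
  · exact (show row 21 = r21 from rfl).trans r21_ok.symm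
  · exact (show row 22 = r22 from rfl).trans r22_ok.symm
  · exact (show row 23 = r23 from rfl).trans r23_ok.symm
  · exact (show row 24 = r24 from rfl).trans r24_ok.symm
  · exact (show row 25 = r25 from rfl).trans r25_ok.symm
  · exact (show row 26 = r26 from rfl).trans r26_ok.symm
  · exact (show row 27 = r27 from rfl).trans r27_ok.symm
  · exact (show row 28 = r28 from rfl).trans r28_ok.symm
  · exact (show row 29 = r29 from rfl).trans r29_ok.symm
  · exact (show row 30 = r30 from rfl).trans r30_ok.symm
  · exact (show row 31 = r31 from rfl).trans r31_ok.symm

private theorem re_2 : ∀ j : ℕ, j < 16 → row (16 * 2 + j) = rowF (16 * 2 + j) 448 := by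
  intro j hj
  interval_cases j
  · exact (show row 32 = r32 from rfl).trans r32_ok.symm
  · exact (show row 33 = r33 from rfl).trans r33_ok.symm
  · exact (show row 34 = r34 from rfl).trans r34_ok.symm
  · exact (show row 35 = r35 from rfl).trans r35_ok.symm
  · exact (show row 36 = r36 from rfl).trans r36_ok.symm
  · exact (show row 37 = r37 from rfl).trans r37_ok.symm
  · exact (show row 38 = r38 from rfl).trans r38_ok.symm
  · exact (show row 39 = r39 from rfl).trans r39_ok.symm
  · exact (show row 40 = r40 from rfl).trans r40_ok.symm
  · exact (show row 41 = r41 from rfl).trans r41_ok.symm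
  · exact (show row 42 = r42 from rfl).trans r42_ok.symm
  · exact (show row 43 = r43 from rfl).trans r43_ok.symm
  · exact (show row 44 = r44 from rfl).trans r44_ok.symm
  · exact (show row 45 = r45 from rfl).trans r45_ok.symm
  · exact (show row 46 = r46 from rfl).trans r46_ok.symm
  · exact (show row 47 = r47 from rfl).trans r47_ok.symm

private theorem re_3 : ∀ j : ℕ, j < 16 → row (16 * 3 + j) = rowF (16 * 3 + j) 448 := by
  intro j hj
  interval_cases j
  · exact (show row 48 = r48 from rfl).trans r48_ok.symm
  · exact (show row 49 = r49 from rfl).trans r49_ok.symm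
  · exact (show row 50 = r50 from rfl).trans r50_ok.symm
  · exact (show row 51 = r51 from rfl).trans r51_ok.symm
  · exact (show row 52 = r52 from rfl).trans r52_ok.symm
  · exact (show row 53 = r53 from rfl).trans r53_ok.symm
  · exact (show row 54 = r54 from rfl).trans r54_ok.symm
  · exact (show row 55 = r55 from rfl).trans r55_ok.symm
  · exact (show row 56 = r56 from rfl).trans r56_ok.symm
  · exact (show row 57 = r57 from rfl).trans r57_ok.symm
  · exact (show row 58 = r58 from rfl).trans r58_ok.symm
  · exact (show row 59 = r59 from rfl).trans r59_ok.symm
  · exact (show row 60 = r60 from rfl).trans r60_ok.symm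
  · exact (show row 61 = r61 from rfl).trans r61_ok.symm
  · exact (show row 62 = r62 from rfl).trans r62_ok.symm
  · exact (show row 63 = r63 from rfl).trans r63_ok.symm

private theorem re_4 : ∀ j : ℕ, j < 16 → row (16 * 4 + j) = rowF (16 * 4 + j) 448 := by
  intro j hj
  interval_cases j
  · exact (show row 64 = r64 from rfl).trans r64_ok.symm
  · exact (show row 65 = r65 from rfl).trans r65_ok.symm
  · exact (show row 66 = r66 from rfl).trans r66_ok.symm
  · exact (show row 67 = r67 from rfl).trans r67_ok.symm
  · exact (show row 68 = r68 from rfl).trans r68_ok.symm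
  · exact (show row 69 = r69 from rfl).trans r69_ok.symm
  · exact (show row 70 = r70 from rfl).trans r70_ok.symm
  · exact (show row 71 = r71 from rfl).trans r71_ok.symm
  · exact (show row 72 = r72 from rfl).trans r72_ok.symm
  · exact (show row 73 = r73 from rfl).trans r73_ok.symm
  · exact (show row 74 = r74 from rfl).trans r74_ok.symm
  · exact (show row 75 = r75 from rfl).trans r75_ok.symm
  · exact (show row 76 = r76 from rfl).trans r76_ok.symm
  · exact (show row 77 = r77 from rfl).trans r77_ok.symm
  · exact (show row 78 = r78 from rfl).trans r78_ok.symm
  · exact (show row 79 = r79 from rfl).trans r79_ok.symm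

private theorem re_5 : ∀ j : ℕ, j < 16 → row (16 * 5 + j) = rowF (16 * 5 + j) 448 := by
  intro j hj
  interval_cases j
  · exact (show row 80 = r80 from rfl).trans r80_ok.symm
  · exact (show row 81 = r81 from rfl).trans r81_ok.symm
  · exact (show row 82 = r82 from rfl).trans r82_ok.symm
  · exact (show row 83 = r83 from rfl).trans r83_ok.symm
  · exact (show row 84 = r84 from rfl).trans r84_ok.symm
  · exact (show row 85 = r85 from rfl).trans r85_ok.symm
  · exact (show row 86 = r86 from rfl).trans r86_ok.symm
  · exact (show row 87 = r87 from rfl).trans r87_ok.symm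
  · exact (show row 88 = r88 from rfl).trans r88_ok.symm
  · exact (show row 89 = r89 from rfl).trans r89_ok.symm
  · exact (show row 90 = r90 from rfl).trans r90_ok.symm
  · exact (show row 91 = r91 from rfl).trans r91_ok.symm
  · exact (show row 92 = r92 from rfl).trans r92_ok.symm
  · exact (show row 93 = r93 from rfl).trans r93_ok.symm
  · exact (show row 94 = r94 from rfl).trans r94_ok.symm
  · exact (show row 95 = r95 from rfl).trans r95_ok.symm

private theorem re_6 : ∀ j : ℕ, j < 16 → row (16 * 6 + j) = rowF (16 * 6 + j) 448 := by
  intro j hj
  interval_cases j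
  · exact (show row 96 = r96 from rfl).trans r96_ok.symm
  · exact (show row 97 = r97 from rfl).trans r97_ok.symm
  · exact (show row 98 = r98 from rfl).trans r98_ok.symm
  · exact (show row 99 = r99 from rfl).trans r99_ok.symm
  · exact (show row 100 = r100 from rfl).trans r100_ok.symm
  · exact (show row 101 = r101 from rfl).trans r101_ok.symm
  · exact (show row 102 = r102 from rfl).trans r102_ok.symm
  · exact (show row 103 = r103 from rfl).trans r103_ok.symm
  · exact (show row 104 = r104 from rfl).trans r104_ok.symm
  · exact (show row 105 = r105 from rfl).trans r105_ok.symm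
  · exact (show row 106 = r106 from rfl).trans r106_ok.symm
  · exact (show row 107 = r107 from rfl).trans r107_ok.symm
  · exact (show row 108 = r108 from rfl).trans r108_ok.symm
  · exact (show row 109 = r109 from rfl).trans r109_ok.symm
  · exact (show row 110 = r110 from rfl).trans r110_ok.symm
  · exact (show row 111 = r111 from rfl).trans r111_ok.symm

private theorem re_7 : ∀ j : ℕ, j < 16 → row (16 * 7 + j) = rowF (16 * 7 + j) 448 := by
  intro j hj
  interval_cases j
  · exact (show row 112 = r112 from rfl).trans r112_ok.symm
  · exact (show row 113 = r113 from rfl).trans r113_ok.symm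
  · exact (show row 114 = r114 from rfl).trans r114_ok.symm
  · exact (show row 115 = r115 from rfl).trans r115_ok.symm
  · exact (show row 116 = r116 from rfl).trans r116_ok.symm
  · exact (show row 117 = r117 from rfl).trans r117_ok.symm
  · exact (show row 118 = r118 from rfl).trans r118_ok.symm
  · exact (show row 119 = r119 from rfl).trans r119_ok.symm
  · exact (show row 120 = r120 from rfl).trans r120_ok.symm
  · exact (show row 121 = r121 from rfl).trans r121_ok.symm
  · exact (show row 122 = r122 from rfl).trans r122_ok.symm
  · exact (show row 123 = r123 from rfl).trans r123_ok.symm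
  · exact (show row 124 = r124 from rfl).trans r124_ok.symm
  · exact (show row 125 = r125 from rfl).trans r125_ok.symm
  · exact (show row 126 = r126 from rfl).trans r126_ok.symm
  · exact (show row 127 = r127 from rfl).trans r127_ok.symm

private theorem re_8 : ∀ j : ℕ, j < 16 → row (16 * 8 + j) = rowF (16 * 8 + j) 448 := by
  intro j hj
  interval_cases j
  · exact (show row 128 = r128 from rfl).trans r128_ok.symm
  · exact (show row 129 = r129 from rfl).trans r129_ok.symm
  · exact (show row 130 = r130 from rfl).trans r130_ok.symm
  · exact (show row 131 = r131 from rfl).trans r131_ok.symm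
  · exact (show row 132 = r132 from rfl).trans r132_ok.symm
  · exact (show row 133 = r133 from rfl).trans r133_ok.symm
  · exact (show row 134 = r134 from rfl).trans r134_ok.symm
  · exact (show row 135 = r135 from rfl).trans r135_ok.symm
  · exact (show row 136 = r136 from rfl).trans r136_ok.symm
  · exact (show row 137 = r137 from rfl).trans r137_ok.symm
  · exact (show row 138 = r138 from rfl).trans r138_ok.symm
  · exact (show row 139 = r139 from rfl).trans r139_ok.symm
  · exact (show row 140 = r140 from rfl).trans r140_ok.symm
  · exact (show row 141 = r141 from rfl).trans r141_ok.symm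
  · exact (show row 142 = r142 from rfl).trans r142_ok.symm
  · exact (show row 143 = r143 from rfl).trans r143_ok.symm

private theorem re_9 : ∀ j : ℕ, j < 16 → row (16 * 9 + j) = rowF (16 * 9 + j) 448 := by
  intro j hj
  interval_cases j
  · exact (show row 144 = r144 from rfl).trans r144_ok.symm
  · exact (show row 145 = r145 from rfl).trans r145_ok.symm
  · exact (show row 146 = r146 from rfl).trans r146_ok.symm
  · exact (show row 147 = r147 from rfl).trans r147_ok.symm
  · exact (show row 148 = r148 from rfl).trans r148_ok.symm
  · exact (show row 149 = r149 from rfl).trans r149_ok.symm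
  · exact (show row 150 = r150 from rfl).trans r150_ok.symm
  · exact (show row 151 = r151 from rfl).trans r151_ok.symm
  · exact (show row 152 = r152 from rfl).trans r152_ok.symm
  · exact (show row 153 = r153 from rfl).trans r153_ok.symm
  · exact (show row 154 = r154 from rfl).trans r154_ok.symm
  · exact (show row 155 = r155 from rfl).trans r155_ok.symm
  · exact (show row 156 = r156 from rfl).trans r156_ok.symm
  · exact (show row 157 = r157 from rfl).trans r157_ok.symm
  · exact (show row 158 = r158 from rfl).trans r158_ok.symm
  · exact (show row 159 = r159 from rfl).trans r159_ok.symm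

private theorem re_10 : ∀ j : ℕ, j < 16 → row (16 * 10 + j) = rowF (16 * 10 + j) 448 := by
  intro j hj
  interval_cases j
  · exact (show row 160 = r160 from rfl).trans r160_ok.symm
  · exact (show row 161 = r161 from rfl).trans r161_ok.symm
  · exact (show row 162 = r162 from rfl).trans r162_ok.symm
  · exact (show row 163 = r163 from rfl).trans r163_ok.symm
  · exact (show row 164 = r164 from rfl).trans r164_ok.symm
  · exact (show row 165 = r165 from rfl).trans r165_ok.symm
  · exact (show row 166 = r166 from rfl).trans r166_ok.symm
  · exact (show row 167 = r167 from rfl).trans r167_ok.symm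
  · exact (show row 168 = r168 from rfl).trans r168_ok.symm
  · exact (show row 169 = r169 from rfl).trans r169_ok.symm
  · exact (show row 170 = r170 from rfl).trans r170_ok.symm
  · exact (show row 171 = r171 from rfl).trans r171_ok.symm
  · exact (show row 172 = r172 from rfl).trans r172_ok.symm
  · exact (show row 173 = r173 from rfl).trans r173_ok.symm
  · exact (show row 174 = r174 from rfl).trans r174_ok.symm
  · exact (show row 175 = r175 from rfl).trans r175_ok.symm

private theorem re_11 : ∀ j : ℕ, j < 16 → row (16 * 11 + j) = rowF (16 * 11 + j) 448 := by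
  intro j hj
  interval_cases j
  · exact (show row 176 = r176 from rfl).trans r176_ok.symm
  · exact (show row 177 = r177 from rfl).trans r177_ok.symm
  · exact (show row 178 = r178 from rfl).trans r178_ok.symm
  · exact (show row 179 = r179 from rfl).trans r179_ok.symm
  · exact (show row 180 = r180 from rfl).trans r180_ok.symm
  · exact (show row 181 = r181 from rfl).trans r181_ok.symm
  · exact (show row 182 = r182 from rfl).trans r182_ok.symm
  · exact (show row 183 = r183 from rfl).trans r183_ok.symm
  · exact (show row 184 = r184 from rfl).trans r184_ok.symm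
  · exact (show row 185 = r185 from rfl).trans r185_ok.symm
  · exact (show row 186 = r186 from rfl).trans r186_ok.symm
  · exact (show row 187 = r187 from rfl).trans r187_ok.symm
  · exact (show row 188 = r188 from rfl).trans r188_ok.symm
  · exact (show row 189 = r189 from rfl).trans r189_ok.symm
  · exact (show row 190 = r190 from rfl).trans r190_ok.symm
  · exact (show row 191 = r191 from rfl).trans r191_ok.symm

private theorem re_12 : ∀ j : ℕ, j < 16 → row (16 * 12 + j) = rowF (16 * 12 + j) 448 := by
  intro j hj
  interval_cases j
  · exact (show row 192 = r192 from rfl).trans r192_ok.symm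
  · exact (show row 193 = r193 from rfl).trans r193_ok.symm
  · exact (show row 194 = r194 from rfl).trans r194_ok.symm
  · exact (show row 195 = r195 from rfl).trans r195_ok.symm
  · exact (show row 196 = r196 from rfl).trans r196_ok.symm
  · exact (show row 197 = r197 from rfl).trans r197_ok.symm
  · exact (show row 198 = r198 from rfl).trans r198_ok.symm
  · exact (show row 199 = r199 from rfl).trans r199_ok.symm
  · exact (show row 200 = r200 from rfl).trans r200_ok.symm
  · exact (show row 201 = r201 from rfl).trans r201_ok.symm
  · exact (show row 202 = r202 from rfl).trans r202_ok.symm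
  · exact (show row 203 = r203 from rfl).trans r203_ok.symm
  · exact (show row 204 = r204 from rfl).trans r204_ok.symm
  · exact (show row 205 = r205 from rfl).trans r205_ok.symm
  · exact (show row 206 = r206 from rfl).trans r206_ok.symm
  · exact (show row 207 = r207 from rfl).trans r207_ok.symm

private theorem re_13 : ∀ j : ℕ, j < 16 → row (16 * 13 + j) = rowF (16 * 13 + j) 448 := by
  intro j hj
  interval_cases j
  · exact (show row 208 = r208 from rfl).trans r208_ok.symm
  · exact (show row 209 = r209 from rfl).trans r209_ok.symm
  · exact (show row 210 = r210 from rfl).trans r210_ok.symm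
  · exact (show row 211 = r211 from rfl).trans r211_ok.symm
  · exact (show row 212 = r212 from rfl).trans r212_ok.symm
  · exact (show row 213 = r213 from rfl).trans r213_ok.symm
  · exact (show row 214 = r214 from rfl).trans r214_ok.symm
  · exact (show row 215 = r215 from rfl).trans r215_ok.symm
  · exact (show row 216 = r216 from rfl).trans r216_ok.symm
  · exact (show row 217 = r217 from rfl).trans r217_ok.symm
  · exact (show row 218 = r218 from rfl).trans r218_ok.symm
  · exact (show row 219 = r219 from rfl).trans r219_ok.symm
  · exact (show row 220 = r220 from rfl).trans r220_ok.symm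
  · exact (show row 221 = r221 from rfl).trans r221_ok.symm
  · exact (show row 222 = r222 from rfl).trans r222_ok.symm
  · exact (show row 223 = r223 from rfl).trans r223_ok.symm

private theorem re_14 : ∀ j : ℕ, j < 16 → row (16 * 14 + j) = rowF (16 * 14 + j) 448 := by
  intro j hj
  interval_cases j
  · exact (show row 224 = r224 from rfl).trans r224_ok.symm
  · exact (show row 225 = r225 from rfl).trans r225_ok.symm
  · exact (show row 226 = r226 from rfl).trans r226_ok.symm
  · exact (show row 227 = r227 from rfl).trans r227_ok.symm
  · exact (show row 228 = r228 from rfl).trans r228_ok.symm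
  · exact (show row 229 = r229 from rfl).trans r229_ok.symm
  · exact (show row 230 = r230 from rfl).trans r230_ok.symm
  · exact (show row 231 = r231 from rfl).trans r231_ok.symm
  · exact (show row 232 = r232 from rfl).trans r232_ok.symm
  · exact (show row 233 = r233 from rfl).trans r233_ok.symm
  · exact (show row 234 = r234 from rfl).trans r234_ok.symm
  · exact (show row 235 = r235 from rfl).trans r235_ok.symm
  · exact (show row 236 = r236 from rfl).trans r236_ok.symm
  · exact (show row 237 = r237 from rfl).trans r237_ok.symm
  · exact (show row 238 = r238 from rfl).trans r238_ok.symm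
  · exact (show row 239 = r239 from rfl).trans r239_ok.symm

private theorem re_15 : ∀ j : ℕ, j < 16 → row (16 * 15 + j) = rowF (16 * 15 + j) 448 := by
  intro j hj
  interval_cases j
  · exact (show row 240 = r240 from rfl).trans r240_ok.symm
  · exact (show row 241 = r241 from rfl).trans r241_ok.symm
  · exact (show row 242 = r242 from rfl).trans r242_ok.symm
  · exact (show row 243 = r243 from rfl).trans r243_ok.symm
  · exact (show row 244 = r244 from rfl).trans r244_ok.symm
  · exact (show row 245 = r245 from rfl).trans r245_ok.symm
  · exact (show row 246 = r246 from rfl).trans r246_ok.symm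
  · exact (show row 247 = r247 from rfl).trans r247_ok.symm
  · exact (show row 248 = r248 from rfl).trans r248_ok.symm
  · exact (show row 249 = r249 from rfl).trans r249_ok.symm
  · exact (show row 250 = r250 from rfl).trans r250_ok.symm
  · exact (show row 251 = r251 from rfl).trans r251_ok.symm
  · exact (show row 252 = r252 from rfl).trans r252_ok.symm
  · exact (show row 253 = r253 from rfl).trans r253_ok.symm
  · exact (show row 254 = r254 from rfl).trans r254_ok.symm
  · exact (show row 255 = r255 from rfl).trans r255_ok.symm

private theorem re_16 : ∀ j : ℕ, j < 16 → row (16 * 16 + j) = rowF (16 * 16 + j) 448 := by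
  intro j hj
  interval_cases j
  · exact (show row 256 = r256 from rfl).trans r256_ok.symm
  · exact (show row 257 = r257 from rfl).trans r257_ok.symm
  · exact (show row 258 = r258 from rfl).trans r258_ok.symm
  · exact (show row 259 = r259 from rfl).trans r259_ok.symm
  · exact (show row 260 = r260 from rfl).trans r260_ok.symm
  · exact (show row 261 = r261 from rfl).trans r261_ok.symm
  · exact (show row 262 = r262 from rfl).trans r262_ok.symm
  · exact (show row 263 = r263 from rfl).trans r263_ok.symm
  · exact (show row 264 = r264 from rfl).trans r264_ok.symm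
  · exact (show row 265 = r265 from rfl).trans r265_ok.symm
  · exact (show row 266 = r266 from rfl).trans r266_ok.symm
  · exact (show row 267 = r267 from rfl).trans r267_ok.symm
  · exact (show row 268 = r268 from rfl).trans r268_ok.symm
  · exact (show row 269 = r269 from rfl).trans r269_ok.symm
  · exact (show row 270 = r270 from rfl).trans r270_ok.symm
  · exact (show row 271 = r271 from rfl).trans r271_ok.symm

private theorem re_17 : ∀ j : ℕ, j < 16 → row (16 * 17 + j) = rowF (16 * 17 + j) 448 := by
  intro j hj
  interval_cases j
  · exact (show row 272 = r272 from rfl).trans r272_ok.symm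
  · exact (show row 273 = r273 from rfl).trans r273_ok.symm
  · exact (show row 274 = r274 from rfl).trans r274_ok.symm
  · exact (show row 275 = r275 from rfl).trans r275_ok.symm
  · exact (show row 276 = r276 from rfl).trans r276_ok.symm
  · exact (show row 277 = r277 from rfl).trans r277_ok.symm
  · exact (show row 278 = r278 from rfl).trans r278_ok.symm
  · exact (show row 279 = r279 from rfl).trans r279_ok.symm
  · exact (show row 280 = r280 from rfl).trans r280_ok.symm
  · exact (show row 281 = r281 from rfl).trans r281_ok.symm
  · exact (show row 282 = r282 from rfl).trans r282_ok.symm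
  · exact (show row 283 = r283 from rfl).trans r283_ok.symm
  · exact (show row 284 = r284 from rfl).trans r284_ok.symm
  · exact (show row 285 = r285 from rfl).trans r285_ok.symm
  · exact (show row 286 = r286 from rfl).trans r286_ok.symm
  · exact (show row 287 = r287 from rfl).trans r287_ok.symm

private theorem re_18 : ∀ j : ℕ, j < 16 → row (16 * 18 + j) = rowF (16 * 18 + j) 448 := by
  intro j hj
  interval_cases j
  · exact (show row 288 = r288 from rfl).trans r288_ok.symm
  · exact (show row 289 = r289 from rfl).trans r289_ok.symm
  · exact (show row 290 = r290 from rfl).trans r290_ok.symm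
  · exact (show row 291 = r291 from rfl).trans r291_ok.symm
  · exact (show row 292 = r292 from rfl).trans r292_ok.symm
  · exact (show row 293 = r293 from rfl).trans r293_ok.symm
  · exact (show row 294 = r294 from rfl).trans r294_ok.symm
  · exact (show row 295 = r295 from rfl).trans r295_ok.symm
  · exact (show row 296 = r296 from rfl).trans r296_ok.symm
  · exact (show row 297 = r297 from rfl).trans r297_ok.symm
  · exact (show row 298 = r298 from rfl).trans r298_ok.symm
  · exact (show row 299 = r299 from rfl).trans r299_ok.symm
  · exact (show row 300 = r300 from rfl).trans r300_ok.symm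
  · exact (show row 301 = r301 from rfl).trans r301_ok.symm
  · exact (show row 302 = r302 from rfl).trans r302_ok.symm
  · exact (show row 303 = r303 from rfl).trans r303_ok.symm

private theorem re_19 : ∀ j : ℕ, j < 16 → row (16 * 19 + j) = rowF (16 * 19 + j) 448 := by
  intro j hj
  interval_cases j
  · exact (show row 304 = r304 from rfl).trans r304_ok.symm
  · exact (show row 305 = r305 from rfl).trans r305_ok.symm
  · exact (show row 306 = r306 from rfl).trans r306_ok.symm
  · exact (show row 307 = r307 from rfl).trans r307_ok.symm
  · exact (show row 308 = r308 from rfl).trans r308_ok.symm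
  · exact (show row 309 = r309 from rfl).trans r309_ok.symm
  · exact (show row 310 = r310 from rfl).trans r310_ok.symm
  · exact (show row 311 = r311 from rfl).trans r311_ok.symm
  · exact (show row 312 = r312 from rfl).trans r312_ok.symm
  · exact (show row 313 = r313 from rfl).trans r313_ok.symm
  · exact (show row 314 = r314 from rfl).trans r314_ok.symm
  · exact (show row 315 = r315 from rfl).trans r315_ok.symm
  · exact (show row 316 = r316 from rfl).trans r316_ok.symm
  · exact (show row 317 = r317 from rfl).trans r317_ok.symm
  · exact (show row 318 = r318 from rfl).trans r318_ok.symm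
  · exact (show row 319 = r319 from rfl).trans r319_ok.symm

private theorem re_20 : ∀ j : ℕ, j < 16 → row (16 * 20 + j) = rowF (16 * 20 + j) 448 := by
  intro j hj
  interval_cases j
  · exact (show row 320 = r320 from rfl).trans r320_ok.symm
  · exact (show row 321 = r321 from rfl).trans r321_ok.symm
  · exact (show row 322 = r322 from rfl).trans r322_ok.symm
  · exact (show row 323 = r323 from rfl).trans r323_ok.symm
  · exact (show row 324 = r324 from rfl).trans r324_ok.symm
  · exact (show row 325 = r325 from rfl).trans r325_ok.symm
  · exact (show row 326 = r326 from rfl).trans r326_ok.symm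
  · exact (show row 327 = r327 from rfl).trans r327_ok.symm
  · exact (show row 328 = r328 from rfl).trans r328_ok.symm
  · exact (show row 329 = r329 from rfl).trans r329_ok.symm
  · exact (show row 330 = r330 from rfl).trans r330_ok.symm
  · exact (show row 331 = r331 from rfl).trans r331_ok.symm
  · exact (show row 332 = r332 from rfl).trans r332_ok.symm
  · exact (show row 333 = r333 from rfl).trans r333_ok.symm
  · exact (show row 334 = r334 from rfl).trans r334_ok.symm
  · exact (show row 335 = r335 from rfl).trans r335_ok.symm

private theorem re_21 : ∀ j : ℕ, j < 16 → row (16 * 21 + j) = rowF (16 * 21 + j) 448 := by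
  intro j hj
  interval_cases j
  · exact (show row 336 = r336 from rfl).trans r336_ok.symm
  · exact (show row 337 = r337 from rfl).trans r337_ok.symm
  · exact (show row 338 = r338 from rfl).trans r338_ok.symm
  · exact (show row 339 = r339 from rfl).trans r339_ok.symm
  · exact (show row 340 = r340 from rfl).trans r340_ok.symm
  · exact (show row 341 = r341 from rfl).trans r341_ok.symm
  · exact (show row 342 = r342 from rfl).trans r342_ok.symm
  · exact (show row 343 = r343 from rfl).trans r343_ok.symm
  · exact (show row 344 = r344 from rfl).trans r344_ok.symm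
  · exact (show row 345 = r345 from rfl).trans r345_ok.symm
  · exact (show row 346 = r346 from rfl).trans r346_ok.symm
  · exact (show row 347 = r347 from rfl).trans r347_ok.symm
  · exact (show row 348 = r348 from rfl).trans r348_ok.symm
  · exact (show row 349 = r349 from rfl).trans r349_ok.symm
  · exact (show row 350 = r350 from rfl).trans r350_ok.symm
  · exact (show row 351 = r351 from rfl).trans r351_ok.symm

private theorem re_22 : ∀ j : ℕ, j < 16 → row (16 * 22 + j) = rowF (16 * 22 + j) 448 := by
  intro j hj
  interval_cases j
  · exact (show row 352 = r352 from rfl).trans r352_ok.symm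
  · exact (show row 353 = r353 from rfl).trans r353_ok.symm
  · exact (show row 354 = r354 from rfl).trans r354_ok.symm
  · exact (show row 355 = r355 from rfl).trans r355_ok.symm
  · exact (show row 356 = r356 from rfl).trans r356_ok.symm
  · exact (show row 357 = r357 from rfl).trans r357_ok.symm
  · exact (show row 358 = r358 from rfl).trans r358_ok.symm
  · exact (show row 359 = r359 from rfl).trans r359_ok.symm
  · exact (show row 360 = r360 from rfl).trans r360_ok.symm
  · exact (show row 361 = r361 from rfl).trans r361_ok.symm
  · exact (show row 362 = r362 from rfl).trans r362_ok.symm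
  · exact (show row 363 = r363 from rfl).trans r363_ok.symm
  · exact (show row 364 = r364 from rfl).trans r364_ok.symm
  · exact (show row 365 = r365 from rfl).trans r365_ok.symm
  · exact (show row 366 = r366 from rfl).trans r366_ok.symm
  · exact (show row 367 = r367 from rfl).trans r367_ok.symm

private theorem re_23 : ∀ j : ℕ, j < 16 → row (16 * 23 + j) = rowF (16 * 23 + j) 448 := by
  intro j hj
  interval_cases j
  · exact (show row 368 = r368 from rfl).trans r368_ok.symm
  · exact (show row 369 = r369 from rfl).trans r369_ok.symm
  · exact (show row 370 = r370 from rfl).trans r370_ok.symm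
  · exact (show row 371 = r371 from rfl).trans r371_ok.symm
  · exact (show row 372 = r372 from rfl).trans r372_ok.symm
  · exact (show row 373 = r373 from rfl).trans r373_ok.symm
  · exact (show row 374 = r374 from rfl).trans r374_ok.symm
  · exact (show row 375 = r375 from rfl).trans r375_ok.symm
  · exact (show row 376 = r376 from rfl).trans r376_ok.symm
  · exact (show row 377 = r377 from rfl).trans r377_ok.symm
  · exact (show row 378 = r378 from rfl).trans r378_ok.symm
  · exact (show row 379 = r379 from rfl).trans r379_ok.symm
  · exact (show row 380 = r380 from rfl).trans r380_ok.symm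
  · exact (show row 381 = r381 from rfl).trans r381_ok.symm
  · exact (show row 382 = r382 from rfl).trans r382_ok.symm
  · exact (show row 383 = r383 from rfl).trans r383_ok.symm

private theorem re_24 : ∀ j : ℕ, j < 16 → row (16 * 24 + j) = rowF (16 * 24 + j) 448 := by
  intro j hj
  interval_cases j
  · exact (show row 384 = r384 from rfl).trans r384_ok.symm
  · exact (show row 385 = r385 from rfl).trans r385_ok.symm
  · exact (show row 386 = r386 from rfl).trans r386_ok.symm
  · exact (show row 387 = r387 from rfl).trans r387_ok.symm
  · exact (show row 388 = r388 from rfl).trans r388_ok.symm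
  · exact (show row 389 = r389 from rfl).trans r389_ok.symm
  · exact (show row 390 = r390 from rfl).trans r390_ok.symm
  · exact (show row 391 = r391 from rfl).trans r391_ok.symm
  · exact (show row 392 = r392 from rfl).trans r392_ok.symm
  · exact (show row 393 = r393 from rfl).trans r393_ok.symm
  · exact (show row 394 = r394 from rfl).trans r394_ok.symm
  · exact (show row 395 = r395 from rfl).trans r395_ok.symm
  · exact (show row 396 = r396 from rfl).trans r396_ok.symm
  · exact (show row 397 = r397 from rfl).trans r397_ok.symm
  · exact (show row 398 = r398 from rfl).trans r398_ok.symm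
  · exact (show row 399 = r399 from rfl).trans r399_ok.symm

private theorem re_25 : ∀ j : ℕ, j < 16 → row (16 * 25 + j) = rowF (16 * 25 + j) 448 := by
  intro j hj
  interval_cases j
  · exact (show row 400 = r400 from rfl).trans r400_ok.symm
  · exact (show row 401 = r401 from rfl).trans r401_ok.symm
  · exact (show row 402 = r402 from rfl).trans r402_ok.symm
  · exact (show row 403 = r403 from rfl).trans r403_ok.symm
  · exact (show row 404 = r404 from rfl).trans r404_ok.symm
  · exact (show row 405 = r405 from rfl).trans r405_ok.symm
  · exact (show row 406 = r406 from rfl).trans r406_ok.symm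
  · exact (show row 407 = r407 from rfl).trans r407_ok.symm
  · exact (show row 408 = r408 from rfl).trans r408_ok.symm
  · exact (show row 409 = r409 from rfl).trans r409_ok.symm
  · exact (show row 410 = r410 from rfl).trans r410_ok.symm
  · exact (show row 411 = r411 from rfl).trans r411_ok.symm
  · exact (show row 412 = r412 from rfl).trans r412_ok.symm
  · exact (show row 413 = r413 from rfl).trans r413_ok.symm
  · exact (show row 414 = r414 from rfl).trans r414_ok.symm
  · exact (show row 415 = r415 from rfl).trans r415_ok.symm

private theorem re_26 : ∀ j : ℕ, j < 16 → row (16 * 26 + j) = rowF (16 * 26 + j) 448 := by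
  intro j hj
  interval_cases j
  · exact (show row 416 = r416 from rfl).trans r416_ok.symm
  · exact (show row 417 = r417 from rfl).trans r417_ok.symm
  · exact (show row 418 = r418 from rfl).trans r418_ok.symm
  · exact (show row 419 = r419 from rfl).trans r419_ok.symm
  · exact (show row 420 = r420 from rfl).trans r420_ok.symm
  · exact (show row 421 = r421 from rfl).trans r421_ok.symm
  · exact (show row 422 = r422 from rfl).trans r422_ok.symm
  · exact (show row 423 = r423 from rfl).trans r423_ok.symm
  · exact (show row 424 = r424 from rfl).trans r424_ok.symm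
  · exact (show row 425 = r425 from rfl).trans r425_ok.symm
  · exact (show row 426 = r426 from rfl).trans r426_ok.symm
  · exact (show row 427 = r427 from rfl).trans r427_ok.symm
  · exact (show row 428 = r428 from rfl).trans r428_ok.symm
  · exact (show row 429 = r429 from rfl).trans r429_ok.symm
  · exact (show row 430 = r430 from rfl).trans r430_ok.symm
  · exact (show row 431 = r431 from rfl).trans r431_ok.symm

private theorem re_27 : ∀ j : ℕ, j < 16 → row (16 * 27 + j) = rowF (16 * 27 + j) 448 := by
  intro j hj
  interval_cases j
  · exact (show row 432 = r432 from rfl).trans r432_ok.symm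
  · exact (show row 433 = r433 from rfl).trans r433_ok.symm
  · exact (show row 434 = r434 from rfl).trans r434_ok.symm
  · exact (show row 435 = r435 from rfl).trans r435_ok.symm
  · exact (show row 436 = r436 from rfl).trans r436_ok.symm
  · exact (show row 437 = r437 from rfl).trans r437_ok.symm
  · exact (show row 438 = r438 from rfl).trans r438_ok.symm
  · exact (show row 439 = r439 from rfl).trans r439_ok.symm
  · exact (show row 440 = r440 from rfl).trans r440_ok.symm
  · exact (show row 441 = r441 from rfl).trans r441_ok.symm
  · exact (show row 442 = r442 from rfl).trans r442_ok.symm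
  · exact (show row 443 = r443 from rfl).trans r443_ok.symm
  · exact (show row 444 = r444 from rfl).trans r444_ok.symm
  · exact (show row 445 = r445 from rfl).trans r445_ok.symm
  · exact (show row 446 = r446 from rfl).trans r446_ok.symm
  · exact (show row 447 = r447 from rfl).trans r447_ok.symm

theorem row_eq (β : ℕ) (hβ : β < 448) : row β = rowF β 448 := by
  have key : ∀ m : ℕ, m < 28 → ∀ j : ℕ, j < 16 → row (16 * m + j) = rowF (16 * m + j) 448 := by
    intro m hm
    interval_cases m
    exacts [re_0, re_1, re_2, re_3, re_4, re_5, re_6, re_7, re_8, re_9, re_10, re_11, re_12, re_13, re_14, re_15, re_16, re_17, re_18, re_19, re_20, re_21, re_22, re_23, re_24, re_25, re_26, re_27]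
  have h := key (β / 16) (by omega) (β % 16) (Nat.mod_lt _ (by norm_num))
  rwa [Nat.div_add_mod] at h

theorem bm_lt (τ : Bool) (P k : ℕ) (τ' : Bool) (P' k' : ℕ) : bm τ P k τ' P' k' < 2 ^ 80 := by
  unfold bm
  exact Nat.mod_lt _ (by positivity)

private theorem rowF_lt (β n : ℕ) : rowF β n < 2 ^ (80 * n) := by
  induction n with
  | zero =>
    show 0 < 2 ^ (80 * 0)
    exact Nat.two_pow_pos _
  | succ n ih =>
    show rowF β n ||| (bm (cT β) (cP β) (cK β) (cT n) (cP n) (cK n)) <<< (80 * n) < 2 ^ (80 * (n + 1))
    apply Nat.or_lt_two_pow
    · exact lt_of_lt_of_le ih (Nat.pow_le_pow_right (by norm_num) (by omega))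
    · rw [Nat.shiftLeft_eq]
      have e : 2 ^ (80 * (n + 1)) = 2 ^ 80 * 2 ^ (80 * n) := by
        rw [← pow_add]
        congr 1
        ring
      rw [e]
      exact Nat.mul_lt_mul_of_pos_right (bm_lt _ _ _ _ _ _) (Nat.two_pow_pos _)

theorem rowF_bit (β n β' i : ℕ) (hn : β' < n) (hi : i < 80) :
    (rowF β n).testBit (80 * β' + i) = (bm (cT β) (cP β) (cK β) (cT β') (cP β') (cK β')).testBit i := by
  induction n with
  | zero => omega
  | succ n ih =>
    show (rowF β n ||| (bm (cT β) (cP β) (cK β) (cT n) (cP n) (cK n)) <<< (80 * n)).testBit (80 * β' + i) = _
    rw [Nat.testBit_or, Nat.testBit_shiftLeft]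
    rcases Nat.lt_or_ge β' n with h | h
    · rw [ih h]
      have h2 : ¬ (80 * β' + i ≥ 80 * n) := by omega
      simp [h2]
    · have e : β' = n := by omega
      subst e
      have h3 : (rowF β β').testBit (80 * β' + i) = false := by
        apply Nat.testBit_lt_two_pow
        exact lt_of_lt_of_le (rowF_lt β β') (Nat.pow_le_pow_right (by norm_num) (by omega))
      rw [h3]
      have h2 : 80 * β' + i ≥ 80 * β' := by omega
      have h4 : 80 * β' + i - 80 * β' = i := by omega
      rw [h4]
      simp [h2]

theorem row_conf {γ : Type*} {W : ℤ → γ} (hW : Sqf W) {τ τ' : Bool} {P P' : ℕ} (h1 : 16 ≤ P) (h2 : P ≤ 43)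
    (h3 : 16 ≤ P') (h4 : P' ≤ 43) {c c' g g' : ℤ} {y y' : γ} (h : EvAt W τ P c g y) (h' : EvAt W τ' P' c' g' y')
    (hne : (g, y) ≠ (g', y')) (hd : -40 ≤ c' - c) (hd' : c' - c < 40) :
    (row (bt τ P c g)).testBit (80 * bt τ' P' c' g' + (c' - c + 40).toNat) = false := by
  obtain ⟨a1, a2, a3, a4⟩ := bt_spec h1 h2 h
  obtain ⟨b1, b2, b3, b4⟩ := bt_spec h3 h4 h'
  rw [row_eq _ a1, rowF_bit _ _ _ _ b1 (by omega), a2, a3, a4, b2, b3, b4]
  exact bm_sound hW h1 h2 h3 h4 h h' hne hd hd'

end Pool.Agent.SQB
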