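import Mathlib
import Pool.Agent.SQB.HB
import Pool.Agent.SQB.Rw
import Pool.Agent.SQF4.Blk

/-!
H2 of SQF4.Top.top with the table SQF4.BTab: the pairs with half-length q ≤ P ≤ 43 and centre in a block of length t.
-/

set_option autoImplicit false

namespace Pool.Agent.SQB

open Pool.Agent.SQF Pool.Agent.SQF4

theorem H2_tab {γ : Type*} {W : ℤ → γ} (hW : Sqf W) {Z : Finset (ℤ × γ)} {τ : ℤ × γ → Bool} {P : ℤ × γ → ℕ}
    {c : ℤ × γ → ℤ} (hwit : Wit W Z τ P c) (x : ℤ) (t q : ℕ) (htq : t + 1 ≤ q) (hS : SP q t) :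
    ∑ z ∈ (blk Z c x t).filter (fun z => q ≤ P z), aw (P z) ≤ Bt q t := by
  classical
  rcases Nat.lt_or_ge q 44 with hq44 | hq44
  swap
  · rw [Finset.sum_eq_zero]
    · exact Nat.zero_le _
    · intro z hz
      exact aw_zero (le_trans hq44 (Finset.mem_filter.1 hz).2)
  have hSb : Sb q t = true := hS
  obtain ⟨hq16, ht33, _⟩ := Sb_le (by omega) hSb
  have hz0 : ∑ z ∈ (blk Z c x t).filter (fun z => q ≤ P z), aw (P z) =
      ∑ z ∈ ((blk Z c x t).filter (fun z => q ≤ P z)).filter (fun z => P z ≤ 43), aw (P z) := by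
    symm
    apply Finset.sum_subset (Finset.filter_subset _ _)
    intro z hz hz2
    rw [Finset.mem_filter, not_and] at hz2
    have := hz2 hz
    exact aw_zero (by omega)
  rw [hz0]
  set F := ((blk Z c x t).filter (fun z => q ≤ P z)).filter (fun z => P z ≤ 43) with hF
  have hmem : ∀ z ∈ F, EvAt W (τ z) (P z) (c z) z.1 z.2 ∧ x ≤ c z ∧ c z < x + t ∧ q ≤ P z ∧ P z ≤ 43 := by
    intro z hz
    rw [hF] at hz
    obtain ⟨h1, h2⟩ := Finset.mem_filter.1 hz
    obtain ⟨h3, h4⟩ := Finset.mem_filter.1 h1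
    obtain ⟨h5, h6, h7⟩ := Finset.mem_filter.1 h3
    exact ⟨hwit.ev z h5, h6, h7, h4, h2⟩
  have hne8 : ∀ z ∈ F, ∀ z' ∈ F, z ≠ z' → bt (τ z) (P z) (c z) z.1 / 8 ≠ bt (τ z') (P z') (c z') z'.1 / 8 := by
    intro z hz z' hz' hzz hbb
    obtain ⟨e1, x1, y1, q1, p1⟩ := hmem z hz
    obtain ⟨e2, x2, y2, q2, p2⟩ := hmem z' hz'
    obtain ⟨-, a2, a3, -⟩ := bt_spec (by omega) p1 e1
    obtain ⟨-, b2, b3, -⟩ := bt_spec (by omega) p2 e2
    have hP : P z = P z' := by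
      rw [← a2, ← b2]
      unfold cP
      omega
    have hT : τ z = τ z' := by
      rw [← a3, ← b3]
      unfold cT
      rw [hbb]
    rw [← hP, ← hT] at e2
    have hs := same_pair hW e1 e2 (by omega) (by omega)
    exact hzz (Prod.ext hs.1 hs.2)
  let f : ℤ × γ → ℕ × ℤ := fun z => (bt (τ z) (P z) (c z) z.1, c z)
  have hinj : Set.InjOn f F := by
    intro z hz z' hz' hzz
    by_contra hne
    apply hne8 z hz z' hz' hne
    have h3 : (f z).1 = (f z').1 := by rw [hzz]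
    have h4 : bt (τ z) (P z) (c z) z.1 = bt (τ z') (P z') (c z') z'.1 := h3
    rw [h4]
  have hsum : ∑ z ∈ F, aw (P z) = ∑ v ∈ F.image f, aw (cP v.1) := by
    rw [Finset.sum_image hinj]
    apply Finset.sum_congr rfl
    intro z hz
    obtain ⟨e1, x1, y1, q1, p1⟩ := hmem z hz
    obtain ⟨-, a2, -, -⟩ := bt_spec (by omega) p1 e1
    show aw (P z) = aw (cP (bt (τ z) (P z) (c z) z.1))
    rw [a2]
  rw [hsum]
  refine HB (by omega) hSb (F.image f) ?_ ?_
  · intro v hv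
    obtain ⟨z, hz, rfl⟩ := Finset.mem_image.1 hv
    obtain ⟨e1, x1, y1, q1, p1⟩ := hmem z hz
    obtain ⟨a1, a2, -, -⟩ := bt_spec (by omega) p1 e1
    refine ⟨a1, ?_⟩
    show q ≤ cP (bt (τ z) (P z) (c z) z.1)
    rw [a2]
    exact q1
  · intro u hu v hv huv
    obtain ⟨z, hz, rfl⟩ := Finset.mem_image.1 hu
    obtain ⟨z', hz', rfl⟩ := Finset.mem_image.1 hv
    have hzz : z ≠ z' := fun h => huv (by rw [h])
    obtain ⟨e1, x1, y1, q1, p1⟩ := hmem z hz
    obtain ⟨e2, x2, y2, q2, p2⟩ := hmem z' hz'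
    refine ⟨hne8 z hz z' hz' hzz, ?_, ?_⟩
    · show |c z - c z'| < (t : ℤ)
      rw [abs_lt]
      omega
    · show (row (bt (τ z) (P z) (c z) z.1)).testBit (80 * bt (τ z') (P z') (c z') z'.1 + (c z' - c z + 40).toNat) = false
      rw [row_conf hW (by omega) p1 (by omega) p2 e1 e2 ?_ (by omega) (by omega)]
      intro he
      exact hzz (Prod.ext (Prod.mk.inj he).1 (Prod.mk.inj he).2)

end Pool.Agent.SQB
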