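import Pool.Agent.SQB.Tab

/-!
Branch and bound for weighted cliques, in the form which the kernel evaluates. Sets of vertices are numbers;
vertex v = 80 β + i, β = class, i - 40 = difference of the centres (event - root event).
wl = list of the weights of P = 16, 17, ..., 43 (nonincreasing). frc q k = k q evaluates q first (small numbers only:
the sets stay unevaluated expressions, evaluated once by the cache).
No property of the hints (lowest block, logarithms) is needed for the soundness (i + m ≤ 80 is checked).
-/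

set_option autoImplicit false

namespace Pool.Agent.SQB

/-- evaluate q, then continue -/
noncomputable def frc {α : Type} (q : ℕ) (k : ℕ → α) : α :=
  Nat.rec (motive := fun _ => α) (k 0) (fun n _ => k (Nat.succ n)) q

/-- repeat a pattern of 80 bits n times -/
def rep (p : ℕ) : ℕ → ℕ
  | 0 => 0
  | n + 1 => rep p n ||| p <<< (80 * n)

/-- the centre differences i with |i - 40| ≥ t -/
def spr (t : ℕ) : ℕ := rep ((2 ^ 80 - 1) ^^^ im (41 - t) (39 + t)) 448

/-- the n-th element of a list, 0 beyond the end -/
noncomputable def nth (wl : List ℕ) : ℕ → ℕ := List.rec (motive := fun _ => ℕ → ℕ) (fun _ => 0)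
  (fun x _ ih n => cond (Nat.beq n 0) x (ih (Nat.sub n 1))) wl

/-- hint: logarithm of X = 2 ^ i, i < 88 -/
noncomputable def lg (X : ℕ) : ℕ :=
  frc (Nat.mod X 255) (fun L => Nat.add (Nat.mul 8 (Nat.div (Nat.mod (Nat.div X L) 65025) 255))
    (nth [0, 0, 1, 0, 2, 4, 0, 7, 3, 6, 5] (Nat.mod L 11)))

/-- hint: block of the lowest bit of q and its position inside the block, as a power of 2 -/
noncomputable def low {α : Type} (q : ℕ) (k : ℕ → ℕ → α) : α :=
  frc (Nat.mod (Nat.gcd q (Nat.pow 2 35840)) 1208925819614629174706175) (fun X =>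
    frc (Nat.div (Nat.mod (Nat.div (Nat.gcd q (Nat.pow 2 35840)) X)
      1461501637330902918203682414864643790397583130625) 1208925819614629174706175) (fun β => k β X))

/-- the first run of ones of q: block β, start i, length m; only i + m ≤ 80 is checked; default value d -/
noncomputable def run {α : Type} (q : ℕ) (d : α) (k : ℕ → ℕ → ℕ → α) : α :=
  low q (fun β X => frc (Nat.gcd (Nat.add (Nat.mod (Nat.shiftRight q (Nat.mul 80 β)) 1208925819614629174706176) X)
    2417851639229258349412352) (fun Y => frc (lg X) (fun i => frc (lg (Nat.div Y X)) (fun m =>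
      cond (Nat.ble (Nat.add i m) 80) (k β i m) d))))

/-- the positions in conflict with (β, 40), (β, 41), ..., (β, 40 + l) -/
noncomputable def ero (SM β l : ℕ) : ℕ :=
  Nat.rec (motive := fun _ => ℕ) (Nat.lor (row β) SM)
    (fun n ih => Nat.land ih (Nat.shiftLeft (Nat.lor (row β) SM) (Nat.succ n))) l

/-- the elements of q in conflict with all of (β, i), ..., (β, i + m - 1) -/
noncomputable def cf (SM β i m q : ℕ) : ℕ :=
  Nat.shiftRight (Nat.shiftLeft (Nat.land (Nat.shiftRight (Nat.shiftLeft q 40) i) (ero SM β (Nat.sub m 1))) i) 40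

/-- the elements (β, i), ..., (β, i + m - 1) of q -/
noncomputable def pick (β i m q : ℕ) : ℕ :=
  Nat.land (Nat.shiftLeft (Nat.sub (Nat.pow 2 m) 1) (Nat.add (Nat.mul 80 β) i)) q

/-- greedy independent set -/
noncomputable def ind (SM f : ℕ) : ℕ → ℕ :=
  Nat.rec (motive := fun _ => ℕ → ℕ) (fun _ => 0)
    (fun _ ih q => cond (Nat.beq q 0) 0
      (run q 0 (fun β i m => Nat.lor (pick β i m q) (ih (cf SM β i m (Nat.xor q (pick β i m q))))))) f

/-- colour classes -/
noncomputable def cola (SM f : ℕ) : ℕ → List ℕ :=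
  Nat.rec (motive := fun _ => ℕ → List ℕ) (fun _ => [])
    (fun _ ih q => cond (Nat.beq q 0) [] (ind SM 2000 q :: ih (Nat.xor q (Nat.land q (ind SM 2000 q))))) f

/-- an upper bound w ≤ b for the weight of all the elements of x; fails if not found or too large -/
noncomputable def wle (wl : List ℕ) (x b : ℕ) (k : ℕ → Bool) : Bool :=
  low x (fun β _ => cond (Nat.beq (Nat.mod x (Nat.pow 2 (Nat.mul 80 β))) 0)
    (frc (nth wl (Nat.div β 16)) (fun w => cond (Nat.ble w b) (k w) false)) false)

/-- the classes cover q with total weight at most b -/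
noncomputable def bnd (wl cl : List ℕ) : ℕ → ℕ → Bool :=
  List.rec (motive := fun _ => ℕ → ℕ → Bool) (fun q _ => Nat.beq q 0)
    (fun I _ ih q b => frc b (fun b => cond (Nat.beq (Nat.land q I) 0) (ih q b)
      (wle wl (Nat.land q I) b (fun w => ih (Nat.xor q (Nat.land q I)) (Nat.sub b w))))) cl

/-- greedy colouring within the budget -/
noncomputable def colq (SM : ℕ) (wl : List ℕ) (f : ℕ) : ℕ → ℕ → Bool :=
  Nat.rec (motive := fun _ => ℕ → ℕ → Bool) (fun _ _ => false)
    (fun _ ih q b => frc b (fun b => cond (Nat.beq q 0) true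
      (wle wl q b (fun w => ih (Nat.xor q (Nat.land q (ind SM 2000 q))) (Nat.sub b w))))) f

/-- hint: union of the classes from the first one which does not fit in the budget b -/
noncomputable def spl (wl cl : List ℕ) : ℕ → ℕ :=
  List.rec (motive := fun _ => ℕ → ℕ) (fun _ => 0)
    (fun I l ih b => low I (fun β _ => frc (nth wl (Nat.div β 16)) (fun w => cond (Nat.ble w b) (frc (Nat.sub b w) ih)
      (List.rec (motive := fun _ => ℕ) I (fun J _ r => Nat.lor J r) l)))) cl

/-- one element of the box (β, i), ..., (β, i + m - 1), rest in c, budget b -/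
noncomputable def box (SM : ℕ) (wl cl : List ℕ) (ex : ℕ → ℕ → Bool) (β b c : ℕ) (f : ℕ) : ℕ → ℕ → Bool :=
  Nat.rec (motive := fun _ => ℕ → ℕ → Bool) (fun _ _ => false)
    (fun _ ih i m => frc i (fun i => frc m (fun m =>
      cond (Nat.ble m 1) (ex (Nat.xor c (cf SM β i m c)) b)
      (cond (bnd wl cl (Nat.xor c (cf SM β i m c)) b) true
      (cond (colq SM wl 30 (Nat.xor c (cf SM β i m c)) b) true
      (cond (ih i (Nat.div m 2)) (ih (Nat.add i (Nat.div m 2)) (Nat.sub m (Nat.div m 2))) false)))))) f

/-- branch over the runs of r; c = current set -/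
noncomputable def brn (SM : ℕ) (wl cl : List ℕ) (ex : ℕ → ℕ → Bool) (b : ℕ) (f : ℕ) : ℕ → ℕ → Bool :=
  Nat.rec (motive := fun _ => ℕ → ℕ → Bool) (fun _ _ => false)
    (fun _ ih r c => cond (Nat.beq r 0) (bnd wl cl c b)
      (run r false (fun β i m => frc (nth wl (Nat.div β 16)) (fun w => cond (Nat.ble w b)
        (cond (box SM wl cl ex β (Nat.sub b w) (Nat.xor c (pick β i m c)) 8 i m)
          (ih (Nat.xor r (pick β i m r)) (Nat.xor c (pick β i m c))) false)
        false)))) f

/-- branch and bound -/
noncomputable def exd (SM : ℕ) (wl : List ℕ) (f : ℕ) : List ℕ → ℕ → ℕ → Bool :=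
  Nat.rec (motive := fun _ => List ℕ → ℕ → ℕ → Bool) (fun _ _ _ => false)
    (fun _ ih cl q b => frc b (fun b => cond (bnd wl cl q b) true
      (brn SM wl (cola SM 200 q) (ih (cola SM 200 q)) b 5000 (spl wl (cola SM 200 q) b) q))) f

/-- the part of M above the block β -/
noncomputable def abv (M β : ℕ) : ℕ :=
  Nat.shiftLeft (Nat.shiftRight M (Nat.mul 80 (Nat.succ β))) (Nat.mul 80 (Nat.succ β))

/-- candidates for the root class β: higher classes, |centre difference| < t, no conflict with the centre -/
noncomputable def cnd (M β : ℕ) : ℕ := Nat.xor (abv M β) (Nat.land (abv M β) (row β))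

/-- root node; M = all the positions with |centre difference| < t -/
noncomputable def root (M SM : ℕ) (wl : List ℕ) (b β : ℕ) : Bool :=
  frc (nth wl (Nat.div β 16)) (fun w => cond (Nat.ble w b) (exd SM wl 8 [] (cnd M β) (Nat.sub b w)) false)

/-- the classes β, β + 1, ..., β + n - 1 -/
noncomputable def lev (wl : List ℕ) (t b β n : ℕ) : Bool :=
  Nat.rec (motive := fun _ => Bool) true
    (fun j ih => cond (frc (Nat.add β j) (root (rep (im (41 - t) (39 + t)) 448) (spr t) wl b)) ih false) n

end Pool.Agent.SQB
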