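import Pool.Agent.SQB.BB

/-!
A root node in pieces: skip s runs, then check m runs (chm) or all the remaining ones (brn).
-/

set_option autoImplicit false

namespace Pool.Agent.SQB

/-- the weights of P = 16, ..., 43 in thousandths -/
def wlist : List ℕ := [1000, 1000, 1000, 1000, 1000, 1000, 1000, 1000, 1000, 1000, 1000, 1000, 1000, 1000, 1000,
  929, 857, 786, 714, 640, 571, 496, 429, 297, 247, 172, 122, 46]

/-- skip s runs -/
noncomputable def skp (s : ℕ) : ℕ → ℕ → (ℕ → ℕ → Bool) → Bool :=
  Nat.rec (motive := fun _ => ℕ → ℕ → (ℕ → ℕ → Bool) → Bool) (fun r c k => k r c)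
    (fun _ ih r c k => run r false (fun β i m => ih (Nat.xor r (pick β i m r)) (Nat.xor c (pick β i m c)) k)) s

/-- check n runs -/
noncomputable def chm (SM : ℕ) (wl cl : List ℕ) (ex : ℕ → ℕ → Bool) (b : ℕ) (n : ℕ) : ℕ → ℕ → Bool :=
  Nat.rec (motive := fun _ => ℕ → ℕ → Bool) (fun _ _ => true)
    (fun _ ih r c => cond (Nat.beq r 0) (bnd wl cl c b)
      (run r false (fun β i m => frc (nth wl (Nat.div β 16)) (fun w => cond (Nat.ble w b)
        (cond (box SM wl cl ex β (Nat.sub b w) (Nat.xor c (pick β i m c)) 8 i m)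
          (ih (Nat.xor r (pick β i m r)) (Nat.xor c (pick β i m c))) false)
        false)))) n

/-- the branching set of the root -/
noncomputable def rR (SM : ℕ) (wl : List ℕ) (b q : ℕ) : ℕ := spl wl (cola SM 200 q) b

/-- the runs s, ..., s + n - 1 of the root β -/
noncomputable def rp (wl : List ℕ) (t b β s n : ℕ) : Bool :=
  frc (nth wl (Nat.div β 16)) (fun w => frc (Nat.sub b w) (fun b =>
    skp s (rR (spr t) wl b (cnd (rep (im (41 - t) (39 + t)) 448) β)) (cnd (rep (im (41 - t) (39 + t)) 448) β)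
      (chm (spr t) wl (cola (spr t) 200 (cnd (rep (im (41 - t) (39 + t)) 448) β))
        (exd (spr t) wl 7 (cola (spr t) 200 (cnd (rep (im (41 - t) (39 + t)) 448) β))) b n)))

/-- all the runs from the number s -/
noncomputable def re (wl : List ℕ) (t b β s : ℕ) : Bool :=
  frc (nth wl (Nat.div β 16)) (fun w => frc (Nat.sub b w) (fun b =>
    skp s (rR (spr t) wl b (cnd (rep (im (41 - t) (39 + t)) 448) β)) (cnd (rep (im (41 - t) (39 + t)) 448) β)
      (brn (spr t) wl (cola (spr t) 200 (cnd (rep (im (41 - t) (39 + t)) 448) β))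
        (exd (spr t) wl 7 (cola (spr t) 200 (cnd (rep (im (41 - t) (39 + t)) 448) β))) b 5000)))

end Pool.Agent.SQB
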