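import Mathlib
import Pool.Agent.SQB.BB
import Pool.Agent.SQB.Cf

/-!
Soundness of the branch and bound: `lev_sound`. Vertex v = 80 β + i. K t u v: the vertices u and v exclude each other.
-/

set_option autoImplicit false

namespace Pool.Agent.SQB

theorem frc_eq {α : Type} (q : ℕ) (k : ℕ → α) : frc q k = k q := by
  cases q <;> rfl

/-- u and v exclude each other -/
def Cj (t u v : ℕ) : Prop := u / 80 = v / 80 ∨ v % 80 + t ≤ u % 80 ∨ u % 80 + t ≤ v % 80 ∨
  (row (u / 80)).testBit (80 * (v / 80) + (v % 80 + 40 - u % 80)) = true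

def K (t u v : ℕ) : Prop := Cj t u v ∨ Cj t v u

/-- pairwise no exclusion -/
def Clq (t : ℕ) (E : Finset ℕ) : Prop := ∀ u ∈ E, ∀ v ∈ E, u ≠ v → ¬ K t u v

/-- the elements of E are bits of q -/
def In (E : Finset ℕ) (q : ℕ) : Prop := ∀ v ∈ E, q.testBit v = true

/-- independent set -/
def Ind (t I : ℕ) : Prop := ∀ u v : ℕ, I.testBit u = true → I.testBit v = true → u ≠ v → K t u v

noncomputable def wt (wl : List ℕ) (v : ℕ) : ℕ := nth wl (v / 80 / 16)

theorem K_symm {t u v : ℕ} (h : K t u v) : K t v u := Or.symm h

theorem Clq.sub {t : ℕ} {E F : Finset ℕ} (h : Clq t E) (hF : F ⊆ E) : Clq t F :=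
  fun u hu v hv => h u (hF hu) v (hF hv)

theorem rep_lt (p : ℕ) (hp : p < 2 ^ 80) (n : ℕ) : rep p n < 2 ^ (80 * n) := by
  induction n with
  | zero => exact Nat.one_pos
  | succ n ih =>
    apply Nat.or_lt_two_pow
    · exact lt_of_lt_of_le ih (Nat.pow_le_pow_right (by norm_num) (by omega))
    · rw [Nat.shiftLeft_eq, show 80 * (n + 1) = 80 + 80 * n by ring, pow_add]
      exact Nat.mul_lt_mul_of_pos_right hp (by positivity)

theorem rep_bit (p : ℕ) (hp : p < 2 ^ 80) (n β x : ℕ) (hx : x < 80) (h : (rep p n).testBit (80 * β + x) = true) :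
    p.testBit x = true := by
  induction n with
  | zero =>
    rw [rep, Nat.zero_testBit] at h
    exact absurd h (by simp)
  | succ n ih =>
    rw [rep, Nat.testBit_or, Bool.or_eq_true] at h
    rcases h with h | h
    · exact ih h
    · rw [Nat.testBit_shiftLeft, Bool.and_eq_true, decide_eq_true_eq] at h
      obtain ⟨h1, h2⟩ := h
      have h3 : 80 * β + x - 80 * n < 80 := by
        by_contra h4
        rw [Nat.testBit_eq_false_of_lt (lt_of_lt_of_le hp (Nat.pow_le_pow_right (by norm_num) (by omega)))] at h2
        exact absurd h2 (by simp)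
      have h4 : β = n := by omega
      subst h4
      rwa [Nat.add_sub_cancel_left] at h2

theorem rep_bit' (p : ℕ) (n β x : ℕ) (hβ : β < n) (h : p.testBit x = true) :
    (rep p n).testBit (80 * β + x) = true := by
  induction n with
  | zero => omega
  | succ n ih =>
    rw [rep, Nat.testBit_or, Bool.or_eq_true]
    by_cases hb : β < n
    · exact Or.inl (ih hb)
    · right
      have h4 : β = n := by omega
      subst h4
      rw [Nat.testBit_shiftLeft, Bool.and_eq_true, decide_eq_true_eq]
      exact ⟨by omega, by rwa [Nat.add_sub_cancel_left]⟩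

theorem im_lt (lo hi n : ℕ) (h : hi < n) : im lo hi < 2 ^ n := by
  unfold im
  have h1 : 2 ^ (hi + 1) ≤ 2 ^ n := Nat.pow_le_pow_right (by norm_num) (by omega)
  have h2 : 0 < 2 ^ lo := by positivity
  have h3 : 0 < 2 ^ n := by positivity
  have h4 : 0 < 2 ^ (hi + 1) := by positivity
  cases Nat.ble lo hi
  · exact h3
  · rw [cond_true]
    omega

theorem spr_bit (t : ℕ) (ht : t ≤ 40) (β x : ℕ) (hx : x < 80) (h : (spr t).testBit (80 * β + x) = true) :
    x + t ≤ 40 ∨ 40 + t ≤ x := by
  have h1 := rep_bit _ (Nat.xor_lt_two_pow (by norm_num) (im_lt (41 - t) (39 + t) 80 (by omega))) _ _ _ hx h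
  rw [Nat.testBit_xor, Nat.testBit_two_pow_sub_one, decide_eq_true hx, Bool.true_xor, Bool.not_eq_true',
    ← Bool.not_eq_true, im_bit] at h1
  omega

theorem ero_bit (SM β l p : ℕ) (h : (ero SM β l).testBit p = true) (j : ℕ) (hj : j ≤ l) :
    j ≤ p ∧ ((row β).testBit (p - j) = true ∨ SM.testBit (p - j) = true) := by
  induction l with
  | zero =>
    have h1 : ero SM β 0 = row β ||| SM := rfl
    rw [h1, Nat.testBit_or, Bool.or_eq_true] at h
    have h2 : j = 0 := by omega
    subst h2
    exact ⟨Nat.zero_le _, h⟩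
  | succ l ih =>
    have h1 : ero SM β (l + 1) = ero SM β l &&& (row β ||| SM) <<< (l + 1) := rfl
    rw [h1, Nat.testBit_and, Bool.and_eq_true] at h
    by_cases hjl : j ≤ l
    · exact ih h.1 hjl
    · have h2 : j = l + 1 := by omega
      subst h2
      have h3 := h.2
      rw [Nat.testBit_shiftLeft, Bool.and_eq_true, decide_eq_true_eq, Nat.testBit_or, Bool.or_eq_true] at h3
      exact h3

theorem cf_bit (t : ℕ) (ht : t ≤ 40) (β i m q v : ℕ) (him : i + m ≤ 80)
    (h : (cf (spr t) β i m q).testBit v = true) :
    q.testBit v = true ∧ ∀ j < m, Cj t (80 * β + (i + j)) v := by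
  have h1 : cf (spr t) β i m q = (((q <<< 40) >>> i &&& ero (spr t) β (m - 1)) <<< i) >>> 40 := rfl
  rw [h1, Nat.testBit_shiftRight, Nat.testBit_shiftLeft, Bool.and_eq_true, decide_eq_true_eq, Nat.testBit_and,
    Bool.and_eq_true, Nat.testBit_shiftRight, Nat.testBit_shiftLeft, Bool.and_eq_true] at h
  obtain ⟨h2, ⟨h3, h4⟩, h5⟩ := h
  constructor
  · rwa [show i + (40 + v - i) - 40 = v by omega] at h4
  · intro j hj
    have e1 : (80 * β + (i + j)) / 80 = β := by omega
    have e2 : (80 * β + (i + j)) % 80 = i + j := by omega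
    unfold Cj
    rw [e1, e2]
    by_cases c2 : v % 80 + t ≤ i + j
    · exact Or.inr (Or.inl c2)
    by_cases c3 : i + j + t ≤ v % 80
    · exact Or.inr (Or.inr (Or.inl c3))
    right; right; right
    obtain ⟨h6, h7⟩ := ero_bit _ _ _ _ h5 j (by omega)
    have e3 : 40 + v - i - j = 80 * (v / 80) + (v % 80 + 40 - (i + j)) := by omega
    rw [e3] at h7
    rcases h7 with h7 | h7
    · exact h7
    · have := spr_bit t ht _ _ (by omega) h7
      omega

theorem pick_bit (β i m q v : ℕ) :
    (pick β i m q).testBit v = true ↔ (80 * β + i ≤ v ∧ v < 80 * β + i + m) ∧ q.testBit v = true := by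
  have h1 : pick β i m q = (2 ^ m - 1) <<< (80 * β + i) &&& q := rfl
  rw [h1, Nat.testBit_and, Bool.and_eq_true, Nat.testBit_shiftLeft, Bool.and_eq_true, decide_eq_true_eq,
    Nat.testBit_two_pow_sub_one, decide_eq_true_eq]
  constructor
  · rintro ⟨⟨a, b⟩, c⟩
    exact ⟨⟨a, by omega⟩, c⟩
  · rintro ⟨⟨a, b⟩, c⟩
    exact ⟨⟨a, by omega⟩, c⟩

theorem run_cases {α : Type} (q : ℕ) (d : α) (k : ℕ → ℕ → ℕ → α) :
    run q d k = d ∨ ∃ β i m, i + m ≤ 80 ∧ run q d k = k β i m := by
  unfold run low
  simp only [frc_eq]
  generalize (lg (Nat.mod (Nat.gcd q (Nat.pow 2 35840)) 1208925819614629174706175)) = i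
  generalize (lg (Nat.div _ _)) = m
  cases h : Nat.ble (Nat.add i m) 80 with
  | false => exact Or.inl rfl
  | true => exact Or.inr ⟨_, i, m, Nat.le_of_ble_eq_true h, rfl⟩

theorem low_ex {α : Type} (q : ℕ) (k : ℕ → ℕ → α) : ∃ β X, low q k = k β X := by
  unfold low
  simp only [frc_eq]
  exact ⟨_, _, rfl⟩

theorem xor_bit (q y v : ℕ) (h1 : q.testBit v = true) (h2 : y.testBit v = false) :
    (Nat.xor q y).testBit v = true := by
  have : (q ^^^ y).testBit v = true := by
    rw [Nat.testBit_xor, h1, h2]
    rfl
  exact this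

theorem xor_bit' (q y v : ℕ) (h : (Nat.xor q y).testBit v = true) (hy : y.testBit v = true → q.testBit v = true) :
    q.testBit v = true ∧ y.testBit v = false := by
  have h' : (q ^^^ y).testBit v = true := h
  rw [Nat.testBit_xor] at h'
  cases hq : q.testBit v <;> cases hy' : y.testBit v <;> rw [hq, hy'] at h'
  · exact absurd h' (by simp)
  · rw [hy hy'] at hq
    exact absurd hq (by simp)
  · exact ⟨rfl, rfl⟩
  · exact absurd h' (by simp)

/-- greedy sets are independent subsets -/
theorem ind_ok (t : ℕ) (ht : t ≤ 40) (f q : ℕ) :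
    (∀ v, (ind (spr t) f q).testBit v = true → q.testBit v = true) ∧ Ind t (ind (spr t) f q) := by
  induction f generalizing q with
  | zero =>
    have h0 : ind (spr t) 0 q = 0 := rfl
    rw [h0]
    exact ⟨fun v h => absurd h (by rw [Nat.zero_testBit]; simp),
      fun u v h => absurd h (by rw [Nat.zero_testBit]; simp)⟩
  | succ f ih =>
    have h0 : ind (spr t) (f + 1) q = cond (Nat.beq q 0) 0
      (run q 0 (fun β i m => Nat.lor (pick β i m q)
        (ind (spr t) f (cf (spr t) β i m (Nat.xor q (pick β i m q)))))) := rfl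
    rw [h0]
    cases Nat.beq q 0 with
    | true =>
      rw [cond_true]
      exact ⟨fun v h => absurd h (by rw [Nat.zero_testBit]; simp),
        fun u v h => absurd h (by rw [Nat.zero_testBit]; simp)⟩
    | false =>
      rw [cond_false]
      rcases run_cases q 0 (fun β i m => Nat.lor (pick β i m q)
        (ind (spr t) f (cf (spr t) β i m (Nat.xor q (pick β i m q))))) with e | ⟨β, i, m, him, e⟩
      · rw [e]
        exact ⟨fun v h => absurd h (by rw [Nat.zero_testBit]; simp),
          fun u v h => absurd h (by rw [Nat.zero_testBit]; simp)⟩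
      · rw [e]
        obtain ⟨i1, i2⟩ := ih (cf (spr t) β i m (Nat.xor q (pick β i m q)))
        have key : ∀ v, (ind (spr t) f (cf (spr t) β i m (Nat.xor q (pick β i m q)))).testBit v = true →
            q.testBit v = true ∧ ∀ u, (pick β i m q).testBit u = true → Cj t u v := by
          intro v hv
          obtain ⟨c1, c2⟩ := cf_bit t ht β i m _ v him (i1 v hv)
          obtain ⟨c3, c4⟩ := xor_bit' _ _ _ c1 (fun h => ((pick_bit β i m q v).1 h).2)
          refine ⟨c3, fun u hu => ?_⟩
          obtain ⟨⟨u1, u2⟩, u3⟩ := (pick_bit β i m q u).1 hu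
          have := c2 (u - 80 * β - i) (by omega)
          rwa [show 80 * β + (i + (u - 80 * β - i)) = u by omega] at this
        have hor : ∀ v, (Nat.lor (pick β i m q)
            (ind (spr t) f (cf (spr t) β i m (Nat.xor q (pick β i m q))))).testBit v = true →
            (pick β i m q).testBit v = true ∨
            (ind (spr t) f (cf (spr t) β i m (Nat.xor q (pick β i m q)))).testBit v = true := by
          intro v hv
          have hv' : (pick β i m q |||
            (ind (spr t) f (cf (spr t) β i m (Nat.xor q (pick β i m q))))).testBit v = true := hv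
          rwa [Nat.testBit_or, Bool.or_eq_true] at hv'
        constructor
        · intro v hv
          rcases hor v hv with h | h
          · exact ((pick_bit β i m q v).1 h).2
          · exact (key v h).1
        · intro u v hu hv huv
          rcases hor u hu with h | h <;> rcases hor v hv with h' | h'
          · have a1 := ((pick_bit β i m q u).1 h).1
            have a2 := ((pick_bit β i m q v).1 h').1
            exact Or.inl (Or.inl (by omega))
          · exact Or.inl ((key v h').2 u h)
          · exact Or.inr ((key u h).2 v h')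
          · exact i2 u v h h' huv

theorem cola_ok (t : ℕ) (ht : t ≤ 40) (f q : ℕ) : ∀ I ∈ cola (spr t) f q, Ind t I := by
  induction f generalizing q with
  | zero =>
    intro I hI
    have h0 : cola (spr t) 0 q = [] := rfl
    rw [h0] at hI
    exact absurd hI (by simp)
  | succ f ih =>
    intro I hI
    have h0 : cola (spr t) (f + 1) q = cond (Nat.beq q 0) []
      (ind (spr t) 2000 q :: cola (spr t) f (Nat.xor q (Nat.land q (ind (spr t) 2000 q)))) := rfl
    rw [h0] at hI
    cases hq : Nat.beq q 0 with
    | true =>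
      rw [hq, cond_true] at hI
      exact absurd hI (by simp)
    | false =>
      rw [hq, cond_false, List.mem_cons] at hI
      rcases hI with rfl | hI
      · exact (ind_ok t ht _ _).2
      · exact ih _ I hI

/-- antitone weights -/
def Anti (wl : List ℕ) : Prop := ∀ a b : ℕ, a ≤ b → nth wl b ≤ nth wl a

theorem mod_zero_bit (x n v : ℕ) (h : x % 2 ^ n = 0) (hv : x.testBit v = true) : n ≤ v := by
  by_contra h2
  have h3 : (x % 2 ^ n).testBit v = true := by
    rw [Nat.testBit_mod_two_pow, hv]
    simp
    omega
  rw [h, Nat.zero_testBit] at h3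
  exact absurd h3 (by simp)

theorem wle_ok {wl : List ℕ} (hw : Anti wl) (x b : ℕ) (k : ℕ → Bool) (h : wle wl x b k = true) :
    ∃ w, w ≤ b ∧ k w = true ∧ ∀ v, x.testBit v = true → wt wl v ≤ w := by
  unfold wle at h
  obtain ⟨β, X, e⟩ := low_ex x (fun β _ => cond (Nat.beq (Nat.mod x (Nat.pow 2 (Nat.mul 80 β))) 0)
    (frc (nth wl (Nat.div β 16)) (fun w => cond (Nat.ble w b) (k w) false)) false)
  rw [e] at h
  cases h1 : Nat.beq (Nat.mod x (Nat.pow 2 (Nat.mul 80 β))) 0 with
  | false =>
    rw [h1, cond_false] at h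
    exact absurd h (by simp)
  | true =>
    rw [h1, cond_true, frc_eq] at h
    cases h2 : Nat.ble (nth wl (Nat.div β 16)) b with
    | false =>
      rw [h2, cond_false] at h
      exact absurd h (by simp)
    | true =>
      rw [h2, cond_true] at h
      refine ⟨_, Nat.le_of_ble_eq_true h2, h, fun v hv => ?_⟩
      have h3 : 80 * β ≤ v := mod_zero_bit x (80 * β) v (Nat.eq_of_beq_eq_true h1) hv
      exact hw (β / 16) (v / 80 / 16) (by omega)

/-- one colour class costs at most w -/
theorem step_sum {t : ℕ} {wl : List ℕ} {E : Finset ℕ} (hE : Clq t E) {x : ℕ} (hx : Ind t x) {w b : ℕ} (hwb : w ≤ b)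
    (hw : ∀ v, x.testBit v = true → wt wl v ≤ w)
    (h : ∑ v ∈ E.filter (fun v => ¬ x.testBit v = true), wt wl v ≤ b - w) : ∑ v ∈ E, wt wl v ≤ b := by
  rw [← Finset.sum_filter_add_sum_filter_not E (fun v => x.testBit v = true)]
  have h1 : ∑ v ∈ E.filter (fun v => x.testBit v = true), wt wl v ≤ w := by
    rcases (E.filter (fun v => x.testBit v = true)).eq_empty_or_nonempty with h2 | ⟨u, hu⟩
    · rw [h2, Finset.sum_empty]
      exact Nat.zero_le _
    · have h3 : E.filter (fun v => x.testBit v = true) = {u} := by
        rw [Finset.eq_singleton_iff_unique_mem]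
        refine ⟨hu, fun v hv => ?_⟩
        by_contra hne
        rw [Finset.mem_filter] at hu hv
        exact hE v hv.1 u hu.1 hne (hx v u hv.2 hu.2 hne)
      rw [h3, Finset.sum_singleton]
      exact hw u (Finset.mem_filter.1 hu).2
  omega

theorem Ind.sub {t I J : ℕ} (h : Ind t I) (hJ : ∀ v, J.testBit v = true → I.testBit v = true) : Ind t J :=
  fun u v hu hv => h u v (hJ u hu) (hJ v hv)

theorem land_bit (q I v : ℕ) : (Nat.land q I).testBit v = true ↔ q.testBit v = true ∧ I.testBit v = true := by
  have : (q &&& I).testBit v = true ↔ q.testBit v = true ∧ I.testBit v = true := by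
    rw [Nat.testBit_and, Bool.and_eq_true]
  exact this

theorem bnd_ok {t : ℕ} {wl : List ℕ} (hw : Anti wl) (cl : List ℕ) (hcl : ∀ I ∈ cl, Ind t I) (q b : ℕ)
    (h : bnd wl cl q b = true) (E : Finset ℕ) (hE : Clq t E) (hq : In E q) : ∑ v ∈ E, wt wl v ≤ b := by
  induction cl generalizing q b E with
  | nil =>
    have h0 : bnd wl [] q b = Nat.beq q 0 := rfl
    rw [h0] at h
    have h1 := Nat.eq_of_beq_eq_true h
    have h2 : E = ∅ := by
      rw [Finset.eq_empty_iff_forall_notMem]
      intro v hv
      have := hq v hv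
      rw [h1, Nat.zero_testBit] at this
      exact absurd this (by simp)
    rw [h2, Finset.sum_empty]
    exact Nat.zero_le _
  | cons I l ih =>
    have h0 : bnd wl (I :: l) q b = frc b (fun b => cond (Nat.beq (Nat.land q I) 0) (bnd wl l q b)
      (wle wl (Nat.land q I) b (fun w => bnd wl l (Nat.xor q (Nat.land q I)) (Nat.sub b w)))) := rfl
    rw [h0, frc_eq] at h
    have hI := hcl I (List.mem_cons_self ..)
    have hl : ∀ J ∈ l, Ind t J := fun J hJ => hcl J (List.mem_cons_of_mem _ hJ)
    cases h1 : Nat.beq (Nat.land q I) 0 with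
    | true =>
      rw [h1, cond_true] at h
      exact ih hl q b h E hE hq
    | false =>
      rw [h1, cond_false] at h
      obtain ⟨w, w1, w2, w3⟩ := wle_ok hw _ _ _ h
      have hx : Ind t (Nat.land q I) := hI.sub (fun v hv => ((land_bit q I v).1 hv).2)
      apply step_sum hE hx w1 w3
      apply ih hl _ _ w2 _ (hE.sub (Finset.filter_subset _ _))
      intro v hv
      rw [Finset.mem_filter] at hv
      exact xor_bit _ _ _ (hq v hv.1) (by simpa using hv.2)

theorem colq_ok {t : ℕ} (ht : t ≤ 40) {wl : List ℕ} (hw : Anti wl) (f q b : ℕ)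
    (h : colq (spr t) wl f q b = true) (E : Finset ℕ) (hE : Clq t E) (hq : In E q) : ∑ v ∈ E, wt wl v ≤ b := by
  induction f generalizing q b E with
  | zero =>
    have h0 : colq (spr t) wl 0 q b = false := rfl
    rw [h0] at h
    exact absurd h (by simp)
  | succ f ih =>
    have h0 : colq (spr t) wl (f + 1) q b = frc b (fun b => cond (Nat.beq q 0) true
      (wle wl q b (fun w => colq (spr t) wl f (Nat.xor q (Nat.land q (ind (spr t) 2000 q))) (Nat.sub b w)))) := rfl
    rw [h0, frc_eq] at h
    cases h1 : Nat.beq q 0 with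
    | true =>
      have h1 := Nat.eq_of_beq_eq_true h1
      have h2 : E = ∅ := by
        rw [Finset.eq_empty_iff_forall_notMem]
        intro v hv
        have := hq v hv
        rw [h1, Nat.zero_testBit] at this
        exact absurd this (by simp)
      rw [h2, Finset.sum_empty]
      exact Nat.zero_le _
    | false =>
      rw [h1, cond_false] at h
      obtain ⟨w, w1, w2, w3⟩ := wle_ok hw _ _ _ h
      have hx : Ind t (Nat.land q (ind (spr t) 2000 q)) :=
        (ind_ok t ht 2000 q).2.sub (fun v hv => ((land_bit _ _ v).1 hv).2)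
      apply step_sum hE hx w1 (fun v hv => w3 v ((land_bit _ _ v).1 hv).1)
      apply ih _ _ w2 _ (hE.sub (Finset.filter_subset _ _))
      intro v hv
      rw [Finset.mem_filter] at hv
      exact xor_bit _ _ _ (hq v hv.1) (by simpa using hv.2)

theorem box_ok {t : ℕ} (ht : t ≤ 40) {wl : List ℕ} (hw : Anti wl) (cl : List ℕ) (hcl : ∀ I ∈ cl, Ind t I)
    (ex : ℕ → ℕ → Bool)
    (hex : ∀ q b, ex q b = true → ∀ E : Finset ℕ, Clq t E → In E q → ∑ v ∈ E, wt wl v ≤ b)
    (β b c f i m : ℕ) (him : i + m ≤ 80) (h : box (spr t) wl cl ex β b c f i m = true)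
    (E : Finset ℕ) (hE : Clq t E) (hc : In E c) (u : ℕ) (h1 : 80 * β + i ≤ u) (h2 : u < 80 * β + i + m)
    (hu : ∀ v ∈ E, ¬ K t u v) : ∑ v ∈ E, wt wl v ≤ b := by
  induction f generalizing i m with
  | zero =>
    have h0 : box (spr t) wl cl ex β b c 0 i m = false := rfl
    rw [h0] at h
    exact absurd h (by simp)
  | succ f ih =>
    have h0 : box (spr t) wl cl ex β b c (f + 1) i m = frc i (fun i => frc m (fun m =>
      cond (Nat.ble m 1) (ex (Nat.xor c (cf (spr t) β i m c)) b)
      (cond (bnd wl cl (Nat.xor c (cf (spr t) β i m c)) b) true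
      (cond (colq (spr t) wl 30 (Nat.xor c (cf (spr t) β i m c)) b) true
      (cond (box (spr t) wl cl ex β b c f i (Nat.div m 2))
        (box (spr t) wl cl ex β b c f (Nat.add i (Nat.div m 2)) (Nat.sub m (Nat.div m 2))) false))))) := rfl
    rw [h0] at h
    simp only [frc_eq] at h
    have hIn : In E (Nat.xor c (cf (spr t) β i m c)) := by
      intro v hv
      apply xor_bit _ _ _ (hc v hv)
      rw [← Bool.not_eq_true]
      intro h3
      obtain ⟨_, c2⟩ := cf_bit t ht β i m c v him h3
      have := c2 (u - 80 * β - i) (by omega)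
      rw [show 80 * β + (i + (u - 80 * β - i)) = u by omega] at this
      exact hu v hv (Or.inl this)
    cases e1 : Nat.ble m 1 with
    | true =>
      rw [e1, cond_true] at h
      exact hex _ _ h E hE hIn
    | false =>
      rw [e1, cond_false] at h
      cases e2 : bnd wl cl (Nat.xor c (cf (spr t) β i m c)) b with
      | true => exact bnd_ok hw cl hcl _ _ e2 E hE hIn
      | false =>
        rw [e2, cond_false] at h
        cases e3 : colq (spr t) wl 30 (Nat.xor c (cf (spr t) β i m c)) b with
        | true => exact colq_ok ht hw _ _ _ e3 E hE hIn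
        | false =>
          rw [e3, cond_false] at h
          cases e4 : box (spr t) wl cl ex β b c f i (Nat.div m 2) with
          | false =>
            rw [e4, cond_false] at h
            exact absurd h (by simp)
          | true =>
            rw [e4, cond_true] at h
            have h' : box (spr t) wl cl ex β b c f (i + m / 2) (m - m / 2) = true := h
            by_cases hcase : u < 80 * β + i + m / 2
            · exact ih i (m / 2) (by omega) e4 h1 hcase
            · exact ih (i + m / 2) (m - m / 2) (by omega) h' (by omega) (by omega)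

theorem brn_ok {t : ℕ} (ht : t ≤ 40) {wl : List ℕ} (hw : Anti wl) (cl : List ℕ) (hcl : ∀ I ∈ cl, Ind t I)
    (ex : ℕ → ℕ → Bool)
    (hex : ∀ q b, ex q b = true → ∀ E : Finset ℕ, Clq t E → In E q → ∑ v ∈ E, wt wl v ≤ b)
    (b f r c : ℕ) (h : brn (spr t) wl cl ex b f r c = true)
    (E : Finset ℕ) (hE : Clq t E) (hc : In E c) : ∑ v ∈ E, wt wl v ≤ b := by
  induction f generalizing r c E with
  | zero =>
    have h0 : brn (spr t) wl cl ex b 0 r c = false := rfl
    rw [h0] at h
    exact absurd h (by simp)
  | succ f ih =>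
    have h0 : brn (spr t) wl cl ex b (f + 1) r c = cond (Nat.beq r 0) (bnd wl cl c b)
      (run r false (fun β i m => frc (nth wl (Nat.div β 16)) (fun w => cond (Nat.ble w b)
        (cond (box (spr t) wl cl ex β (Nat.sub b w) (Nat.xor c (pick β i m c)) 8 i m)
          (brn (spr t) wl cl ex b f (Nat.xor r (pick β i m r)) (Nat.xor c (pick β i m c))) false)
        false))) := rfl
    rw [h0] at h
    cases e1 : Nat.beq r 0 with
    | true =>
      rw [e1, cond_true] at h
      exact bnd_ok hw cl hcl _ _ h E hE hc
    | false =>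
      rw [e1, cond_false] at h
      rcases run_cases r false (fun β i m => frc (nth wl (Nat.div β 16)) (fun w => cond (Nat.ble w b)
        (cond (box (spr t) wl cl ex β (Nat.sub b w) (Nat.xor c (pick β i m c)) 8 i m)
          (brn (spr t) wl cl ex b f (Nat.xor r (pick β i m r)) (Nat.xor c (pick β i m c))) false)
        false)) with e | ⟨β, i, m, him, e⟩
      · rw [e] at h
        exact absurd h (by simp)
      · rw [e] at h
        simp only [frc_eq] at h
        cases e2 : Nat.ble (nth wl (Nat.div β 16)) b with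
        | false =>
          rw [e2, cond_false] at h
          exact absurd h (by simp)
        | true =>
          rw [e2, cond_true] at h
          cases e3 : box (spr t) wl cl ex β (Nat.sub b (nth wl (Nat.div β 16))) (Nat.xor c (pick β i m c)) 8 i m with
          | false =>
            rw [e3, cond_false] at h
            exact absurd h (by simp)
          | true =>
            rw [e3, cond_true] at h
            by_cases hu : ∃ u ∈ E, 80 * β + i ≤ u ∧ u < 80 * β + i + m
            · obtain ⟨u, hu, u1, u2⟩ := hu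
              have hno : ∀ v ∈ E.erase u, ¬ (80 * β + i ≤ v ∧ v < 80 * β + i + m) := by
                intro v hv hv2
                rw [Finset.mem_erase] at hv
                exact hE u hu v hv.2 (Ne.symm hv.1) (Or.inl (Or.inl (by omega)))
              have hIn : In (E.erase u) (Nat.xor c (pick β i m c)) := by
                intro v hv
                apply xor_bit _ _ _ (hc v (Finset.mem_of_mem_erase hv))
                rw [← Bool.not_eq_true]
                intro h4
                exact hno v hv ((pick_bit β i m c v).1 h4).1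
              have h5 := box_ok ht hw cl hcl ex hex β _ _ 8 i m him e3 (E.erase u)
                (hE.sub (Finset.erase_subset _ _)) hIn u u1 u2
                (fun v hv => hE u hu v (Finset.mem_of_mem_erase hv) (Ne.symm (Finset.ne_of_mem_erase hv)))
              rw [← Finset.add_sum_erase E _ hu]
              have h6 : wt wl u = nth wl (Nat.div β 16) := by
                have : u / 80 / 16 = β / 16 := by omega
                unfold wt
                rw [this]
                rfl
              have h7 := Nat.le_of_ble_eq_true e2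
              have h8 : ∑ v ∈ E.erase u, wt wl v ≤ b - nth wl (Nat.div β 16) := h5
              omega
            · apply ih _ _ h E hE
              intro v hv
              apply xor_bit _ _ _ (hc v hv)
              rw [← Bool.not_eq_true]
              intro h4
              exact hu ⟨v, hv, ((pick_bit β i m c v).1 h4).1⟩

theorem exd_ok {t : ℕ} (ht : t ≤ 40) {wl : List ℕ} (hw : Anti wl) (f : ℕ) (cl : List ℕ)
    (hcl : ∀ I ∈ cl, Ind t I) (q b : ℕ) (h : exd (spr t) wl f cl q b = true)
    (E : Finset ℕ) (hE : Clq t E) (hq : In E q) : ∑ v ∈ E, wt wl v ≤ b := by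
  induction f generalizing cl q b E with
  | zero =>
    have h0 : exd (spr t) wl 0 cl q b = false := rfl
    rw [h0] at h
    exact absurd h (by simp)
  | succ f ih =>
    have h0 : exd (spr t) wl (f + 1) cl q b = frc b (fun b => cond (bnd wl cl q b) true
      (brn (spr t) wl (cola (spr t) 200 q) (exd (spr t) wl f (cola (spr t) 200 q)) b 5000
        (spl wl (cola (spr t) 200 q) b) q)) := rfl
    rw [h0, frc_eq] at h
    cases e1 : bnd wl cl q b with
    | true => exact bnd_ok hw cl hcl _ _ e1 E hE hq
    | false =>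
      rw [e1, cond_false] at h
      have hc := cola_ok t ht 200 q
      exact brn_ok ht hw _ hc _ (fun q b h E hE hq => ih _ hc q b h E hE hq) _ _ _ _ h E hE hq

theorem root_ok {t : ℕ} (ht : t ≤ 40) {wl : List ℕ} (hw : Anti wl) (b β : ℕ)
    (h : root (rep (im (41 - t) (39 + t)) 448) (spr t) wl b β = true)
    (E : Finset ℕ) (hE : Clq t E) (hu : 80 * β + 40 ∈ E)
    (hv : ∀ v ∈ E, v ≠ 80 * β + 40 → β < v / 80 ∧ v / 80 < 448 ∧ 41 ≤ v % 80 + t ∧ v % 80 < 40 + t) :
    ∑ v ∈ E, wt wl v ≤ b := by
  unfold root at h
  rw [frc_eq] at h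
  cases e2 : Nat.ble (nth wl (Nat.div β 16)) b with
  | false =>
    rw [e2, cond_false] at h
    exact absurd h (by simp)
  | true =>
    rw [e2, cond_true] at h
    have hIn : In (E.erase (80 * β + 40)) (cnd (rep (im (41 - t) (39 + t)) 448) β) := by
      intro v hv1
      rw [Finset.mem_erase] at hv1
      obtain ⟨a1, a2, a3, a4⟩ := hv v hv1.2 hv1.1
      have hd : 80 * (v / 80) + v % 80 = v := Nat.div_add_mod v 80
      have b1 : (rep (im (41 - t) (39 + t)) 448).testBit v = true := by
        rw [← hd]
        apply rep_bit' _ _ _ _ a2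
        rw [im_bit]
        omega
      have b2 : (abv (rep (im (41 - t) (39 + t)) 448) β).testBit v = true := by
        have e : abv (rep (im (41 - t) (39 + t)) 448) β =
          (rep (im (41 - t) (39 + t)) 448 >>> (80 * (β + 1))) <<< (80 * (β + 1)) := rfl
        rw [e, Nat.testBit_shiftLeft, Nat.testBit_shiftRight, Bool.and_eq_true, decide_eq_true_eq,
          show 80 * (β + 1) + (v - 80 * (β + 1)) = v by omega]
        exact ⟨by omega, b1⟩
      unfold cnd
      apply xor_bit _ _ _ b2
      rw [← Bool.not_eq_true, land_bit]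
      rintro ⟨_, b3⟩
      apply hE _ hu v hv1.2 (Ne.symm hv1.1)
      refine Or.inl (Or.inr (Or.inr (Or.inr ?_)))
      rw [show (80 * β + 40) / 80 = β by omega, show (80 * β + 40) % 80 = 40 by omega, Nat.add_sub_cancel, hd]
      exact b3
    have h5 := exd_ok ht hw 8 [] (by simp) _ _ h (E.erase (80 * β + 40)) (hE.sub (Finset.erase_subset _ _)) hIn
    rw [← Finset.add_sum_erase E _ hu]
    have h6 : wt wl (80 * β + 40) = nth wl (Nat.div β 16) := by
      unfold wt
      rw [show (80 * β + 40) / 80 = β by omega]
      rfl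
    have h7 := Nat.le_of_ble_eq_true e2
    have h8 : ∑ v ∈ E.erase (80 * β + 40), wt wl v ≤ b - nth wl (Nat.div β 16) := h5
    omega

theorem lev_root (wl : List ℕ) (t b β n : ℕ) (h : lev wl t b β n = true) (j : ℕ) (hj : j < n) :
    root (rep (im (41 - t) (39 + t)) 448) (spr t) wl b (β + j) = true := by
  induction n with
  | zero => omega
  | succ n ih =>
    have h0 : lev wl t b β (n + 1) = cond (frc (Nat.add β n)
      (root (rep (im (41 - t) (39 + t)) 448) (spr t) wl b)) (lev wl t b β n) false := rfl
    rw [h0, frc_eq] at h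
    cases e : root (rep (im (41 - t) (39 + t)) 448) (spr t) wl b (Nat.add β n) with
    | false =>
      rw [e, cond_false] at h
      exact absurd h (by simp)
    | true =>
      rw [e, cond_true] at h
      by_cases hjn : j = n
      · subst hjn
        exact e
      · exact ih h (by omega)

/-- the clique with lowest element 80 β' + 40, β ≤ β' < β + n, has weight at most b -/
theorem lev_sound {t : ℕ} (ht : t ≤ 40) {wl : List ℕ} (hw : Anti wl) (b β n : ℕ) (h : lev wl t b β n = true)
    (E : Finset ℕ) (hE : Clq t E) (β' : ℕ) (h1 : β ≤ β') (h2 : β' < β + n) (hu : 80 * β' + 40 ∈ E)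
    (hv : ∀ v ∈ E, v ≠ 80 * β' + 40 → β' < v / 80 ∧ v / 80 < 448 ∧ 41 ≤ v % 80 + t ∧ v % 80 < 40 + t) :
    ∑ v ∈ E, wt wl v ≤ b := by
  have h3 := lev_root wl t b β n h (β' - β) (by omega)
  rw [show β + (β' - β) = β' by omega] at h3
  exact root_ok ht hw b β' h3 E hE hu hv

end Pool.Agent.SQB
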