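import Mathlib
import Pool.Agent.SQB.BC
import Pool.Agent.SQB.BS

/-!
Soundness of the pieces of a root node; the statement RO t b β: all cliques with lowest element 80 β + 40 have weight ≤ b.
-/

set_option autoImplicit false

namespace Pool.Agent.SQB

theorem wlist_anti : Anti wlist := by
  have h : ∀ b : ℕ, b < 29 → ∀ a : ℕ, a ≤ b → nth wlist b ≤ nth wlist a := by decide +kernel
  have h0 : ∀ b : ℕ, 28 ≤ b → nth wlist b = 0 := by
    intro b hb
    obtain ⟨c, rfl⟩ : ∃ c, b = c + 28 := ⟨b - 28, by omega⟩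
    rfl
  intro a b hab
  by_cases hb : b < 29
  · exact h b hb a hab
  · rw [h0 b (by omega)]
    exact Nat.zero_le _

/-- all the cliques with lowest element 80 β + 40 have weight at most b -/
def RO (t b β : ℕ) : Prop := ∀ E : Finset ℕ, Clq t E → 80 * β + 40 ∈ E →
  (∀ v ∈ E, v ≠ 80 * β + 40 → β < v / 80 ∧ v / 80 < 448 ∧ 41 ≤ v % 80 + t ∧ v % 80 < 40 + t) →
  ∑ v ∈ E, wt wlist v ≤ b

theorem Cj_mono {t t' u v : ℕ} (h : t ≤ t') (hc : Cj t' u v) : Cj t u v := by
  unfold Cj at hc ⊢
  rcases hc with h1 | h1 | h1 | h1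
  · exact Or.inl h1
  · exact Or.inr (Or.inl (by omega))
  · exact Or.inr (Or.inr (Or.inl (by omega)))
  · exact Or.inr (Or.inr (Or.inr h1))

theorem RO_mono {t t' b b' β : ℕ} (ht : t ≤ t') (hb : b' ≤ b) (h : RO t' b' β) : RO t b β := by
  intro E hE hu hv
  refine le_trans (h E ?_ hu ?_) hb
  · intro u h1 v h2 h3 h4
    exact hE u h1 v h2 h3 (Or.imp (Cj_mono ht) (Cj_mono ht) h4)
  · intro v h1 h2
    obtain ⟨a1, a2, a3, a4⟩ := hv v h1 h2
    exact ⟨a1, a2, by omega, by omega⟩

theorem RO_lev {t b β n : ℕ} (ht : t ≤ 40) (h : lev wlist t b β n = true) (β' : ℕ) (h1 : β ≤ β')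
    (h2 : β' < β + n) : RO t b β' :=
  fun E hE hu hv => lev_sound ht wlist_anti b β n h E hE β' h1 h2 hu hv

theorem run_spec (q : ℕ) : (∃ β i m, i + m ≤ 80 ∧ ∀ (α : Type) (d : α) (k : ℕ → ℕ → ℕ → α), run q d k = k β i m) ∨
    (∀ (α : Type) (d : α) (k : ℕ → ℕ → ℕ → α), run q d k = d) := by
  unfold run low
  simp only [frc_eq]
  generalize (lg (Nat.mod (Nat.gcd q (Nat.pow 2 35840)) 1208925819614629174706175)) = i
  generalize (lg (Nat.div _ _)) = m
  cases h : Nat.ble (Nat.add i m) 80 with
  | false => exact Or.inr fun _ _ _ => rfl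
  | true => exact Or.inl ⟨_, i, m, Nat.le_of_ble_eq_true h, fun _ _ _ => rfl⟩

/-- the state after one run -/
noncomputable def nx (r c : ℕ) : ℕ × ℕ :=
  run r (r, c) (fun β i m => (Nat.xor r (pick β i m r), Nat.xor c (pick β i m c)))

/-- the state after n runs -/
noncomputable def st : ℕ → ℕ × ℕ → ℕ × ℕ
  | 0, p => p
  | n + 1, p => st n (nx p.1 p.2)

theorem st_add (m n : ℕ) (p : ℕ × ℕ) : st (m + n) p = st n (st m p) := by
  induction m generalizing p with
  | zero => rw [Nat.zero_add, st]
  | succ m ih => rw [show m + 1 + n = (m + n) + 1 by ring, st, ih, st]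

/-- all the cliques inside c have weight at most b -/
def CB (t b c : ℕ) : Prop := ∀ E : Finset ℕ, Clq t E → In E c → ∑ v ∈ E, wt wlist v ≤ b

theorem skp_ok (s r c : ℕ) (k : ℕ → ℕ → Bool) (h : skp s r c k = true) :
    k (st s (r, c)).1 (st s (r, c)).2 = true := by
  induction s generalizing r c with
  | zero => exact h
  | succ s ih =>
    have h0 : skp (s + 1) r c k = run r false (fun β i m =>
      skp s (Nat.xor r (pick β i m r)) (Nat.xor c (pick β i m c)) k) := rfl
    rw [h0] at h
    rw [st]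
    rcases run_spec r with ⟨β, i, m, _, e⟩ | e
    · rw [e] at h
      have e2 : nx (r, c).1 (r, c).2 = (Nat.xor r (pick β i m r), Nat.xor c (pick β i m c)) := e _ _ _
      rw [e2]
      exact ih _ _ h
    · rw [e] at h
      exact absurd h (by simp)

theorem box_step {t : ℕ} (ht : t ≤ 40) (cl : List ℕ) (hcl : ∀ I ∈ cl, Ind t I)
    (ex : ℕ → ℕ → Bool) (hex : ∀ q b, ex q b = true → CB t b q) {β i m b c : ℕ} (him : i + m ≤ 80)
    (hb : nth wlist (β / 16) ≤ b)
    (h : box (spr t) wlist cl ex β (Nat.sub b (nth wlist (Nat.div β 16))) (Nat.xor c (pick β i m c)) 8 i m = true)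
    (hr : CB t b (Nat.xor c (pick β i m c))) : CB t b c := by
  intro E hE hc
  by_cases hu : ∃ u ∈ E, 80 * β + i ≤ u ∧ u < 80 * β + i + m
  · obtain ⟨u, hu, u1, u2⟩ := hu
    have hno : ∀ v ∈ E.erase u, ¬ (80 * β + i ≤ v ∧ v < 80 * β + i + m) := by
      intro v hv hv2
      rw [Finset.mem_erase] at hv
      exact hE u hu v hv.2 (Ne.symm hv.1) (Or.inl (Or.inl (by omega)))
    have hIn : In (E.erase u) (Nat.xor c (pick β i m c)) := by
      intro v hv
      apply xor_bit _ _ _ (hc v (Finset.mem_of_mem_erase hv))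
      rw [← Bool.not_eq_true]
      intro h4
      exact hno v hv ((pick_bit β i m c v).1 h4).1
    have h5 := box_ok ht wlist_anti cl hcl ex hex β _ _ 8 i m him h (E.erase u)
      (hE.sub (Finset.erase_subset _ _)) hIn u u1 u2
      (fun v hv => hE u hu v (Finset.mem_of_mem_erase hv) (Ne.symm (Finset.ne_of_mem_erase hv)))
    rw [← Finset.add_sum_erase E _ hu]
    have h6 : wt wlist u = nth wlist (β / 16) := by
      have : u / 80 / 16 = β / 16 := by omega
      unfold wt
      rw [this]
    have h8 : ∑ v ∈ E.erase u, wt wlist v ≤ b - nth wlist (β / 16) := h5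
    omega
  · apply hr E hE
    intro v hv
    apply xor_bit _ _ _ (hc v hv)
    rw [← Bool.not_eq_true]
    intro h4
    exact hu ⟨v, hv, ((pick_bit β i m c v).1 h4).1⟩

theorem chm_ok {t : ℕ} (ht : t ≤ 40) (cl : List ℕ) (hcl : ∀ I ∈ cl, Ind t I)
    (ex : ℕ → ℕ → Bool) (hex : ∀ q b, ex q b = true → CB t b q) (b n r c : ℕ)
    (h : chm (spr t) wlist cl ex b n r c = true) (hr : CB t b (st n (r, c)).2) : CB t b c := by
  induction n generalizing r c with
  | zero => exact hr
  | succ n ih =>
    have h0 : chm (spr t) wlist cl ex b (n + 1) r c = cond (Nat.beq r 0) (bnd wlist cl c b)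
      (run r false (fun β i m => frc (nth wlist (Nat.div β 16)) (fun w => cond (Nat.ble w b)
        (cond (box (spr t) wlist cl ex β (Nat.sub b w) (Nat.xor c (pick β i m c)) 8 i m)
          (chm (spr t) wlist cl ex b n (Nat.xor r (pick β i m r)) (Nat.xor c (pick β i m c))) false)
        false))) := rfl
    rw [h0] at h
    cases e1 : Nat.beq r 0 with
    | true =>
      rw [e1, cond_true] at h
      exact fun E hE hc => bnd_ok wlist_anti cl hcl _ _ h E hE hc
    | false =>
      rw [e1, cond_false] at h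
      rcases run_spec r with ⟨β, i, m, him, e⟩ | e
      · rw [e, frc_eq] at h
        rw [st] at hr
        have e3 : nx (r, c).1 (r, c).2 = (Nat.xor r (pick β i m r), Nat.xor c (pick β i m c)) := e _ _ _
        rw [e3] at hr
        cases e2 : Nat.ble (nth wlist (Nat.div β 16)) b with
        | false =>
          rw [e2, cond_false] at h
          exact absurd h (by simp)
        | true =>
          rw [e2, cond_true] at h
          cases e4 : box (spr t) wlist cl ex β (Nat.sub b (nth wlist (Nat.div β 16))) (Nat.xor c (pick β i m c)) 8 i m with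
          | false =>
            rw [e4, cond_false] at h
            exact absurd h (by simp)
          | true =>
            rw [e4, cond_true] at h
            exact box_step ht cl hcl ex hex him (Nat.le_of_ble_eq_true e2) e4 (ih _ _ h hr)
      · rw [e] at h
        exact absurd h (by simp)

/-- the candidates of the root β -/
noncomputable def q0 (t β : ℕ) : ℕ := cnd (rep (im (41 - t) (39 + t)) 448) β

/-- the statement after s runs -/
def TS (t b β s : ℕ) : Prop := CB t (b - nth wlist (β / 16))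
  (st s (rR (spr t) wlist (b - nth wlist (β / 16)) (q0 t β), q0 t β)).2

theorem ex_ok {t : ℕ} (ht : t ≤ 40) (f : ℕ) (cl : List ℕ) (hcl : ∀ I ∈ cl, Ind t I) (q b : ℕ)
    (h : exd (spr t) wlist f cl q b = true) : CB t b q :=
  fun E hE hq => exd_ok ht wlist_anti f cl hcl q b h E hE hq

theorem TS_rp {t b β s n : ℕ} (ht : t ≤ 40) (h : rp wlist t b β s n = true) (h2 : TS t b β (s + n)) :
    TS t b β s := by
  unfold rp at h
  rw [frc_eq, frc_eq] at h
  have h3 := skp_ok _ _ _ _ h
  unfold TS at h2 ⊢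
  rw [st_add] at h2
  have hc := cola_ok t ht 200 (q0 t β)
  exact chm_ok ht _ hc _ (fun q b h => ex_ok ht 7 _ hc q b h) _ n _ _ h3 h2

theorem TS_re {t b β s : ℕ} (ht : t ≤ 40) (h : re wlist t b β s = true) : TS t b β s := by
  unfold re at h
  rw [frc_eq, frc_eq] at h
  have h3 := skp_ok _ _ _ _ h
  have hc := cola_ok t ht 200 (q0 t β)
  exact fun E hE hq => brn_ok ht wlist_anti _ hc _ (fun q b h => ex_ok ht 7 _ hc q b h) _ 5000 _ _ h3 E hE hq

theorem RO_TS {t b β : ℕ} (hb : nth wlist (β / 16) ≤ b) (h : TS t b β 0) : RO t b β := by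
  intro E hE hu hv
  have hIn : In (E.erase (80 * β + 40)) (q0 t β) := by
    intro v hv1
    rw [Finset.mem_erase] at hv1
    obtain ⟨a1, a2, a3, a4⟩ := hv v hv1.2 hv1.1
    have hd : 80 * (v / 80) + v % 80 = v := Nat.div_add_mod v 80
    have b1 : (rep (im (41 - t) (39 + t)) 448).testBit v = true := by
      rw [← hd]
      apply rep_bit' _ _ _ _ a2
      rw [im_bit]
      omega
    have b2 : (abv (rep (im (41 - t) (39 + t)) 448) β).testBit v = true := by
      have e : abv (rep (im (41 - t) (39 + t)) 448) β =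
        (rep (im (41 - t) (39 + t)) 448 >>> (80 * (β + 1))) <<< (80 * (β + 1)) := rfl
      rw [e, Nat.testBit_shiftLeft, Nat.testBit_shiftRight, Bool.and_eq_true, decide_eq_true_eq,
        show 80 * (β + 1) + (v - 80 * (β + 1)) = v by omega]
      exact ⟨by omega, b1⟩
    unfold q0 cnd
    apply xor_bit _ _ _ b2
    rw [← Bool.not_eq_true, land_bit]
    rintro ⟨_, b3⟩
    apply hE _ hu v hv1.2 (Ne.symm hv1.1)
    refine Or.inl (Or.inr (Or.inr (Or.inr ?_)))
    rw [show (80 * β + 40) / 80 = β by omega, show (80 * β + 40) % 80 = 40 by omega, Nat.add_sub_cancel, hd]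
    exact b3
  have h5 := h (E.erase (80 * β + 40)) (hE.sub (Finset.erase_subset _ _)) hIn
  rw [← Finset.add_sum_erase E _ hu]
  have h6 : wt wlist (80 * β + 40) = nth wlist (β / 16) := by
    unfold wt
    rw [show (80 * β + 40) / 80 = β by omega]
  omega

end Pool.Agent.SQB
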