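import Mathlib
import Pool.Agent.SQB.BS
import Pool.Agent.SQB.Rw
import Pool.Agent.SQF4.BTab
import Pool.Agent.SQF4.Tab
import Pool.Agent.SQF4.Blk

/-!
GLUE: the table B(q, t) (H2 of SQF4.Top.top) from the checked levels of the branch and bound.
-/

set_option autoImplicit false

namespace Pool.Agent.SQB

open Pool.Agent.SQF Pool.Agent.SQF4

/-- the weights of P = 16, ..., 43 -/
def wlB : List ℕ := [1000, 1000, 1000, 1000, 1000, 1000, 1000, 1000, 1000, 1000, 1000, 1000, 1000, 1000, 1000,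
  929, 857, 786, 714, 640, 571, 496, 429, 297, 247, 172, 122, 46]

theorem nth_zero (x : ℕ) (l : List ℕ) : nth (x :: l) 0 = x := rfl

theorem nth_succ (x : ℕ) (l : List ℕ) (n : ℕ) : nth (x :: l) (n + 1) = nth l n := rfl

theorem nth_nil (n : ℕ) : nth [] n = 0 := rfl

theorem nth_getD (l : List ℕ) : ∀ n, nth l n = l.getD n 0 := by
  induction l with
  | nil =>
    intro n
    rw [nth_nil, List.getD_nil]
  | cons x l ih =>
    intro n
    cases n with
    | zero => rw [nth_zero, List.getD_cons_zero]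
    | succ n => rw [nth_succ, List.getD_cons_succ, ih]

theorem wlB_aw {P : ℕ} (h1 : 16 ≤ P) (h2 : P ≤ 43) : nth wlB (P - 16) = aw P := by
  rw [nth_getD]
  have key : ∀ i : ℕ, i < 28 → wlB.getD i 0 = aw (i + 16) := by decide
  have h := key (P - 16) (by omega)
  rwa [show P - 16 + 16 = P by omega] at h

theorem antiB : Anti wlB := by
  intro a b hab
  rw [nth_getD, nth_getD]
  rcases Nat.lt_or_ge b 28 with h | h
  · have key : ∀ j : ℕ, j < 28 → ∀ i : ℕ, i < 28 → i ≤ j → wlB.getD j 0 ≤ wlB.getD i 0 := by decide +kernel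
    exact key b h a (by omega) hab
  · rw [List.getD_eq_getElem?_getD, List.getElem?_eq_none (by simpa [wlB] using h)]
    exact Nat.zero_le _

variable {γ : Type*} {W : ℤ → γ}

/-- the bound for a block of length t and the threshold q, from the levels -/
theorem blk_bound (hW : Sqf W) {Z : Finset (ℤ × γ)} {τ : ℤ × γ → Bool} {P : ℤ × γ → ℕ} {c : ℤ × γ → ℤ}
    (hwit : Wit W Z τ P c) (x : ℤ) (t q B : ℕ) (htq : t + 1 ≤ q) (hq : 16 ≤ q)
    (hlev : ∀ β : ℕ, 16 * (q - 16) ≤ β → β < 448 → ∃ t' b β₀ n : ℕ, lev wlB t' b β₀ n = true ∧ β₀ ≤ β ∧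
      β < β₀ + n ∧ t ≤ t' ∧ t' ≤ 40 ∧ b ≤ B) :
    ∑ z ∈ (blk Z c x t).filter (fun z => q ≤ P z), aw (P z) ≤ B := by
  classical
  have hz0 : ∑ z ∈ (blk Z c x t).filter (fun z => q ≤ P z), aw (P z) =
      ∑ z ∈ ((blk Z c x t).filter (fun z => q ≤ P z)).filter (fun z => P z ≤ 43), aw (P z) := by
    symm
    apply Finset.sum_subset (Finset.filter_subset _ _)
    intro z hz hz2
    rw [Finset.mem_filter, not_and] at hz2
    have := hz2 hz
    exact aw_zero (by omega)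
  rw [hz0]
  set F := ((blk Z c x t).filter (fun z => q ≤ P z)).filter (fun z => P z ≤ 43) with hF
  have hmem : ∀ z ∈ F, EvAt W (τ z) (P z) (c z) z.1 z.2 ∧ x ≤ c z ∧ c z < x + t ∧ q ≤ P z ∧ P z ≤ 43 := by
    intro z hz
    rw [hF] at hz
    obtain ⟨h1, h2⟩ := Finset.mem_filter.1 hz
    obtain ⟨h3, h4⟩ := Finset.mem_filter.1 h1
    obtain ⟨h5, h6, h7⟩ := Finset.mem_filter.1 h3
    exact ⟨hwit.ev z h5, h6, h7, h4, h2⟩
  rcases F.eq_empty_or_nonempty with he | hne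
  · rw [he, Finset.sum_empty]
    exact Nat.zero_le _
  obtain ⟨z0, hz0F, hmin⟩ := Finset.exists_min_image F (fun z => bt (τ z) (P z) (c z) z.1) hne
  obtain ⟨e0, x0, y0, q0, p0⟩ := hmem z0 hz0F
  obtain ⟨a1, a2, -, -⟩ := bt_spec (by omega) p0 e0
  obtain ⟨t', b, β₀, n, hl, h1, h2, h3, h4, h5⟩ := hlev (bt (τ z0) (P z0) (c z0) z0.1) (by unfold cP at a2; omega) a1
  -- the vertex of a pair
  let f : ℤ × γ → ℕ := fun z => 80 * bt (τ z) (P z) (c z) z.1 + (c z - c z0 + 40).toNat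
  have hf : ∀ z ∈ F, f z / 80 = bt (τ z) (P z) (c z) z.1 ∧ ((f z % 80 : ℕ) : ℤ) = c z - c z0 + 40 ∧
      40 < f z % 80 + t ∧ f z % 80 < 40 + t := by
    intro z hz
    obtain ⟨e1, x1, y1, q1, p1⟩ := hmem z hz
    have h1 : f z = 80 * bt (τ z) (P z) (c z) z.1 + (c z - c z0 + 40).toNat := rfl
    have h2 : (c z - c z0 + 40).toNat < 80 := by omega
    have h3 : f z % 80 = (c z - c z0 + 40).toNat := by omega
    refine ⟨by omega, ?_, ?_, ?_⟩
    · rw [h3]
      omega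
    · omega
    · omega
  have hne8 : ∀ z ∈ F, ∀ z' ∈ F, z ≠ z' → bt (τ z) (P z) (c z) z.1 ≠ bt (τ z') (P z') (c z') z'.1 := by
    intro z hz z' hz' hzz hbb
    obtain ⟨e1, x1, y1, q1, p1⟩ := hmem z hz
    obtain ⟨e2, x2, y2, q2, p2⟩ := hmem z' hz'
    obtain ⟨-, a2, a3, -⟩ := bt_spec (by omega) p1 e1
    obtain ⟨-, b2, b3, -⟩ := bt_spec (by omega) p2 e2
    rw [hbb] at a2 a3
    rw [a2] at b2
    rw [a3] at b3
    rw [← b2, ← b3] at e2
    have hs := same_pair hW e1 e2 (by omega) (by omega)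
    exact hzz (Prod.ext hs.1 hs.2)
  have hinj : Set.InjOn f F := by
    intro z hz z' hz' hzz
    by_contra hne
    obtain ⟨a1, -⟩ := hf z hz
    obtain ⟨b1, -⟩ := hf z' hz'
    rw [hzz, b1] at a1
    exact hne8 z hz z' hz' hne a1.symm
  have hsum : ∑ z ∈ F, aw (P z) = ∑ v ∈ F.image f, wt wlB v := by
    rw [Finset.sum_image hinj]
    apply Finset.sum_congr rfl
    intro z hz
    obtain ⟨e1, x1, y1, q1, p1⟩ := hmem z hz
    obtain ⟨a1, -⟩ := hf z hz
    obtain ⟨-, a2, -, -⟩ := bt_spec (by omega) p1 e1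
    unfold wt
    rw [a1]
    unfold cP at a2
    have h3 : bt (τ z) (P z) (c z) z.1 / 16 = P z - 16 := by omega
    rw [h3]
    exact (wlB_aw (by omega) p1).symm
  rw [hsum]
  refine le_trans ?_ h5
  have hf0 : f z0 = 80 * bt (τ z0) (P z0) (c z0) z0.1 + 40 := by
    show 80 * bt (τ z0) (P z0) (c z0) z0.1 + (c z0 - c z0 + 40).toNat = _
    have : (c z0 - c z0 + 40).toNat = 40 := by omega
    rw [this]
  refine lev_sound h4 antiB b β₀ n hl (F.image f) ?_ (bt (τ z0) (P z0) (c z0) z0.1) h1 h2 ?_ ?_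
  · intro u hu v hv huv
    obtain ⟨z, hz, rfl⟩ := Finset.mem_image.1 hu
    obtain ⟨z', hz', rfl⟩ := Finset.mem_image.1 hv
    have key : ∀ z ∈ F, ∀ z' ∈ F, z ≠ z' → ¬ Cj t' (f z) (f z') := by
      intro z hz z' hz' hzz hC
      obtain ⟨e1, x1, y1, q1, p1⟩ := hmem z hz
      obtain ⟨e2, x2, y2, q2, p2⟩ := hmem z' hz'
      obtain ⟨a1, a2, a3, a4⟩ := hf z hz
      obtain ⟨b1, b2, b3, b4⟩ := hf z' hz'
      rcases hC with h | h | h | h
      · rw [a1, b1] at h
        exact hne8 z hz z' hz' hzz h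
      · omega
      · omega
      · rw [a1, b1] at h
        have e : f z' % 80 + 40 - f z % 80 = (c z' - c z + 40).toNat := by omega
        rw [e, row_conf hW (by omega) p1 (by omega) p2 e1 e2 ?_ (by omega) (by omega)] at h
        · exact absurd h (by simp)
        · intro he
          exact hzz (Prod.ext (Prod.mk.inj he).1 (Prod.mk.inj he).2)
    have hzz : z ≠ z' := fun h => huv (by rw [h])
    rintro (h | h)
    · exact key z hz z' hz' hzz h
    · exact key z' hz' z hz (Ne.symm hzz) h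
  · rw [← hf0]
    exact Finset.mem_image_of_mem f hz0F
  · intro v hv hne'
    obtain ⟨z, hz, rfl⟩ := Finset.mem_image.1 hv
    rw [← hf0] at hne'
    obtain ⟨e1, x1, y1, q1, p1⟩ := hmem z hz
    obtain ⟨a1', a2', a3', a4'⟩ := hf z hz
    obtain ⟨b1, -⟩ := bt_spec (by omega) p1 e1
    have h6 := hmin z hz
    have h7 : z ≠ z0 := fun h => hne' (by rw [h])
    have h8 := hne8 z hz z0 hz0F h7
    rw [a1']
    refine ⟨?_, b1, by omega, by omega⟩
    omega

/-- H2 of SQF4.Top.top from the levels -/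
theorem H2_of_lev
    (hlev : ∀ q t : ℕ, SP q t → t + 1 ≤ q → q ≤ 43 → ∀ β : ℕ, 16 * (q - 16) ≤ β → β < 448 → ∃ t' b β₀ n : ℕ,
      lev wlB t' b β₀ n = true ∧ β₀ ≤ β ∧ β < β₀ + n ∧ t ≤ t' ∧ t' ≤ 40 ∧ b ≤ Bt q t)
    (hW : Sqf W) {Z : Finset (ℤ × γ)} {τ : ℤ × γ → Bool} {P : ℤ × γ → ℕ} {c : ℤ × γ → ℤ}
    (hwit : Wit W Z τ P c) (x : ℤ) (t q : ℕ) (htq : t + 1 ≤ q) (hS : SP q t) :
    ∑ z ∈ (blk Z c x t).filter (fun z => q ≤ P z), aw (P z) ≤ Bt q t := by
  rcases Nat.lt_or_ge q 44 with h | h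
  · have hq : 16 ≤ q := by
      unfold SP Sb at hS
      rw [Bool.or_eq_true, Bool.and_eq_true] at hS
      rcases hS with h1 | h1
      · have := Nat.le_of_ble_eq_true h1
        omega
      · exact Nat.le_of_ble_eq_true h1.1
    exact blk_bound hW hwit x t q (Bt q t) htq hq (hlev q t hS htq (by omega))
  · rw [Finset.sum_eq_zero]
    · exact Nat.zero_le _
    · intro z hz
      exact aw_zero (le_trans h (Finset.mem_filter.1 hz).2)

/-- the levels (t', P0, b) cover all the entries of the table -/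
def cov (L : List (ℕ × ℕ × ℕ)) : Bool :=
  (List.range 44).all fun p => (fun M => (List.range (p + 1)).all fun q => (List.range 34).all fun t => !(Sb q t) ||
    (fun v => M.any fun l => Nat.ble t l.1 && (Nat.ble l.1 40 && Nat.ble l.2.2 v)) (Bt q t))
    (L.filter fun l => Nat.beq l.2.1 p)

/-- H2 from a list of levels (t', P0, b): all the classes β with P = P0 are checked -/
theorem H2_of_list (L : List (ℕ × ℕ × ℕ)) (hL : ∀ l ∈ L, ∀ β : ℕ, β / 16 = l.2.1 - 16 →
      ∃ β₀ n : ℕ, lev wlB l.1 l.2.2 β₀ n = true ∧ β₀ ≤ β ∧ β < β₀ + n) (hc : cov L = true)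
    (hW : Sqf W) {Z : Finset (ℤ × γ)} {τ : ℤ × γ → Bool} {P : ℤ × γ → ℕ} {c : ℤ × γ → ℤ}
    (hwit : Wit W Z τ P c) (x : ℤ) (t q : ℕ) (htq : t + 1 ≤ q) (hS : SP q t) :
    ∑ z ∈ (blk Z c x t).filter (fun z => q ≤ P z), aw (P z) ≤ Bt q t := by
  refine H2_of_lev (fun q t hS htq hq β h1 h2 => ?_) hW hwit x t q htq hS
  have hS' : Sb q t = true := hS
  have hq16 : 16 ≤ q := by
    unfold Sb at hS'
    rw [Bool.or_eq_true, Bool.and_eq_true] at hS'
    rcases hS' with h | h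
    · have := Nat.le_of_ble_eq_true h
      omega
    · exact Nat.le_of_ble_eq_true h.1
  have ht : t < 34 := by
    unfold Sb at hS'
    rw [Bool.or_eq_true, Bool.and_eq_true, Bool.and_eq_true] at hS'
    rcases hS' with h | h
    · have := Nat.le_of_ble_eq_true h
      omega
    · have := Nat.le_of_ble_eq_true h.2.1
      omega
  unfold cov at hc
  rw [List.all_eq_true] at hc
  have c1 := hc (β / 16 + 16) (List.mem_range.2 (by omega))
  rw [List.all_eq_true] at c1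
  have c2 := c1 q (List.mem_range.2 (by omega))
  rw [List.all_eq_true] at c2
  have c3 := c2 t (List.mem_range.2 ht)
  rw [hS', Bool.not_true, Bool.false_or] at c3
  rw [List.any_eq_true] at c3
  obtain ⟨l, hl, c4⟩ := c3
  rw [List.mem_filter] at hl
  rw [Bool.and_eq_true, Bool.and_eq_true] at c4
  obtain ⟨d2, d3, d4⟩ := c4
  have d1 : l.2.1 = β / 16 + 16 := Nat.eq_of_beq_eq_true hl.2
  obtain ⟨β₀, n, e1, e2, e3⟩ := hL l hl.1 β (by omega)
  exact ⟨l.1, l.2.2, β₀, n, e1, e2, e3, Nat.le_of_ble_eq_true d2, Nat.le_of_ble_eq_true d3, Nat.le_of_ble_eq_true d4⟩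

end Pool.Agent.SQB
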