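import Pool.Agent.SQB.BC

/-!
Kernel checks, part 18.
-/

set_option autoImplicit false
set_option maxRecDepth 100000

namespace Pool.Agent.SQB

theorem h15_27_0 : rp wlist 15 8500 27 0 119 = true := by decide +kernel

theorem h15_27_119 : rp wlist 15 8500 27 119 39 = true := by decide +kernel

theorem h15_27_158 : re wlist 15 8500 27 158 = true := by decide +kernel

end Pool.Agent.SQB
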