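import Pool.Agent.SQB.BC

/-!
Kernel checks, part 78.
-/

set_option autoImplicit false
set_option maxRecDepth 100000

namespace Pool.Agent.SQB

theorem h18_94_66 : rp wlist 18 5750 94 66 66 = true := by decide +kernel

theorem h18_94_132 : re wlist 18 5750 94 132 = true := by decide +kernel

theorem l18_95 : lev wlist 18 5750 95 1 = true := by decide +kernel

theorem l12_96 : lev wlist 12 5250 96 16 = true := by decide +kernel

end Pool.Agent.SQB
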